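import Pool.Agent.Lib.MP_4bee3f_an.G.Defs

/-! Linear algebra in the plane: the prolonged system. -/

namespace Pool.Agent.Lib.MP_4bee3f_an.G

open Filter Topology Matrix Pool.Agent.Lib.MP_4bee3f_an.K

/-- Index set of second derivatives `(l, j, m)` and of the equations for them. -/
abbrev I3 : Type := Fin 2 × Fin 2 × Fin 2

/-- The matrix of the prolonged system. -/
def Lm (A : Fin 2 → Mat 2) (X : Mat 2) : Matrix I3 I3 ℝ := Matrix.of fun p q =>
  if p.1 = 0 then (if q.2.2 = p.2.2 then A q.2.1 p.2.1 q.1 else 0)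
  else if p.2.1 = 0 then (if q.2.2 = p.2.2 then X.adjugate q.2.1 q.1 else 0)
  else if q.1 = p.2.2 then (if q.2.1 = q.2.2 then 0 else if q.2.1 = 0 then 1 else -1) else 0

/-- The slice in direction `m`. -/
def sl (T : I3 → ℝ) (m : Fin 2) : Mat 2 := Matrix.of fun l j => T (l, j, m)

/-- Admissible values of the derivative. -/
def Adm (A : Fin 2 → Mat 2) (F : Fin 2 → ℝ) (J L : ℝ) (X : Mat 2) : Prop :=
  (∀ i, app A X i = F i) ∧ X.det = J ∧ ∀ l j, |X l j| ≤ L

variable {A : Fin 2 → Mat 2} {X M : Mat 2}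

theorem Lm_a (T : I3 → ℝ) (i m : Fin 2) : (Lm A X *ᵥ T) (0, i, m) = app A (sl T m) i := by
  fin_cases i <;> fin_cases m <;>
    simp [Lm, app, sl, mulVec, dotProduct, Fintype.sum_prod_type, Fin.sum_univ_two] <;> ring

theorem Lm_b (T : I3 → ℝ) (m : Fin 2) :
    (Lm A X *ᵥ T) (1, 0, m) = (X.adjugate * sl T m).trace := by
  fin_cases m <;>
    simp [Lm, sl, mulVec, dotProduct, Fintype.sum_prod_type, Fin.sum_univ_two, Matrix.trace,
      Matrix.mul_apply] <;> ring

theorem Lm_c (T : I3 → ℝ) (l : Fin 2) : (Lm A X *ᵥ T) (1, 1, l) = T (l, 0, 1) - T (l, 1, 0) := by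
  fin_cases l <;>
    simp [Lm, mulVec, dotProduct, Fintype.sum_prod_type, Fin.sum_univ_two] <;> ring

theorem app_add {n : ℕ} (A : Fin n → Mat n) (M N : Mat n) (i : Fin n) :
    app A (M + N) i = app A M i + app A N i := by
  simp [app, mul_add, Finset.sum_add_distrib]

theorem app_sub {n : ℕ} (A : Fin n → Mat n) (M N : Mat n) (i : Fin n) :
    app A (M - N) i = app A M i - app A N i := by
  simp [app, mul_sub, Finset.sum_sub_distrib]

theorem app_smul {n : ℕ} (A : Fin n → Mat n) (t : ℝ) (M : Mat n) (i : Fin n) :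
    app A (t • M) i = t * app A M i := by
  simp only [app, Matrix.smul_apply, smul_eq_mul, Finset.mul_sum]
  exact Finset.sum_congr rfl fun j _ => Finset.sum_congr rfl fun l _ => by ring

theorem det_add2 (X H : Mat 2) : (X + H).det = X.det + (X.adjugate * H).trace + H.det := by
  simp [Matrix.det_fin_two, Matrix.adjugate_fin_two, Matrix.trace, Matrix.vecMul, dotProduct,
    Fin.sum_univ_two]
  ring

/-- A singular matrix is `a ⊗ ξ`, and `app A (a ⊗ ξ) = A(ξ) a`. -/
theorem Ell.ker (hA : Ell A) (h : ∀ i, app A M i = 0) (hd : M.det = 0) : M = 0 := by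
  obtain ⟨v, hv, hMv⟩ := Matrix.exists_mulVec_eq_zero_iff.2 hd
  have hr : ∀ l, M l 0 * v 0 + M l 1 * v 1 = 0 := fun l => by
    have := congrFun hMv l
    simpa [mulVec, dotProduct, Fin.sum_univ_two] using this
  have hN : v 0 ^ 2 + v 1 ^ 2 ≠ 0 := by
    intro h0
    apply hv
    funext j
    have a0 : v 0 = 0 := by nlinarith [sq_nonneg (v 0), sq_nonneg (v 1)]
    have a1 : v 1 = 0 := by nlinarith [sq_nonneg (v 0), sq_nonneg (v 1)]
    fin_cases j
    · exact a0
    · exact a1
  have hξ : (![-v 1, v 0] : Fin 2 → ℝ) ≠ 0 := by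
    intro h0
    have a0 : -v 1 = 0 := congrFun h0 0
    have a1 : v 0 = 0 := congrFun h0 1
    apply hN
    have : v 1 = 0 := by linarith
    rw [a1, this]; norm_num
  have e0 : ∀ l, (M l 1 * v 0 - M l 0 * v 1) * (-v 1) = (v 0 ^ 2 + v 1 ^ 2) * M l 0 := fun l => by
    linear_combination (-v 0) * hr l
  have e1 : ∀ l, (M l 1 * v 0 - M l 0 * v 1) * v 0 = (v 0 ^ 2 + v 1 ^ 2) * M l 1 := fun l => by
    linear_combination (-v 1) * hr l
  have ha : (fun l => M l 1 * v 0 - M l 0 * v 1) = (0 : Fin 2 → ℝ) := by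
    refine Matrix.eq_zero_of_mulVec_eq_zero (hA _ hξ) ?_
    funext i
    have hi := h i
    simp only [app, Fin.sum_univ_two] at hi
    simp only [mulVec, dotProduct, Fin.sum_univ_two, Matrix.add_apply, Matrix.smul_apply,
      smul_eq_mul, Matrix.cons_val_zero, Matrix.cons_val_one, Pi.zero_apply]
    linear_combination A 0 i 0 * e0 0 + A 0 i 1 * e0 1 + A 1 i 0 * e1 0 + A 1 i 1 * e1 1
      + (v 0 ^ 2 + v 1 ^ 2) * hi
  ext l j
  have hl : M l 1 * v 0 - M l 0 * v 1 = 0 := congrFun ha l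
  have f0 := e0 l
  have f1 := e1 l
  rw [hl, zero_mul] at f0 f1
  fin_cases j
  · exact (mul_eq_zero.1 f0.symm).resolve_left hN
  · exact (mul_eq_zero.1 f1.symm).resolve_left hN

/-- If `Lm T = 0`: the first columns of `M`, `sl T 0`, `sl T 1` are dependent, so
`α M + β T0 + γ T1 = 0` by `Ell.ker`, `α = 0` by the trace, and `T0`, `T1` kill `(β, γ)`. -/
theorem Lm_det (hA : Ell A) (hM : ∀ i, app A M i = 0) (ht : (X.adjugate * M).trace ≠ 0) :
    (Lm A X).det ≠ 0 := by
  intro hdet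
  obtain ⟨T, hT, hLT⟩ := Matrix.exists_mulVec_eq_zero_iff.2 hdet
  have ha : ∀ m i, app A (sl T m) i = 0 := fun m i => by rw [← Lm_a (X := X), hLT]; rfl
  have hb : ∀ m, (X.adjugate * sl T m).trace = 0 := fun m => by rw [← Lm_b (A := A), hLT]; rfl
  have hc : ∀ l, T (l, 0, 1) - T (l, 1, 0) = 0 := fun l => by
    rw [← Lm_c (A := A) (X := X), hLT]; rfl
  obtain ⟨w, hw, hw0⟩ := (Matrix.exists_mulVec_eq_zero_iff
    (M := !![M 0 0, T (0, 0, 0), T (0, 0, 1); M 1 0, T (1, 0, 0), T (1, 0, 1); 0, 0, 0])).2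
    (by simp [Matrix.det_fin_three])
  have r0 : M 0 0 * w 0 + T (0, 0, 0) * w 1 + T (0, 0, 1) * w 2 = 0 := by
    simpa [mulVec, dotProduct, Fin.sum_univ_three] using congrFun hw0 0
  have r1 : M 1 0 * w 0 + T (1, 0, 0) * w 1 + T (1, 0, 1) * w 2 = 0 := by
    simpa [mulVec, dotProduct, Fin.sum_univ_three] using congrFun hw0 1
  have hN : w 0 • M + w 1 • sl T 0 + w 2 • sl T 1 = 0 := by
    refine hA.ker (fun i => ?_) ?_
    · rw [app_add, app_add, app_smul, app_smul, app_smul, hM, ha, ha]; ring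
    · have c0 : (w 0 • M + w 1 • sl T 0 + w 2 • sl T 1) 0 0 = 0 := by
        simp only [Matrix.add_apply, Matrix.smul_apply, smul_eq_mul, sl, Matrix.of_apply]
        linarith
      have c1 : (w 0 • M + w 1 • sl T 0 + w 2 • sl T 1) 1 0 = 0 := by
        simp only [Matrix.add_apply, Matrix.smul_apply, smul_eq_mul, sl, Matrix.of_apply]
        linarith
      rw [Matrix.det_fin_two, c0, c1]; ring
  have h0 : w 0 = 0 := by
    have := congrArg (fun N => (X.adjugate * N).trace) hN
    simp only [Matrix.mul_add, Matrix.mul_smul, Matrix.trace_add, Matrix.trace_smul, hb,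
      smul_eq_mul, mul_zero, add_zero, Matrix.trace_zero] at this
    exact (mul_eq_zero.1 this).resolve_right ht
  have hrel : ∀ l j, w 1 * T (l, j, 0) + w 2 * T (l, j, 1) = 0 := fun l j => by
    have := congrFun (congrFun hN l) j
    simpa [sl, h0] using this
  have hv : (![w 1, w 2] : Fin 2 → ℝ) ≠ 0 := by
    intro h
    apply hw
    funext j
    fin_cases j
    · exact h0
    · exact congrFun h 0
    · exact congrFun h 1
  have hz : ∀ m, sl T m = 0 := by
    intro m
    refine hA.ker (ha m) (Matrix.exists_mulVec_eq_zero_iff.1 ⟨_, hv, ?_⟩)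
    funext l
    have p0 := hrel l 0
    have p1 := hrel l 1
    have p2 := hc l
    simp only [mulVec, dotProduct, Fin.sum_univ_two, sl, Matrix.of_apply, Matrix.cons_val_zero,
      Matrix.cons_val_one, Pi.zero_apply]
    fin_cases m
    · change T (l, 0, 0) * w 1 + T (l, 1, 0) * w 2 = 0
      linear_combination p0 - w 2 * p2
    · change T (l, 0, 1) * w 1 + T (l, 1, 1) * w 2 = 0
      linear_combination p1 + w 1 * p2
  apply hT
  funext q
  obtain ⟨l, j, m⟩ := q
  exact congrFun (congrFun (hz m) l) j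

end Pool.Agent.Lib.MP_4bee3f_an.G
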