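import Pool.Agent.Lib.MP_4bee3f_an.G.Mol

/-! A Lipschitz function is controlled by its derivative almost everywhere. -/

namespace Pool.Agent.Lib.MP_4bee3f_an.G

open Filter Topology MeasureTheory Metric Pool.Agent.Lib.MP_4bee3f_an.K

variable {n : ℕ} {f : E n → ℝ}

theorem lip_avg {L : NNReal} {g : E n → ℝ} (hg : LipschitzWith L g) {x v : E n} {ε η : ℝ}
    (hε : 0 < ε) (h : ∀ s ∈ Set.Icc (0 : ℝ) 1, ∀ᵐ t, t ∈ ball (0 : E n) ε →
      ‖fderiv ℝ g (x + s • v + t)‖ ≤ η) :
    |g (x + v) - g x| ≤ η * ‖v‖ + 2 * (L * ε) := by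
  set μ : Measure (E n) := volume.restrict (ball 0 ε) with hμ
  have : IsFiniteMeasure μ := isFiniteMeasure_restrict.2 measure_ball_lt_top.ne
  have hc : 0 < μ.real Set.univ := by
    rw [hμ, measureReal_restrict_apply_univ]
    exact ENNReal.toReal_pos (measure_ball_pos _ _ hε).ne' measure_ball_lt_top.ne
  have hcont : ∀ z : E n, Continuous fun t : E n => g (z + t) := fun z =>
    hg.continuous.comp (continuous_const.add continuous_id)
  have hmem : ∀ᵐ t ∂μ, t ∈ ball (0 : E n) ε := ae_restrict_mem measurableSet_ball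
  have hint : ∀ z : E n, Integrable (fun t => g (z + t)) μ := fun z =>
    ((hcont z).continuousOn.integrableOn_compact (isCompact_closedBall 0 ε)).mono_set
      ball_subset_closedBall
  have hcl : ∀ z : E n, |(∫ t, g (z + t) ∂μ) - μ.real Set.univ * g z| ≤
      L * ε * μ.real Set.univ := by
    intro z
    have e : (∫ t, g (z + t) ∂μ) - μ.real Set.univ * g z = ∫ t, (g (z + t) - g z) ∂μ := by
      rw [integral_sub (hint z) (integrable_const _), integral_const, smul_eq_mul]
    rw [e, ← Real.norm_eq_abs]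
    refine norm_integral_le_of_norm_le_const ?_
    filter_upwards [hmem] with t ht
    have h1 := hg.dist_le_mul (z + t) z
    rw [dist_eq_norm, dist_eq_norm, add_sub_cancel_left] at h1
    exact h1.trans (mul_le_mul_of_nonneg_left (mem_ball_zero_iff.1 ht).le L.2)
  have hd : ∀ s : ℝ, HasDerivAt (fun s : ℝ => ∫ t, g (x + s • v + t) ∂μ)
      (∫ t, fderiv ℝ g (x + s • v + t) v ∂μ) s := by
    intro s
    refine (hasDerivAt_integral_of_dominated_loc_of_lip (s := Set.univ)
      (F := fun (s : ℝ) t => g (x + s • v + t)) (bound := fun _ => L * ‖v‖) univ_mem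
      (Eventually.of_forall fun s => (hcont _).aestronglyMeasurable) (hint _) ?_ ?_
      (integrable_const _) ?_).2
    · exact ((measurable_fderiv_apply_const ℝ g v).comp
        (measurable_const.add measurable_id)).aestronglyMeasurable
    · refine Eventually.of_forall fun t => LipschitzOnWith.of_dist_le_mul fun a _ b _ => ?_
      refine (hg.dist_le_mul _ _).trans (le_of_eq ?_)
      have e : x + a • v + t - (x + b • v + t) = (a - b) • v := by
        rw [sub_smul]; abel
      rw [dist_eq_norm, e, norm_smul, Real.coe_nnabs, abs_of_nonneg (by positivity),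
        dist_eq_norm]
      ring
    · refine ae_restrict_of_ae ?_
      have h2 : ∀ᵐ t : E n, DifferentiableAt ℝ g (x + s • v + t) :=
        (measurePreserving_add_left volume (x + s • v)).quasiMeasurePreserving.ae
          hg.ae_differentiableAt
      filter_upwards [h2] with t ht
      have h3 : HasDerivAt (fun s : ℝ => x + s • v + t) v s := by
        simpa using (((hasDerivAt_id s).smul_const v).const_add x).add_const t
      exact ht.hasFDerivAt.comp_hasDerivAt s h3
  have hb : ∀ s ∈ Set.Ico (0 : ℝ) 1,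
      ‖∫ t, fderiv ℝ g (x + s • v + t) v ∂μ‖ ≤ η * ‖v‖ * μ.real Set.univ := by
    intro s hs
    refine norm_integral_le_of_norm_le_const ?_
    filter_upwards [hmem, ae_restrict_of_ae (h s (Set.Ico_subset_Icc_self hs))] with t ht h1
    exact (ContinuousLinearMap.le_opNorm _ _).trans
      (mul_le_mul_of_nonneg_right (h1 ht) (norm_nonneg _))
  have hm := norm_image_sub_le_of_norm_deriv_le_segment_01'
    (fun s _ => (hd s).hasDerivWithinAt) hb
  simp only [one_smul, zero_smul, add_zero, Real.norm_eq_abs] at hm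
  have h1 := abs_le.1 (hcl (x + v))
  have h2 := abs_le.1 (hcl x)
  have h3 := abs_le.1 hm
  refine le_of_mul_le_mul_right ?_ hc
  rw [← abs_of_pos hc, ← abs_mul, abs_of_pos hc, abs_le]
  constructor <;> nlinarith [h1.1, h1.2, h2.1, h2.2, h3.1, h3.2]

/-- Mollify (`Ker.pd_cv`, `fderiv_eq_sum`), use the mean value inequality on a smaller ball, let
`ε` tend to zero (`Ker.cv_close`). -/
theorem lip_of_ae {L : NNReal} (hf : LipschitzWith L f) {G : E n →L[ℝ] ℝ} {x0 : E n} {r η : ℝ}
    (h : ∀ᵐ x, x ∈ ball x0 r → ‖fderiv ℝ f x - G‖ ≤ η) {x y : E n} (hx : x ∈ ball x0 r)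
    (hy : y ∈ ball x0 r) : |f y - f x - G (y - x)| ≤ η * ‖y - x‖ := by
  have hg : LipschitzWith (L + ‖G‖₊) fun z => f z - G z := hf.sub G.lipschitz
  obtain ⟨δ, hδ, hδx, hδy⟩ : ∃ δ, 0 < δ ∧ dist x x0 + δ ≤ r ∧ dist y x0 + δ ≤ r := by
    refine ⟨min (r - dist x x0) (r - dist y x0), lt_min (sub_pos.2 hx) (sub_pos.2 hy), ?_, ?_⟩
    · linarith [min_le_left (r - dist x x0) (r - dist y x0)]
    · linarith [min_le_right (r - dist x x0) (r - dist y x0)]
  have key : ∀ ε, 0 < ε → ε ≤ δ → |f y - f x - G (y - x)| ≤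
      η * ‖y - x‖ + 2 * (((L + ‖G‖₊ : NNReal) : ℝ) * ε) := by
    intro ε hε hεδ
    have h1 := lip_avg hg (x := x) (v := y - x) (η := η) hε ?_
    · rw [add_sub_cancel] at h1
      have e : f y - f x - G (y - x) = f y - G y - (f x - G x) := by
        rw [map_sub]; ring
      rw [e]; exact h1
    intro s hs
    have h2 := (measurePreserving_add_left volume (x + s • (y - x))).quasiMeasurePreserving.ae
      (h.and hf.ae_differentiableAt)
    filter_upwards [h2] with t ht hts
    have hz : x + s • (y - x) ∈ closedBall x0 (r - δ) :=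
      (convex_closedBall x0 (r - δ)).add_smul_sub_mem (mem_closedBall.2 (by linarith))
        (mem_closedBall.2 (by linarith)) hs
    have hin : x + s • (y - x) + t ∈ ball x0 r := by
      have h3 := dist_triangle (x + s • (y - x) + t) (x + s • (y - x)) x0
      have h4 : dist (x + s • (y - x) + t) (x + s • (y - x)) < ε := by
        rw [dist_eq_norm, add_sub_cancel_left]; exact mem_ball_zero_iff.1 hts
      have h5 := mem_closedBall.1 hz
      exact mem_ball.2 (by linarith)
    rw [(ht.2.hasFDerivAt.fun_sub G.hasFDerivAt).fderiv]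
    exact ht.1 hin
  refine le_of_forall_pos_le_add fun e he => ?_
  set K : ℝ := ((L + ‖G‖₊ : NNReal) : ℝ) with hK
  have hK0 : 0 ≤ K := NNReal.coe_nonneg _
  have h1 := key (min δ (e / (2 * (K + 1)))) (lt_min hδ (by positivity)) (min_le_left _ _)
  have h2 : min δ (e / (2 * (K + 1))) * (2 * (K + 1)) ≤ e :=
    (le_div_iff₀ (by positivity)).1 (min_le_right _ _)
  have h3 : 0 < min δ (e / (2 * (K + 1))) := lt_min hδ (by positivity)
  nlinarith

/-- Extend `f` from a small ball (`LipschitzOnWith.extend_real`) and use `lip_of_ae`. -/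
theorem hasFDerivAt_of_ae {x0 : E n} {G : E n →L[ℝ] ℝ}
    (hf : ∃ C : NNReal, ∃ W ∈ 𝓝 x0, LipschitzOnWith C f W)
    (h : ∀ η, 0 < η → ∃ r, 0 < r ∧ ∀ᵐ x, x ∈ ball x0 r → ‖fderiv ℝ f x - G‖ ≤ η) :
    HasFDerivAt f G x0 := by
  obtain ⟨C, W, hW, hl⟩ := hf
  obtain ⟨ρ, hρ, hρW⟩ := Metric.mem_nhds_iff.1 hW
  obtain ⟨g, hg, hfg⟩ := hl.extend_real
  have hev : ∀ x ∈ ball x0 ρ, f =ᶠ[𝓝 x] g := fun x hx => by
    filter_upwards [isOpen_ball.mem_nhds hx] with z hz using hfg (hρW hz)
  rw [hasFDerivAt_iff_isLittleO, Asymptotics.isLittleO_iff]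
  intro η hη
  obtain ⟨r, hr, h1⟩ := h η hη
  have h2 : ∀ᵐ x, x ∈ ball x0 (min r ρ) → ‖fderiv ℝ g x - G‖ ≤ η := by
    filter_upwards [h1] with x h3 hx
    rw [← (hev x (ball_subset_ball (min_le_right _ _) hx)).fderiv_eq]
    exact h3 (ball_subset_ball (min_le_left _ _) hx)
  filter_upwards [ball_mem_nhds x0 (lt_min hr hρ)] with y hy
  have h4 := lip_of_ae hg h2 (mem_ball_self (lt_min hr hρ)) hy
  rw [hfg (hρW (ball_subset_ball (min_le_right _ _) hy)), hfg (hρW (mem_ball_self hρ))]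
  exact h4

/-- Rademacher on an open set (countably many balls, or `ae` localisation). -/
theorem ae_diff {U : Set (E n)} (hU : IsOpen U)
    (hf : ∀ x ∈ U, ∃ C : NNReal, ∃ W ∈ 𝓝 x, LipschitzOnWith C f W) :
    ∀ᵐ x, x ∈ U → DifferentiableAt ℝ f x := by
  choose! C W hW hl using hf
  obtain ⟨T, hTU, hT, hcov⟩ := TopologicalSpace.countable_cover_nhdsWithin (s := U)
    (f := fun x => interior (W x))
    (fun x hx => mem_nhdsWithin_of_mem_nhds (interior_mem_nhds.2 (hW x hx)))
  have h1 : ∀ᵐ x, ∀ z ∈ T, x ∈ W z → DifferentiableWithinAt ℝ f (W z) x :=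
    (ae_ball_iff hT).2 fun z hz => (hl z (hTU hz)).ae_differentiableWithinAt_of_mem
  filter_upwards [h1] with x hx hxU
  obtain ⟨z, hz, hxz⟩ := Set.mem_iUnion₂.1 (hcov hxU)
  exact (hx z hz (interior_subset hxz)).differentiableAt (mem_interior_iff_mem_nhds.1 hxz)

theorem c1_of_ae {U : Set (E n)} (hU : IsOpen U)
    (hf : ∀ x ∈ U, ∃ C : NNReal, ∃ W ∈ 𝓝 x, LipschitzOnWith C f W) {Φ : Fin n → E n → ℝ}
    (hΦ : ∀ m, ContinuousOn (Φ m) U) (h : ∀ᵐ x, x ∈ U → ∀ m, pd f m x = Φ m x) :
    DifferentiableOn ℝ f U ∧ ∀ m, ∀ x ∈ U, pd f m x = Φ m x := by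
  let G : E n → E n →L[ℝ] ℝ := fun x => ∑ j, Φ j x • (EuclideanSpace.proj j : E n →L[ℝ] ℝ)
  have hG : ContinuousOn G U := continuousOn_finsetSum _ fun j _ => (hΦ j).smul continuousOn_const
  have hd : ∀ x ∈ U, HasFDerivAt f (G x) x := by
    intro x0 hx0
    refine hasFDerivAt_of_ae (hf x0 hx0) fun η hη => ?_
    have h1 : ∀ᶠ x in 𝓝 x0, x ∈ U ∧ dist (G x) (G x0) < η :=
      (show ∀ᶠ x in 𝓝 x0, x ∈ U from hU.mem_nhds hx0).and
        (Metric.tendsto_nhds.1 (hG.continuousAt (hU.mem_nhds hx0)) η hη)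
    obtain ⟨r, hr, h2⟩ := Metric.eventually_nhds_iff_ball.1 h1
    refine ⟨r, hr, ?_⟩
    filter_upwards [h] with x h3 hx
    have e : fderiv ℝ f x = G x := by
      rw [fderiv_eq_sum']
      exact Finset.sum_congr rfl fun j _ => by rw [h3 (h2 x hx).1 j]
    rw [e, ← dist_eq_norm]
    exact (h2 x hx).2.le
  refine ⟨fun x hx => (hd x hx).differentiableAt.differentiableWithinAt, fun m x hx => ?_⟩
  rw [pd, (hd x hx).fderiv]
  simp [G]

end Pool.Agent.Lib.MP_4bee3f_an.G
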