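import Pool.Agent.Lib.MP_4bee3f_an.G.Sca
import Pool.Agent.Lib.MP_4bee3f_an.G.Alg
import Pool.Agent.Lib.MP_4bee3f_an.G.Lip

/-! The formula for second derivatives and the bootstrap. -/

namespace Pool.Agent.Lib.MP_4bee3f_an.G

open Filter Topology MeasureTheory Matrix Pool.Agent.Lib.MP_4bee3f_an.K

variable {A : E 2 → Fin 2 → Mat 2} {F : E 2 → Fin 2 → ℝ} {J : E 2 → ℝ} {u : Fin 2 → E 2 → ℝ}
  {U : Set (E 2)}

/-- The right side of the prolonged system. -/
noncomputable def rhs (A : E 2 → Fin 2 → Mat 2) (F : E 2 → Fin 2 → ℝ) (J : E 2 → ℝ)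
    (u : Fin 2 → E 2 → ℝ) (x : E 2) (p : I3) : ℝ :=
  if p.1 = 0 then pd (fun y => F y p.2.1) p.2.2 x -
    ∑ j, ∑ l, pd (fun y => A y j p.2.1 l) p.2.2 x * pd (u l) j x
  else if p.2.1 = 0 then pd J p.2.2 x else 0

theorem pd_mul2 {n : ℕ} {f g : E n → ℝ} {x : E n} (hf : DifferentiableAt ℝ f x)
    (hg : DifferentiableAt ℝ g x) (m : Fin n) :
    pd (fun y => f y * g y) m x = pd f m x * g x + f x * pd g m x := by
  unfold pd
  rw [fderiv_fun_mul hf hg]
  simp only [_root_.add_apply, _root_.smul_apply, smul_eq_mul]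
  ring

theorem pd_sum2 {n : ℕ} {ι : Type*} (s : Finset ι) {f : ι → E n → ℝ} {x : E n}
    (hf : ∀ i ∈ s, DifferentiableAt ℝ (f i) x) (m : Fin n) :
    pd (fun y => ∑ i ∈ s, f i y) m x = ∑ i ∈ s, pd (f i) m x := by
  unfold pd
  rw [fderiv_fun_sum hf]
  simp only [_root_.sum_apply]

theorem pd_sub2 {n : ℕ} {f g : E n → ℝ} {x : E n} (hf : DifferentiableAt ℝ f x)
    (hg : DifferentiableAt ℝ g x) (m : Fin n) :
    pd (fun y => f y - g y) m x = pd f m x - pd g m x := by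
  unfold pd
  rw [fderiv_fun_sub hf hg]
  simp only [_root_.sub_apply]

theorem pd_ev {n : ℕ} {f g : E n → ℝ} {x : E n} (h : ∀ᶠ y in 𝓝 x, f y = g y) (m : Fin n) :
    pd f m x = pd g m x := by
  unfold pd
  rw [Filter.EventuallyEq.fderiv_eq h]

theorem pd_symm {n : ℕ} {f : E n → ℝ} {x : E n} (df : ∀ᶠ y in 𝓝 x, DifferentiableAt ℝ f y)
    (dX : ∀ j, DifferentiableAt ℝ (pd f j) x) (j m : Fin n) :
    pd (pd f j) m x = pd (pd f m) j x := by
  have e : fderiv ℝ f = fun y => ∑ j, pd f j y • (EuclideanSpace.proj j : E n →L[ℝ] ℝ) :=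
    funext fun y => fderiv_eq_sum' f y
  have d2 : DifferentiableAt ℝ (fderiv ℝ f) x := by
    rw [e]
    exact DifferentiableAt.fun_sum fun j _ => (dX j).smul_const _
  have key : ∀ a b : Fin n, pd (pd f a) b x =
      fderiv ℝ (fderiv ℝ f) x (EuclideanSpace.single b 1) (EuclideanSpace.single a 1) := by
    intro a b
    have h1 : HasFDerivAt (fun y => fderiv ℝ f y (EuclideanSpace.single a (1 : ℝ)))
        ((ContinuousLinearMap.apply ℝ ℝ (EuclideanSpace.single a (1 : ℝ))).comp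
          (fderiv ℝ (fderiv ℝ f) x)) x :=
      (ContinuousLinearMap.apply ℝ ℝ (EuclideanSpace.single a (1 : ℝ))).hasFDerivAt.comp x
        d2.hasFDerivAt
    have h2 : pd f a = fun y => fderiv ℝ f y (EuclideanSpace.single a (1 : ℝ)) := rfl
    have h3 : pd (pd f a) b x = fderiv ℝ (pd f a) x (EuclideanSpace.single b 1) := rfl
    rw [h3, h2, h1.fderiv]
    rfl
  rw [key, key]
  exact second_derivative_symmetric_of_eventually (df.mono fun y hy => hy.hasFDerivAt)
    d2.hasFDerivAt _ _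

/-- Differentiate the two identities; `second_derivative_symmetric_of_eventually`. -/
theorem ident {x : E 2} (dA : ∀ j i l, DifferentiableAt ℝ (fun y => A y j i l) x)
    (du : ∀ l, ∀ᶠ y in 𝓝 x, DifferentiableAt ℝ (u l) y)
    (dX : ∀ l j, DifferentiableAt ℝ (pd (u l) j) x)
    (e1 : ∀ᶠ y in 𝓝 x, ∀ i, app (A y) (Dm u y) i = F y i)
    (e2 : ∀ᶠ y in 𝓝 x, (Dm u y).det = J y) :
    (Lm (A x) (Dm u x) *ᵥ fun q : I3 => pd (pd (u q.1) q.2.1) q.2.2 x) = rhs A F J u x := by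
  funext p
  obtain ⟨a, b, m⟩ := p
  have ha : a = 0 ∨ a = 1 := by omega
  have hb : b = 0 ∨ b = 1 := by omega
  rcases ha with rfl | rfl
  · rw [Lm_a]
    have e3 : ∀ᶠ y in 𝓝 x, F y b = ∑ j, ∑ l, A y j b l * pd (u l) j y :=
      e1.mono fun y hy => (hy b).symm
    have e4 : pd (fun y => F y b) m x =
        ∑ j, ∑ l, (pd (fun y => A y j b l) m x * pd (u l) j x +
          A x j b l * pd (pd (u l) j) m x) := by
      rw [pd_ev e3, pd_sum2 _ fun j _ =>
        DifferentiableAt.fun_sum fun l _ => (dA j b l).fun_mul (dX l j)]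
      refine Finset.sum_congr rfl fun j _ => ?_
      rw [pd_sum2 _ fun l _ => (dA j b l).fun_mul (dX l j)]
      exact Finset.sum_congr rfl fun l _ => pd_mul2 (dA j b l) (dX l j) m
    simp only [rhs, if_true, e4, app, sl, Matrix.of_apply, Finset.sum_add_distrib]
    ring
  · rcases hb with rfl | rfl
    · rw [Lm_b]
      have e3 : ∀ᶠ y in 𝓝 x, J y = pd (u 0) 0 y * pd (u 1) 1 y - pd (u 0) 1 y * pd (u 1) 0 y :=
        e2.mono fun y hy => by rw [← hy, Matrix.det_fin_two]; rfl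
      have e4 : pd J m x = pd (pd (u 0) 0) m x * pd (u 1) 1 x + pd (u 0) 0 x * pd (pd (u 1) 1) m x -
          (pd (pd (u 0) 1) m x * pd (u 1) 0 x + pd (u 0) 1 x * pd (pd (u 1) 0) m x) := by
        rw [pd_ev e3, pd_sub2 ((dX 0 0).fun_mul (dX 1 1)) ((dX 0 1).fun_mul (dX 1 0)),
          pd_mul2 (dX 0 0) (dX 1 1), pd_mul2 (dX 0 1) (dX 1 0)]
      have e5 : rhs A F J u x (1, 0, m) = pd J m x := by simp [rhs]
      rw [e5, e4, Matrix.adjugate_fin_two, Matrix.trace_fin_two]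
      simp [Matrix.mul_apply, Fin.sum_univ_two, sl, Dm]
      ring
    · rw [Lm_c]
      have e5 : rhs A F J u x (1, 1, m) = 0 := by simp [rhs]
      rw [e5, sub_eq_zero]
      exact pd_symm (du m) (dX m) 0 1

theorem phi_cl {S : (E 2 → ℝ) → Prop} (h : Cl S U) (hA : ∀ j i l, S fun y => A y j i l)
    (hX : ∀ l j, S (pd (u l) j)) (hA' : ∀ j i l m, S (pd (fun y => A y j i l) m))
    (hF : ∀ i m, S (pd (fun y => F y i) m)) (hJ : ∀ m, S (pd J m))
    (hd : ∀ x ∈ U, (Lm (A x) (Dm u x)).det ≠ 0) (q : I3) :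
    S fun x => ((Lm (A x) (Dm u x))⁻¹ *ᵥ rhs A F J u x) q := by
  have hL : ∀ p r : I3, S fun x => Lm (A x) (Dm u x) p r := by
    intro p r
    simp only [Lm, Matrix.of_apply]
    split_ifs
    · exact hA _ _ _
    · exact h.const _
    · exact h.adj (M := fun x => Dm u x) (fun l j => hX l j) _ _
    all_goals exact h.const _
  have hR : ∀ p : I3, S fun x => rhs A F J u x p := by
    intro p
    simp only [rhs]
    split_ifs
    · exact h.sub (hF _ _) (h.sum _ fun j _ => h.sum _ fun l _ => h.mul (hA' _ _ _ _) (hX _ _))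
    · exact hJ _
    · exact h.const _
  refine h.congr (h.sum Finset.univ (F := fun (p : I3) x =>
    (Lm (A x) (Dm u x))⁻¹ q p * rhs A F J u x p) fun p _ =>
      h.mul (h.minv (M := fun x => Lm (A x) (Dm u x)) hL hd q p) (hR p)) fun x _ => ?_
  rfl

/-- The formula for the second derivatives at a point where the first ones are differentiable. -/
theorem solve_pt (hU : IsOpen U) (dA : ∀ j i l, DifferentiableOn ℝ (fun y => A y j i l) U)
    (du : ∀ l, DifferentiableOn ℝ (u l) U) (e1 : ∀ x ∈ U, ∀ i, app (A x) (Dm u x) i = F x i)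
    (e2 : ∀ x ∈ U, (Dm u x).det = J x) (hd : ∀ x ∈ U, (Lm (A x) (Dm u x)).det ≠ 0) {x : E 2}
    (hx : x ∈ U) (dX : ∀ l j, DifferentiableAt ℝ (pd (u l) j) x) (l j m : Fin 2) :
    pd (pd (u l) j) m x = ((Lm (A x) (Dm u x))⁻¹ *ᵥ rhs A F J u x) (l, j, m) := by
  have hn := hU.mem_nhds hx
  have h := ident (A := A) (F := F) (J := J) (u := u) (x := x)
    (fun j i l => (dA j i l).differentiableAt hn)
    (fun l => eventually_of_mem hn fun y hy => (du l).differentiableAt (hU.mem_nhds hy)) dX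
    (eventually_of_mem hn e1) (eventually_of_mem hn e2)
  rw [← h, Matrix.mulVec_mulVec, Matrix.nonsing_inv_mul _ (Ne.isUnit (hd x hx)),
    Matrix.one_mulVec]

theorem contOn_of_lip {f : E 2 → ℝ}
    (hf : ∀ x ∈ U, ∃ C : NNReal, ∃ W ∈ 𝓝 x, LipschitzOnWith C f W) : ContinuousOn f U := by
  intro x hx
  obtain ⟨C, W, hW, h⟩ := hf x hx
  exact (h.continuousOn.continuousAt hW).continuousWithinAt

/-- `ident` at almost every point (`ae_diff`), `phi_cl` with `cl_cont`, `c1_of_ae`. -/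
theorem boot1 (hU : IsOpen U) (hA : ∀ j i l, Sm false 0 (fun y => A y j i l) U)
    (hF : ∀ i, Sm false 0 (fun y => F y i) U) (hJ : Sm false 0 J U)
    (hu : ∀ l, Sm true 1 (u l) U) (e1 : ∀ x ∈ U, ∀ i, app (A x) (Dm u x) i = F x i)
    (e2 : ∀ x ∈ U, (Dm u x).det = J x) (hd : ∀ x ∈ U, (Lm (A x) (Dm u x)).det ≠ 0) (l : Fin 2) :
    Sm false 1 (u l) U := by
  have hu1 := fun l => (Sm.succ_iff (lip := true) (k := 0) hU).1 (hu l)
  have hl := fun l j => sm_true_zero.1 ((hu1 l).2 j)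
  have hA1 := fun j i l => (sm_false_zero hU).1 (hA j i l)
  have hF1 := fun i => (sm_false_zero hU).1 (hF i)
  have hJ1 := (sm_false_zero hU).1 hJ
  have hc := phi_cl (A := A) (F := F) (J := J) (u := u) (cl_cont U)
    (fun j i l => (hA1 j i l).1.continuousOn) (fun l j => contOn_of_lip (hl l j))
    (fun j i l m => (hA1 j i l).2 m) (fun i m => (hF1 i).2 m) hJ1.2 hd
  have hae : ∀ᵐ x, ∀ l j, x ∈ U → DifferentiableAt ℝ (pd (u l) j) x :=
    ae_all_iff.2 fun l => ae_all_iff.2 fun j => ae_diff hU (hl l j)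
  refine (Sm.succ_iff (lip := false) (k := 0) hU).2 ⟨(hu1 l).1, fun j => ?_⟩
  have h := c1_of_ae hU (hl l j)
    (Φ := fun m x => ((Lm (A x) (Dm u x))⁻¹ *ᵥ rhs A F J u x) (l, j, m))
    (fun m => hc (l, j, m)) (by
      filter_upwards [hae] with x hx hxU m
      exact solve_pt hU (fun j i l => (hA1 j i l).1) (fun l => (hu1 l).1) e1 e2 hd hxU
        (fun l j => hx l j hxU) l j m)
  exact (sm_false_zero hU).2 ⟨h.1, fun m => (hc (l, j, m)).congr (h.2 m)⟩

theorem sm_rhs (hU : IsOpen U) {B : E 2 → Mat 2} {c : E 2 → Fin 2 → ℝ} {lip : Bool} {k : ℕ}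
    (hB : ∀ i l, Sm lip k (fun y => B y i l) U) (hc : ∀ i, Sm lip k (fun y => c y i) U)
    (hu : ∀ l, Sm lip k (u l) U) (i : Fin 2) :
    Sm lip k (fun y => c y i - ∑ l, B y i l * u l y) U :=
  (cl_sm hU lip k).sub (hc i) ((cl_sm hU lip k).sum Finset.univ
    (F := fun l y => B y i l * u l y) fun l _ => (cl_sm hU lip k).mul (hB i l) (hu l))

/-- Induction on `k` with `F = c - B u`. -/
theorem boot (hU : IsOpen U) {B : E 2 → Mat 2} {c : E 2 → Fin 2 → ℝ} (lip : Bool) (k : ℕ)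
    (hA : ∀ j i l, Sm lip k (fun y => A y j i l) U) (hB : ∀ i l, Sm lip k (fun y => B y i l) U)
    (hc : ∀ i, Sm lip k (fun y => c y i) U) (hJ : Sm lip k J U) (hu : ∀ l, Sm true 1 (u l) U)
    (e1 : ∀ x ∈ U, ∀ i, app (A x) (Dm u x) i + ∑ l, B x i l * u l x = c x i)
    (e2 : ∀ x ∈ U, (Dm u x).det = J x) (hd : ∀ x ∈ U, (Lm (A x) (Dm u x)).det ≠ 0) (l : Fin 2) :
    Sm lip (k + 1) (u l) U := by
  have e1' : ∀ x ∈ U, ∀ i, app (A x) (Dm u x) i
      = (fun y i => c y i - ∑ l, B y i l * u l y) x i := fun x hx i => eq_sub_of_add_eq (e1 x hx i)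
  have hu0 : ∀ l, Sm false 0 (u l) U := fun l => Sm.c1 (lip := true) (k := 0) (hu l)
  induction k generalizing l with
  | zero =>
    cases lip with
    | true => exact hu l
    | false => exact boot1 hU hA (sm_rhs hU hB hc hu0) hJ hu e1' e2 hd l
  | succ k ih =>
    have hk : ∀ l, Sm lip (k + 1) (u l) U := fun l =>
      ih (fun j i l => (hA j i l).of_succ hU) (fun i l => (hB i l).of_succ hU)
        (fun i => (hc i).of_succ hU) (hJ.of_succ hU) l
    have hF := sm_rhs hU hB hc hk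
    have h2 : ∀ l, Sm false 1 (u l) U := fun l =>
      boot1 hU (fun j i l => (hA j i l).c1) (fun i => (hF i).c1) hJ.c1 hu e1' e2 hd l
    have h3 := fun l j => ((sm_false_zero hU).1
      (((Sm.succ_iff (lip := false) (k := 0) hU).1 (h2 l)).2 j)).1
    have hk1 := fun l => (Sm.succ_iff hU).1 (hk l)
    have hA1 := fun j i l => (Sm.succ_iff hU).1 (hA j i l)
    have hp := phi_cl (A := A) (F := fun y i => c y i - ∑ l, B y i l * u l y) (J := J) (u := u)
      (cl_sm hU lip k) (fun j i l => (hA j i l).of_succ hU) (fun l j => (hk1 l).2 j)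
      (fun j i l m => (hA1 j i l).2 m) (fun i m => ((Sm.succ_iff hU).1 (hF i)).2 m)
      ((Sm.succ_iff hU).1 hJ).2 hd
    refine (Sm.succ_iff hU).2 ⟨(hk1 l).1, fun j => (Sm.succ_iff hU).2 ⟨h3 l j, fun m => ?_⟩⟩
    refine (hp (l, j, m)).congr hU fun x hx => ?_
    exact solve_pt hU (fun j i l => (hA1 j i l).1) (fun l => (hk1 l).1) e1' e2 hd hx
      (fun l j => (h3 l j).differentiableAt (hU.mem_nhds hx)) l j m

end Pool.Agent.Lib.MP_4bee3f_an.G
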