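import Pool.Agent.Lib.MP_4bee3f_an.G.Sca

/-! Bounded second differences give the class `C^{1,1}`. -/

namespace Pool.Agent.Lib.MP_4bee3f_an.G

open Filter Topology Metric Pool.Agent.Lib.MP_4bee3f_an.K

variable {n : ℕ} {u : E n → ℝ} {L : NNReal} {ρ C : ℝ}

theorem c11_lipd (hC : 0 ≤ C)
    (h : ∀ x a b : E n, ‖x‖ + ‖a‖ + ‖b‖ < ρ →
      |u (x + a + b) - u (x + a) - u (x + b) + u x| ≤ C * ‖a‖ * ‖b‖)
    {y z : E n} (hy : DifferentiableAt ℝ u y) (hz : DifferentiableAt ℝ u z)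
    (hyz : ‖y‖ + ‖z - y‖ < ρ) : ‖fderiv ℝ u z - fderiv ℝ u y‖ ≤ C * ‖z - y‖ := by
  have d1 : HasFDerivAt (fun b => u (z + b)) (fderiv ℝ u z) 0 := by
    have h1 : HasFDerivAt u (fderiv ℝ u z) (z + 0) := by simpa using hz.hasFDerivAt
    exact (hasFDerivAt_comp_add_left z).2 h1
  have d2 : HasFDerivAt (fun b => u (y + b)) (fderiv ℝ u y) 0 := by
    have h1 : HasFDerivAt u (fderiv ℝ u y) (y + 0) := by simpa using hy.hasFDerivAt
    exact (hasFDerivAt_comp_add_left y).2 h1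
  refine (d1.fun_sub d2).le_of_lip' (by positivity) ?_
  have ho : ∀ᶠ b : E n in 𝓝 0, ‖y‖ + ‖z - y‖ + ‖b‖ < ρ := by
    have hc : Continuous fun b : E n => ‖y‖ + ‖z - y‖ + ‖b‖ := by fun_prop
    exact (isOpen_lt hc continuous_const).mem_nhds (by simpa using hyz)
  filter_upwards [ho] with b hb
  have := h y (z - y) b hb
  rw [add_sub_cancel] at this
  rw [add_zero, add_zero, sub_zero, Real.norm_eq_abs]
  have e : u (z + b) - u (y + b) - (u z - u y) = u (z + b) - u z - u (y + b) + u y := by ring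
  rw [e]
  exact this

theorem c11_dyad (hC : 0 ≤ C)
    (h : ∀ x a b : E n, ‖x‖ + ‖a‖ + ‖b‖ < ρ →
      |u (x + a + b) - u (x + a) - u (x + b) + u x| ≤ C * ‖a‖ * ‖b‖)
    {y a : E n} (hya : ‖y‖ + ‖a‖ < ρ) (i : ℕ) :
    |u (y + a) - u y - (2 : ℝ) ^ i * (u (y + ((2 : ℝ) ^ i)⁻¹ • a) - u y)| ≤
      C * ‖a‖ ^ 2 * (1 - ((2 : ℝ) ^ i)⁻¹) := by
  induction i with
  | zero => simp
  | succ i ih =>
    have hp : (0 : ℝ) < 2 ^ i := by positivity
    have h1 : (1 : ℝ) ≤ 2 ^ i := one_le_pow₀ (by norm_num)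
    set t : ℝ := (2 : ℝ) ^ i with ht
    have e2 : (2 : ℝ) ^ (i + 1) = 2 * t := by rw [pow_succ]; ring
    rw [e2]
    have hn : ‖(2 * t)⁻¹ • a‖ = (2 * t)⁻¹ * ‖a‖ := by
      rw [norm_smul, Real.norm_of_nonneg (by positivity)]
    have hle : (2 * t)⁻¹ * ‖a‖ + (2 * t)⁻¹ * ‖a‖ ≤ ‖a‖ := by
      have : (2 * t)⁻¹ + (2 * t)⁻¹ ≤ 1 := by
        have : (2 * t)⁻¹ + (2 * t)⁻¹ = t⁻¹ := by field_simp; ring
        rw [this]; exact inv_le_one_of_one_le₀ h1
      nlinarith [norm_nonneg a]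
    have k := h y ((2 * t)⁻¹ • a) ((2 * t)⁻¹ • a) (by rw [hn]; linarith)
    have e3 : y + (2 * t)⁻¹ • a + (2 * t)⁻¹ • a = y + t⁻¹ • a := by
      rw [add_assoc, ← add_smul]; congr 2; field_simp; ring
    rw [e3, hn] at k
    have e4 : u (y + a) - u y - 2 * t * (u (y + (2 * t)⁻¹ • a) - u y) =
        (u (y + a) - u y - t * (u (y + t⁻¹ • a) - u y)) +
          t * (u (y + t⁻¹ • a) - u (y + (2 * t)⁻¹ • a) - u (y + (2 * t)⁻¹ • a) + u y) := by ring
    rw [e4]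
    refine (abs_add_le _ _).trans ?_
    rw [abs_mul, abs_of_pos hp]
    have k2 := mul_le_mul_of_nonneg_left k hp.le
    have e5 : t * (C * ((2 * t)⁻¹ * ‖a‖) * ((2 * t)⁻¹ * ‖a‖)) = C * ‖a‖ ^ 2 * (t⁻¹ / 4) := by
      field_simp; ring
    have e6 : (2 * t)⁻¹ = t⁻¹ / 2 := by field_simp
    rw [e5] at k2
    have h7 : 0 ≤ C * ‖a‖ ^ 2 * t⁻¹ := by positivity
    have e8 : C * ‖a‖ ^ 2 * (1 - (2 * t)⁻¹) =
        C * ‖a‖ ^ 2 * (1 - t⁻¹) + C * ‖a‖ ^ 2 * (t⁻¹ / 4) + C * ‖a‖ ^ 2 * t⁻¹ / 4 := by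
      rw [e6]; ring
    rw [e8]
    linarith

theorem c11_taylor (hC : 0 ≤ C)
    (h : ∀ x a b : E n, ‖x‖ + ‖a‖ + ‖b‖ < ρ →
      |u (x + a + b) - u (x + a) - u (x + b) + u x| ≤ C * ‖a‖ * ‖b‖)
    {y a : E n} (hy : DifferentiableAt ℝ u y) (hya : ‖y‖ + ‖a‖ < ρ) :
    |u (y + a) - u y - fderiv ℝ u y a| ≤ C * ‖a‖ ^ 2 := by
  have hc : Tendsto (fun i : ℕ => ‖(2 : ℝ) ^ i‖) atTop atTop := by
    have : (fun i : ℕ => ‖(2 : ℝ) ^ i‖) = fun i : ℕ => (2 : ℝ) ^ i := by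
      funext i; exact Real.norm_of_nonneg (by positivity)
    rw [this]
    exact tendsto_pow_atTop_atTop_of_one_lt (by norm_num)
  have l := hy.hasFDerivAt.lim a hc
  have l2 := (l.const_sub (u (y + a) - u y)).abs
  refine le_of_tendsto' l2 fun i => ?_
  refine (c11_dyad hC h hya i).trans ?_
  have : 0 ≤ C * ‖a‖ ^ 2 * ((2 : ℝ) ^ i)⁻¹ := by positivity
  nlinarith

/-- With `q a = u (x + a) - u x`: either take the limit of `2 ^ i * q (a / 2 ^ i)`, or use points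
of differentiability (dense by Rademacher), where `|q a - Du a| ≤ C ‖a‖ ^ 2`, and a limit. -/
theorem diff_of_second (hu : LipschitzWith L u) (hC : 0 ≤ C)
    (h : ∀ x a b : E n, ‖x‖ + ‖a‖ + ‖b‖ < ρ →
      |u (x + a + b) - u (x + a) - u (x + b) + u x| ≤ C * ‖a‖ * ‖b‖)
    {x : E n} (hx : ‖x‖ < ρ) : DifferentiableAt ℝ u x := by
  have hd : Dense {y : E n | DifferentiableAt ℝ u y} :=
    MeasureTheory.Measure.dense_of_ae (μ := MeasureTheory.volume) hu.ae_differentiableAt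
  obtain ⟨y, hy, ly⟩ := mem_closure_iff_seq_limit.1 (hd x)
  have : ProperSpace (E n →L[ℝ] ℝ) := FiniteDimensional.proper_real _
  obtain ⟨T, -, φ, hφ, lT⟩ := tendsto_subseq_of_bounded (x := fun k => fderiv ℝ u (y k))
    (isBounded_closedBall (x := (0 : E n →L[ℝ] ℝ)) (r := L))
    (fun k => mem_closedBall_zero_iff.2 (norm_fderiv_le_of_lipschitz ℝ hu))
  have lz : Tendsto (fun k => y (φ k)) atTop (𝓝 x) := ly.comp hφ.tendsto_atTop
  have key : ∀ a : E n, ‖x‖ + ‖a‖ < ρ → |u (x + a) - u x - T a| ≤ C * ‖a‖ ^ 2 := by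
    intro a ha
    have l1 : Tendsto (fun k => u (y (φ k) + a)) atTop (𝓝 (u (x + a))) :=
      (hu.continuous.tendsto _).comp (lz.add_const a)
    have l2 : Tendsto (fun k => u (y (φ k))) atTop (𝓝 (u x)) := (hu.continuous.tendsto _).comp lz
    have l3 : Tendsto (fun k => fderiv ℝ u (y (φ k)) a) atTop (𝓝 (T a)) :=
      ((ContinuousLinearMap.apply ℝ ℝ a).continuous.tendsto T).comp lT
    refine le_of_tendsto ((l1.sub l2).sub l3).abs ?_
    filter_upwards [(lz.norm.add_const ‖a‖).eventually (gt_mem_nhds ha)] with k hk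
    exact c11_taylor hC h (hy (φ k)) hk
  refine HasFDerivAt.differentiableAt (f' := T) (hasFDerivAt_iff_isLittleO_nhds_zero.2 ?_)
  refine Asymptotics.IsBigO.trans_isLittleO (g := fun a : E n => ‖a‖ ^ 2) ?_
    (Asymptotics.isLittleO_norm_pow_id (by norm_num))
  refine Asymptotics.IsBigO.of_bound C ?_
  have ho : ∀ᶠ a : E n in 𝓝 0, ‖x‖ + ‖a‖ < ρ := by
    have hc : Continuous fun a : E n => ‖x‖ + ‖a‖ := by fun_prop
    exact (isOpen_lt hc continuous_const).mem_nhds (by simpa using hx)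
  filter_upwards [ho] with a ha
  rw [Real.norm_eq_abs, Real.norm_of_nonneg (by positivity)]
  exact key a ha

theorem c11 (hu : LipschitzWith L u) (hC : 0 ≤ C)
    (h : ∀ x a b : E n, ‖x‖ + ‖a‖ + ‖b‖ < ρ →
      |u (x + a + b) - u (x + a) - u (x + b) + u x| ≤ C * ‖a‖ * ‖b‖) :
    Sm true 1 u (ball 0 (ρ / 4)) := by
  have hd : ∀ y ∈ ball (0 : E n) (ρ / 4), DifferentiableAt ℝ u y := by
    intro y hy
    have h1 := mem_ball_zero_iff.1 hy
    exact diff_of_second hu hC h (by linarith [norm_nonneg y])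
  refine (Sm.succ_iff (k := 0) isOpen_ball).2
    ⟨fun y hy => (hd y hy).differentiableWithinAt, fun j => sm_true_zero.2 fun x hx => ?_⟩
  refine ⟨⟨C, hC⟩, ball 0 (ρ / 4), isOpen_ball.mem_nhds hx, ?_⟩
  refine LipschitzOnWith.of_dist_le_mul fun z hz y hy => ?_
  have h1 := mem_ball_zero_iff.1 hy
  have h2 := mem_ball_zero_iff.1 hz
  have h3 := c11_lipd hC h (hd y hy) (hd z hz)
    (by linarith [norm_sub_le z y, norm_nonneg y])
  have h4 := (fderiv ℝ u z - fderiv ℝ u y).le_opNorm (EuclideanSpace.single j (1 : ℝ))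
  simp only [PiLp.norm_single, norm_one, mul_one] at h4
  rw [dist_eq_norm, dist_eq_norm]
  exact h4.trans h3

end Pool.Agent.Lib.MP_4bee3f_an.G
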