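import Pool.Agent.Lib.MP_4bee3f_an.G.Defs

/-! Classes of functions closed under the field operations. -/

namespace Pool.Agent.Lib.MP_4bee3f_an.G

open Filter Topology Pool.Agent.Lib.MP_4bee3f_an.K

variable {n : ℕ} {U : Set (E n)} {S : (E n → ℝ) → Prop} {f g : E n → ℝ}

/-- Closure properties of a class of functions on `U`. -/
structure Cl (S : (E n → ℝ) → Prop) (U : Set (E n)) : Prop where
  const : ∀ a : ℝ, S fun _ => a
  add : ∀ {f g}, S f → S g → S fun x => f x + g x
  mul : ∀ {f g}, S f → S g → S fun x => f x * g x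
  congr : ∀ {f g}, S f → (∀ x ∈ U, g x = f x) → S g
  inv : ∀ {f}, S f → (∀ x ∈ U, f x ≠ 0) → S fun x => (f x)⁻¹

theorem Cl.sub (h : Cl S U) (hf : S f) (hg : S g) : S fun x => f x - g x := by
  refine h.congr (h.add hf (h.mul (h.const (-1)) hg)) fun x _ => ?_
  ring

theorem Cl.sum (h : Cl S U) {ι : Type*} (s : Finset ι) {F : ι → E n → ℝ} (hF : ∀ i ∈ s, S (F i)) :
    S fun x => ∑ i ∈ s, F i x := by
  classical
  induction s using Finset.induction_on with
  | empty => simpa using h.const 0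
  | insert a s ha ih =>
    refine h.congr (h.add (hF a (Finset.mem_insert_self _ _))
      (ih fun i hi => hF i (Finset.mem_insert_of_mem hi))) fun x _ => ?_
    rw [Finset.sum_insert ha]

theorem Cl.prod (h : Cl S U) {ι : Type*} (s : Finset ι) {F : ι → E n → ℝ} (hF : ∀ i ∈ s, S (F i)) :
    S fun x => ∏ i ∈ s, F i x := by
  classical
  induction s using Finset.induction_on with
  | empty => simpa using h.const 1
  | insert a s ha ih =>
    refine h.congr (h.mul (hF a (Finset.mem_insert_self _ _))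
      (ih fun i hi => hF i (Finset.mem_insert_of_mem hi))) fun x _ => ?_
    rw [Finset.prod_insert ha]

theorem Cl.det (h : Cl S U) {ι : Type*} [Fintype ι] [DecidableEq ι] {M : E n → Matrix ι ι ℝ}
    (hM : ∀ p q, S fun x => M x p q) : S fun x => (M x).det := by
  refine h.congr (h.sum Finset.univ (F := fun (σ : Equiv.Perm ι) x =>
    ((Equiv.Perm.sign σ : ℤ) : ℝ) * ∏ i, M x (σ i) i) fun σ _ =>
      h.mul (h.const _) (h.prod Finset.univ fun i _ => hM (σ i) i)) fun x _ => ?_
  rw [Matrix.det_apply']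

theorem Cl.adj (h : Cl S U) {ι : Type*} [Fintype ι] [DecidableEq ι] {M : E n → Matrix ι ι ℝ}
    (hM : ∀ p q, S fun x => M x p q) (p q : ι) : S fun x => (M x).adjugate p q := by
  refine h.congr (h.det (M := fun x => (M x).updateRow q (Pi.single p 1)) fun a b => ?_)
    fun x _ => Matrix.adjugate_apply _ _ _
  by_cases hab : a = q
  · subst hab
    simpa using h.const ((Pi.single p 1 : ι → ℝ) b)
  · simpa [Matrix.updateRow_ne hab] using hM a b

theorem Cl.minv (h : Cl S U) {ι : Type*} [Fintype ι] [DecidableEq ι] {M : E n → Matrix ι ι ℝ}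
    (hM : ∀ p q, S fun x => M x p q) (hd : ∀ x ∈ U, (M x).det ≠ 0) (p q : ι) :
    S fun x => (M x)⁻¹ p q := by
  refine h.congr (h.mul (h.inv (h.det hM) hd) (h.adj hM p q)) fun x _ => ?_
  rw [Matrix.inv_def, Ring.inverse_eq_inv', Matrix.smul_apply, smul_eq_mul]

theorem cl_cont (U : Set (E n)) : Cl (fun f => ContinuousOn f U) U := by
  exact ⟨fun _ => continuousOn_const, fun hf hg => hf.add hg, fun hf hg => hf.mul hg,
    fun hf hg => hf.congr hg, fun hf h0 => hf.inv₀ h0⟩

theorem fderiv_eq_sum (f : E n → ℝ) (x a : E n) : fderiv ℝ f x a = ∑ j, a j * pd f j x := by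
  have e : a = ∑ j, a j • EuclideanSpace.single j (1 : ℝ) := by
    ext i
    simp [Pi.single_apply]
  conv_lhs => rw [e]
  simp only [map_sum, map_smul, smul_eq_mul, pd]

theorem fderiv_eq_sum' (f : E n → ℝ) (x : E n) :
    fderiv ℝ f x = ∑ j, pd f j x • (EuclideanSpace.proj j : E n →L[ℝ] ℝ) := by
  ext a
  rw [fderiv_eq_sum]
  simp [mul_comm]

theorem pd_congr (hU : IsOpen U) (h : ∀ x ∈ U, g x = f x) (j : Fin n) {x : E n} (hx : x ∈ U) :
    pd g j x = pd f j x := by
  unfold pd
  rw [Filter.EventuallyEq.fderiv_eq (Filter.eventually_of_mem (hU.mem_nhds hx) h)]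

theorem abs_pd_le {L : NNReal} (h : LipschitzWith L f) (j : Fin n) (x : E n) : |pd f j x| ≤ L := by
  unfold pd
  have h1 := (fderiv ℝ f x).le_opNorm (EuclideanSpace.single j (1 : ℝ))
  have h2 := norm_fderiv_le_of_lipschitz ℝ (x₀ := x) h
  simp only [PiLp.norm_single, norm_one, mul_one, Real.norm_eq_abs] at h1
  exact h1.trans h2

theorem measurable_pd (f : E n → ℝ) (j : Fin n) : Measurable (pd f j) := by
  exact measurable_fderiv_apply_const ℝ f _

end Pool.Agent.Lib.MP_4bee3f_an.G
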