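import Pool.Agent.Lib.MP_4bee3f_an.G.Alg

/-! Compactness arguments (`IsCompact.eventually_forall_of_forall_eventually`). -/

namespace Pool.Agent.Lib.MP_4bee3f_an.G

open Filter Topology Matrix Pool.Agent.Lib.MP_4bee3f_an.K

theorem Ell.near {n : ℕ} {A : E n → Fin n → Mat n} (hA : Ell (A 0))
    (hc : ∀ j i l, ContinuousAt (fun x => A x j i l) 0) : ∀ᶠ x in 𝓝 (0 : E n), Ell (A x) := by
  have key : ∀ᶠ x in 𝓝 (0 : E n), ∀ ξ ∈ Metric.sphere (0 : Fin n → ℝ) 1,
      (∑ j, ξ j • A x j).det ≠ 0 := by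
    refine (isCompact_sphere (0 : Fin n → ℝ) 1).eventually_forall_of_forall_eventually
      (P := fun x ξ => (∑ j, ξ j • A x j).det ≠ 0) fun ξ hξ => ?_
    have h0 : ξ ≠ 0 := by
      rintro rfl
      simp at hξ
    have h1 : ContinuousAt (fun z : E n × (Fin n → ℝ) => ∑ j, z.2 j • A z.1 j) (0, ξ) := by
      refine continuousAt_pi.2 fun i => continuousAt_pi.2 fun l => ?_
      simp only [Matrix.sum_apply, Matrix.smul_apply, smul_eq_mul]
      refine tendsto_finsetSum _ fun j _ => ?_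
      have h2 : ContinuousAt (fun z : E n × (Fin n → ℝ) => A z.1 j i l) (0, ξ) :=
        ContinuousAt.comp_of_eq (g := fun x => A x j i l) (f := Prod.fst) (hc j i l)
          continuousAt_fst rfl
      exact ((continuous_apply j).comp continuous_snd).continuousAt.mul h2
    exact ((continuous_id.matrix_det.continuousAt).comp h1).eventually_ne (hA ξ h0)
  filter_upwards [key] with x hx ξ hξ h
  have hn : ‖ξ‖ ≠ 0 := norm_ne_zero_iff.2 hξ
  refine hx (‖ξ‖⁻¹ • ξ) (by simp [norm_smul, hn]) ?_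
  have e : ∑ j, (‖ξ‖⁻¹ • ξ) j • A x j = ‖ξ‖⁻¹ • ∑ j, ξ j • A x j := by
    rw [Finset.smul_sum]
    exact Finset.sum_congr rfl fun j _ => by rw [Pi.smul_apply, smul_eq_mul, mul_smul]
  rw [e, Matrix.det_smul, h, mul_zero]

theorem det_smul2 (t : ℝ) (Y : Mat 2) : (t • Y).det = t ^ 2 * Y.det := by
  rw [Matrix.det_smul, Fintype.card_fin]

theorem Ell.sign {A : Fin 2 → Mat 2} (hA : Ell A) :
    ∃ σ : ℝ, ∀ Y : Mat 2, Y ≠ 0 → (∀ i, app A Y i = 0) → 0 < σ * Y.det := by
  by_cases h : ∃ Y : Mat 2, (∀ i, app A Y i = 0) ∧ 0 < Y.det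
  · obtain ⟨Y, hY, hd⟩ := h
    refine ⟨1, fun Z hZ0 hZ => ?_⟩
    rw [one_mul]
    by_contra hle
    have hlt : Z.det < 0 :=
      lt_of_le_of_ne (not_lt.1 hle) fun h0 => hZ0 (hA.ker hZ h0)
    have hcont : Continuous fun t : ℝ => (Z + t • (Y - Z)).det :=
      (continuous_const.add (continuous_id.smul continuous_const)).matrix_det
    obtain ⟨t, ht, h0⟩ := intermediate_value_Ioo (zero_le_one' ℝ) hcont.continuousOn
      (show (0 : ℝ) ∈ Set.Ioo _ _ from ⟨by simpa using hlt, by simpa using hd⟩)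
    have h1 : Z + t • (Y - Z) = 0 := hA.ker (fun i => by
      rw [app_add, app_smul, app_sub, hY, hZ]; ring) h0
    have h2 : (1 - t) • Z = (-t) • Y := by
      rw [← sub_eq_zero, ← h1, smul_sub, sub_smul, one_smul, neg_smul]; abel
    have h3 := congrArg Matrix.det h2
    rw [det_smul2, det_smul2] at h3
    have h4 : 0 < (1 - t) ^ 2 := pow_pos (sub_pos.2 ht.2) 2
    nlinarith [mul_neg_of_pos_of_neg h4 hlt, mul_nonneg (sq_nonneg (-t)) hd.le]
  · refine ⟨-1, fun Z hZ0 hZ => ?_⟩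
    have h1 : ¬ 0 < Z.det := fun h1 => h ⟨Z, hZ, h1⟩
    have h2 : Z.det < 0 := lt_of_le_of_ne (not_lt.1 h1) fun h0 => hZ0 (hA.ker hZ h0)
    linarith

theorem isCompact_unit : IsCompact {Y : Mat 2 | ∑ l, ∑ j, Y l j ^ 2 = 1} := by
  have h1 : IsCompact {Y : Mat 2 | ∀ l j, Y l j ∈ Set.Icc (-1 : ℝ) 1} :=
    isCompact_pi_infinite fun _ => isCompact_pi_infinite fun _ => isCompact_Icc
  refine h1.of_isClosed_subset (isClosed_eq (by fun_prop) continuous_const) fun Y hY l j => ?_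
  have h2 : ∑ l, ∑ j, Y l j ^ 2 = 1 := hY
  have h3 : Y l j ^ 2 ≤ 1 := by
    rw [← h2]
    exact (Finset.single_le_sum (f := fun j => Y l j ^ 2) (fun _ _ => sq_nonneg _)
      (Finset.mem_univ j)).trans (Finset.single_le_sum (f := fun l => ∑ j, Y l j ^ 2)
        (fun _ _ => Finset.sum_nonneg fun _ _ => sq_nonneg _) (Finset.mem_univ l))
  exact abs_le.1 ((sq_le_one_iff_abs_le_one _).1 h3)

variable {A : E 2 → Fin 2 → Mat 2} {F : E 2 → Fin 2 → ℝ} {J : E 2 → ℝ}

/-- `det` has one sign on the kernel (`Ell.ker`, intermediate values on a segment); then a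
compactness argument on the unit sphere of matrices. -/
theorem garding (hA : Ell (A 0)) (hc : ∀ j i l, ContinuousAt (fun x => A x j i l) 0) :
    ∃ σ c C : ℝ, 0 < c ∧ 0 ≤ C ∧ ∀ᶠ x in 𝓝 (0 : E 2), ∀ Y : Mat 2,
      c * ∑ l, ∑ j, Y l j ^ 2 ≤ σ * Y.det + C * ∑ i, app (A x) Y i ^ 2 := by
  obtain ⟨σ, hσ⟩ := hA.sign
  have key : ∀ᶠ z : ℝ × E 2 in 𝓝 (0, 0), ∀ Y ∈ {Y : Mat 2 | ∑ l, ∑ j, Y l j ^ 2 = 1},
      0 < z.1 → z.1 ^ 2 < z.1 * (σ * Y.det) + ∑ i, app (A z.2) Y i ^ 2 := by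
    refine isCompact_unit.eventually_forall_of_forall_eventually
      (P := fun (z : ℝ × E 2) (Y : Mat 2) =>
        0 < z.1 → z.1 ^ 2 < z.1 * (σ * Y.det) + ∑ i, app (A z.2) Y i ^ 2) fun Y hY => ?_
    have hY0 : Y ≠ 0 := by
      rintro rfl
      simp at hY
    have c1 : Continuous fun w : (ℝ × E 2) × Mat 2 => w.1.1 := by fun_prop
    have c2 : Continuous fun w : (ℝ × E 2) × Mat 2 => σ * w.2.det :=
      continuous_const.mul continuous_snd.matrix_det
    have c3 : ContinuousAt (fun w : (ℝ × E 2) × Mat 2 => ∑ i, app (A w.1.2) w.2 i ^ 2)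
        ((0, 0), Y) := by
      refine tendsto_finsetSum _ fun i _ => ContinuousAt.pow ?_ 2
      refine tendsto_finsetSum _ fun j _ => tendsto_finsetSum _ fun l _ => ?_
      have h2 : ContinuousAt (fun w : (ℝ × E 2) × Mat 2 => A w.1.2 j i l) ((0, 0), Y) :=
        ContinuousAt.comp_of_eq (g := fun x => A x j i l)
          (f := fun w : (ℝ × E 2) × Mat 2 => w.1.2) (hc j i l) (by fun_prop) rfl
      have h3 : Continuous fun w : (ℝ × E 2) × Mat 2 => w.2 l j := by fun_prop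
      exact h2.mul h3.continuousAt
    by_cases h : ∀ i, app (A 0) Y i = 0
    · have h1 := c1.continuousAt.eventually_lt (x₀ := ((0, 0), Y)) c2.continuousAt (hσ Y hY0 h)
      filter_upwards [h1] with w hw h0
      have h2 : 0 ≤ ∑ i, app (A w.1.2) w.2 i ^ 2 := Finset.sum_nonneg fun _ _ => sq_nonneg _
      nlinarith [mul_lt_mul_of_pos_left hw h0]
    · obtain ⟨i, hi⟩ := not_forall.1 h
      have h2 : 0 < ∑ i, app (A 0) Y i ^ 2 :=
        Finset.sum_pos' (fun _ _ => sq_nonneg _) ⟨i, Finset.mem_univ i, by positivity⟩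
      have h1 := (c1.pow 2).continuousAt.eventually_lt (x₀ := ((0, 0), Y))
        ((c1.mul c2).continuousAt.add c3) (by simpa using h2)
      filter_upwards [h1] with w hw _
      exact hw
  obtain ⟨ε, hε, h0⟩ := ((key.curry_nhds.filter_mono
    (nhdsWithin_le_nhds (s := Set.Ioi (0 : ℝ)))).and self_mem_nhdsWithin).exists
  have h0' : 0 < ε := h0
  refine ⟨σ, ε, ε⁻¹, h0', inv_nonneg.2 h0'.le, ?_⟩
  filter_upwards [hε] with x hx Y
  have hs : 0 ≤ ∑ l, ∑ j, Y l j ^ 2 :=
    Finset.sum_nonneg fun _ _ => Finset.sum_nonneg fun _ _ => sq_nonneg _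
  rcases hs.eq_or_lt with h1 | h1
  · have hY : Y = 0 := by
      ext l j
      have h2 := (Finset.sum_eq_zero_iff_of_nonneg
        (fun _ _ => Finset.sum_nonneg fun _ _ => sq_nonneg _)).1 h1.symm l (Finset.mem_univ l)
      exact pow_eq_zero_iff two_ne_zero |>.1
        ((Finset.sum_eq_zero_iff_of_nonneg (fun _ _ => sq_nonneg _)).1 h2 j (Finset.mem_univ j))
    subst hY
    simp [app]
  · obtain ⟨s, hsd⟩ : ∃ s, s = ∑ l, ∑ j, Y l j ^ 2 := ⟨_, rfl⟩
    rw [← hsd] at h1 ⊢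
    have hr : (√s)⁻¹ ^ 2 = s⁻¹ := by rw [inv_pow, Real.sq_sqrt h1.le]
    have h2 := hx ((√s)⁻¹ • Y) (by
      simp only [Matrix.smul_apply, smul_eq_mul, mul_pow, ← Finset.mul_sum, hr,
        ← hsd]
      exact inv_mul_cancel₀ h1.ne') h0'
    simp only [det_smul2, app_smul, mul_pow, ← Finset.mul_sum, hr] at h2
    have h3 := mul_lt_mul_of_pos_left h2 (mul_pos h1 (inv_pos.2 h0'))
    have e1 : s * ε⁻¹ * ε ^ 2 = ε * s := by field_simp
    have e2 : s * ε⁻¹ * (ε * (σ * (s⁻¹ * Y.det)) + s⁻¹ * ∑ i, app (A x) Y i ^ 2)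
        = σ * Y.det + ε⁻¹ * ∑ i, app (A x) Y i ^ 2 := by field_simp
    rw [e1, e2] at h3
    exact h3.le

theorem cpt_box (L : ℝ) : IsCompact {X : Mat 2 | ∀ l j, |X l j| ≤ L} := by
  have h : IsCompact (Set.pi Set.univ fun _ : Fin 2 => Set.pi Set.univ fun _ : Fin 2 =>
      Set.Icc (-L) L) := isCompact_univ_pi fun _ => isCompact_univ_pi fun _ => isCompact_Icc
  have e : {X : Mat 2 | ∀ l j, |X l j| ≤ L} = (Set.pi Set.univ fun _ : Fin 2 =>
      Set.pi Set.univ fun _ : Fin 2 => Set.Icc (-L) L) := by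
    ext X
    exact ⟨fun h l _ j _ => abs_le.1 (h l j), fun h l j => abs_le.2 (h l trivial j trivial)⟩
  rw [e]
  exact h

theorem cpt_elem (l j : Fin 2) : Continuous fun X : Mat 2 => X l j :=
  continuous_id.matrix_elem l j

theorem cpt_not_near {Z : Type*} [TopologicalSpace Z] {z₀ : Z} {a : Z → E 2} {b : Z → Mat 2}
    (ha : ContinuousAt a z₀) (hb : ContinuousAt b z₀) (h0 : a z₀ = 0)
    (hc : ∀ j i l, ContinuousAt (fun x => A x j i l) 0)
    (hF : ∀ i, ContinuousAt (fun x => F x i) 0) (hJ : ContinuousAt J 0)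
    (hn : ¬ ((∀ i, app (A 0) (b z₀) i = F 0 i) ∧ (b z₀).det = J 0)) :
    ∀ᶠ z in 𝓝 z₀, ¬ ((∀ i, app (A (a z)) (b z) i = F (a z) i) ∧ (b z).det = J (a z)) := by
  rcases not_and_or.1 hn with h | h
  · obtain ⟨i, hi⟩ := not_forall.1 h
    have c1 : ContinuousAt (fun z => app (A (a z)) (b z) i - F (a z) i) z₀ := by
      refine ContinuousAt.sub ?_ ((hF i).comp_of_eq ha h0)
      unfold app
      exact tendsto_finsetSum _ fun j _ => tendsto_finsetSum _ fun l _ =>
        ((hc j i l).comp_of_eq ha h0).mul ((cpt_elem l j).continuousAt.comp hb)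
    filter_upwards [c1.eventually_ne (y := 0) (by rw [h0]; exact sub_ne_zero.2 hi)] with z hz hh
    exact hz (sub_eq_zero.2 (hh.1 i))
  · have c1 : ContinuousAt (fun z => (b z).det - J (a z)) z₀ :=
      ((continuous_id.matrix_det).continuousAt.comp hb).sub (hJ.comp_of_eq ha h0)
    filter_upwards [c1.eventually_ne (y := 0) (by rw [h0]; exact sub_ne_zero.2 h)] with z hz hh
    exact hz (sub_eq_zero.2 hh.2)

/-- At the origin `P` is the only admissible matrix (`det_add2`, `Ell.ker`). -/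
theorem adm_close (hA : Ell (A 0)) (hc : ∀ j i l, ContinuousAt (fun x => A x j i l) 0)
    (hF : ∀ i, ContinuousAt (fun x => F x i) 0) (hJ : ContinuousAt J 0) {P : Mat 2}
    (h1 : ∀ i, app (A 0) P i = F 0 i) (h2 : P.det = J 0)
    (h3 : ∀ M, (∀ i, app (A 0) M i = 0) → (P.adjugate * M).trace = 0) (L : ℝ) {η : ℝ}
    (hη : 0 < η) : ∀ᶠ x in 𝓝 (0 : E 2), ∀ X, Adm (A x) (F x) (J x) L X →
      ∀ l j, |X l j - P l j| ≤ η := by
  have key := (cpt_box L).eventually_forall_of_forall_eventually (x₀ := (0 : E 2))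
    (P := fun x X => ((∀ i, app (A x) X i = F x i) ∧ X.det = J x) → ∀ l j, |X l j - P l j| ≤ η)
    (fun X₀ _ => by
      by_cases hn : (∀ i, app (A 0) X₀ i = F 0 i) ∧ X₀.det = J 0
      · have hk : ∀ i, app (A 0) (X₀ - P) i = 0 := fun i => by
          rw [app_sub, hn.1 i, h1 i, sub_self]
        have hd := det_add2 P (X₀ - P)
        rw [add_sub_cancel, hn.2, h2, h3 _ hk] at hd
        have hX : X₀ = P := sub_eq_zero.1 (hA.ker hk (by linarith))
        have : ∀ᶠ z : E 2 × Mat 2 in 𝓝 (0, X₀), ∀ l j, |z.2 l j - P l j| < η := by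
          refine eventually_all.2 fun l => eventually_all.2 fun j => ?_
          have c1 : Continuous fun z : E 2 × Mat 2 => |z.2 l j - P l j| :=
            (((cpt_elem l j).comp continuous_snd).sub continuous_const).abs
          exact c1.continuousAt.eventually_lt continuousAt_const (by simp [hX, hη])
        filter_upwards [this] with z hz _ l j
        exact (hz l j).le
      · filter_upwards [cpt_not_near (z₀ := ((0 : E 2), X₀)) continuousAt_fst continuousAt_snd rfl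
          hc hF hJ hn] with z hz hh
        exact absurd hh hz)
  filter_upwards [key] with x hx X hX
  exact hx X hX.2.2 ⟨hX.1, hX.2.1⟩

/-- Tube lemma with the parameter `(η, x)` near `(0, 0)` and the property
`Adm → |η| < ‖Lm T‖` for `‖T‖ = 1`. -/
theorem adm_bound (hc : ∀ j i l, ContinuousAt (fun x => A x j i l) 0)
    (hF : ∀ i, ContinuousAt (fun x => F x i) 0) (hJ : ContinuousAt J 0) {L : ℝ}
    (h : ∀ X, Adm (A 0) (F 0) (J 0) L X → (Lm (A 0) X).det ≠ 0) :
    ∃ C : ℝ, 0 ≤ C ∧ ∀ᶠ x in 𝓝 (0 : E 2), ∀ X, Adm (A x) (F x) (J x) L X →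
      ∀ T : I3 → ℝ, ‖T‖ ≤ C * ‖Lm (A x) X *ᵥ T‖ := by
  have key := ((cpt_box L).prod (isCompact_sphere (0 : I3 → ℝ) 1)
    ).eventually_forall_of_forall_eventually (x₀ := ((0 : ℝ), (0 : E 2)))
    (P := fun x y => ((∀ i, app (A x.2) y.1 i = F x.2 i) ∧ y.1.det = J x.2) →
      x.1 ≤ ‖Lm (A x.2) y.1 *ᵥ y.2‖)
    (fun y₀ hy => by
      have ha : ContinuousAt (fun z : (ℝ × E 2) × Mat 2 × (I3 → ℝ) => z.1.2) ((0, 0), y₀) :=
        (continuous_snd.comp continuous_fst).continuousAt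
      have hb : Continuous (fun z : (ℝ × E 2) × Mat 2 × (I3 → ℝ) => z.2.1) :=
        continuous_fst.comp continuous_snd
      by_cases hn : (∀ i, app (A 0) y₀.1 i = F 0 i) ∧ y₀.1.det = J 0
      · have hd := h y₀.1 ⟨hn.1, hn.2, hy.1⟩
        have hT : y₀.2 ≠ 0 := by
          intro h0
          have := hy.2
          rw [h0] at this
          simp at this
        have hpos : 0 < ‖Lm (A 0) y₀.1 *ᵥ y₀.2‖ :=
          norm_pos_iff.2 fun h0 => hT (Matrix.eq_zero_of_mulVec_eq_zero hd h0)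
        have c0 : ∀ p q, ContinuousAt
            (fun z : (ℝ × E 2) × Mat 2 × (I3 → ℝ) => Lm (A z.1.2) z.2.1 p q) ((0, 0), y₀) := by
          intro p q
          simp only [Lm, Matrix.of_apply]
          split_ifs
          · exact (hc _ _ _).comp_of_eq ha rfl
          · exact continuousAt_const
          · exact (hb.matrix_adjugate.matrix_elem _ _).continuousAt
          all_goals exact continuousAt_const
        have c1 : ContinuousAt
            (fun z : (ℝ × E 2) × Mat 2 × (I3 → ℝ) => ‖Lm (A z.1.2) z.2.1 *ᵥ z.2.2‖) ((0, 0), y₀) := by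
          refine ContinuousAt.norm (continuousAt_pi.2 fun p => ?_)
          simp only [Matrix.mulVec, dotProduct]
          exact tendsto_finsetSum _ fun q _ => (c0 p q).mul
            ((continuous_apply q).comp (continuous_snd.comp continuous_snd)).continuousAt
        have c2 : ContinuousAt (fun z : (ℝ × E 2) × Mat 2 × (I3 → ℝ) => z.1.1) ((0, 0), y₀) :=
          (continuous_fst.comp continuous_fst).continuousAt
        filter_upwards [c2.eventually_lt c1 hpos] with z hz _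
        exact hz.le
      · filter_upwards [cpt_not_near ha hb.continuousAt rfl hc hF hJ hn] with z hz hh
        exact absurd hh hz)
  obtain ⟨η, hη, hη0⟩ := ((key.curry_nhds.filter_mono (nhdsWithin_le_nhds (s := Set.Ioi 0))).and
    self_mem_nhdsWithin).exists
  have hη0 : 0 < η := hη0
  refine ⟨η⁻¹, by positivity, ?_⟩
  filter_upwards [hη] with x hx X hX T
  rcases eq_or_ne T 0 with rfl | hT
  · simp
  have hn : 0 < ‖T‖ := norm_pos_iff.2 hT
  have h1 := hx (X, ‖T‖⁻¹ • T) ⟨hX.2.2, by simp [norm_smul, hn.ne']⟩ ⟨hX.1, hX.2.1⟩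
  simp only [Matrix.mulVec_smul, norm_smul, norm_inv, norm_norm] at h1
  rw [← div_eq_inv_mul, le_div_iff₀ hn] at h1
  rw [← div_eq_inv_mul, le_div_iff₀ hη0]
  linarith

end Pool.Agent.Lib.MP_4bee3f_an.G
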