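import Pool.Agent.Lib.MP_4bee3f_an.KDefs

/-! First-order elliptic systems: solutions through a given 1-jet and the gain of one derivative. -/

namespace Pool.Agent.Lib.MP_4bee3f_an.G

open MeasureTheory Pool.Agent.Lib.MP_4bee3f_an.K

/-- Real square matrices. -/
abbrev Mat (n : ℕ) : Type := Matrix (Fin n) (Fin n) ℝ

variable {n : ℕ}

/-- The two scales: `C^{k,1}` if `lip`, else `C^{k+1}`. -/
def Sm (lip : Bool) (k : ℕ) (f : E n → ℝ) (Ω : Set (E n)) : Prop :=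
  if lip then CLip k f Ω else ContDiffOn ℝ (k + 1) f Ω

/-- Ellipticity of `n` matrices. -/
def Ell (A : Fin n → Mat n) : Prop := ∀ ξ : Fin n → ℝ, ξ ≠ 0 → (∑ j, ξ j • A j).det ≠ 0

/-- The `i`-th component of the sum over `j` of `A j` applied to the `j`-th column of `M`. -/
def app (A : Fin n → Mat n) (M : Mat n) (i : Fin n) : ℝ := ∑ j, ∑ l, A j i l * M l j

/-- The Jacobian matrix. -/
noncomputable def Dm (u : Fin n → E n → ℝ) (x : E n) : Mat n := Matrix.of fun l j => pd (u l) j x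

/-- The hypotheses of the question on `Ω`. -/
structure Sol (lip : Bool) (k : ℕ) (Ω : Set (E n)) (A : E n → Fin n → Mat n) (B : E n → Mat n)
    (c : E n → Fin n → ℝ) (u : Fin n → E n → ℝ) (J : E n → ℝ) : Prop where
  ell : ∀ x ∈ Ω, Ell (A x)
  lipu : ∀ l, LocallyLipschitzOn Ω (u l)
  eqn : ∀ᵐ x ∂(volume.restrict Ω), ∀ i, app (A x) (Dm u x) i + ∑ l, B x i l * u l x = c x i
  jac : ∀ᵐ x ∂(volume.restrict Ω), (Dm u x).det = J x
  jne : ∀ x ∈ Ω, J x ≠ 0
  smA : ∀ j i l, Sm lip k (fun x => A x j i l) Ω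
  smB : ∀ i l, Sm lip k (fun x => B x i l) Ω
  smc : ∀ i, Sm lip k (fun x => c x i) Ω
  smJ : Sm lip k J Ω

/-- Every solution with principal part `A0` and derivative `P0` at the origin is one unit smoother
than the data near the origin. If `narrow`, this is asked only for `B = 0`, constant `c` and `u` of
class `C^{k+1}`. -/
def Gain (lip narrow : Bool) (k : ℕ) (A0 : Fin n → Mat n) (P0 : Mat n) : Prop :=
  ∀ (Ω : Set (E n)) (A : E n → Fin n → Mat n) (B : E n → Mat n) (c : E n → Fin n → ℝ)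
    (u : Fin n → E n → ℝ) (J : E n → ℝ),
    IsOpen Ω → IsConnected Ω → 0 ∈ Ω → Sol lip k Ω A B c u J → A 0 = A0 →
    (∀ l, DifferentiableAt ℝ (u l) 0) → Dm u 0 = P0 →
    (narrow → (∀ x ∈ Ω, B x = 0 ∧ c x = c 0) ∧ ∀ l, ContDiffOn ℝ (k + 1) (u l) Ω) →
    ∃ V, IsOpen V ∧ 0 ∈ V ∧ ∀ l, Sm lip (k + 1) (u l) V

end Pool.Agent.Lib.MP_4bee3f_an.G
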