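import Pool.Agent.Lib.MP_4bee3f_an.G.Cls

/-! From integral bounds on second derivatives to second differences. -/

namespace Pool.Agent.Lib.MP_4bee3f_an.G

open Filter Topology MeasureTheory Metric Pool.Agent.Lib.MP_4bee3f_an.K

variable {n : ℕ}

theorem dif_pt {f G : E n → ℝ} (hf : ContDiff ℝ 1 f) (hG : Continuous G) (h0 : ∀ x, 0 ≤ G x)
    {a : E n} {c : ℝ} (h : ∀ x, |fderiv ℝ f x a| ≤ c + G x) (x : E n) :
    max (|f (x + a) - f x| - c) 0 ≤ ∫ s in Set.Ioc (0 : ℝ) 1, G (x + s • a) := by
  rw [← intervalIntegral.integral_of_le zero_le_one]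
  have hd : ∀ s : ℝ, HasDerivAt (fun s : ℝ => f (x + s • a)) (fderiv ℝ f (x + s • a) a) s :=
    fun s => by
    have h1 : HasDerivAt (fun s : ℝ => x + s • a) a s := by
      simpa using ((hasDerivAt_id s).smul_const a).const_add x
    exact ((hf.differentiable one_ne_zero _).hasFDerivAt).comp_hasDerivAt s h1
  have hc : Continuous fun s : ℝ => fderiv ℝ f (x + s • a) a :=
    ((hf.continuous_fderiv one_ne_zero).comp (by fun_prop)).clm_apply continuous_const
  have hg : Continuous fun s : ℝ => G (x + s • a) := by fun_prop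
  have e := intervalIntegral.integral_eq_sub_of_hasDerivAt (fun s _ => hd s)
    (hc.intervalIntegrable 0 1)
  simp only [one_smul, zero_smul, add_zero] at e
  refine max_le ?_ (intervalIntegral.integral_nonneg zero_le_one fun s _ => h0 _)
  have b := (intervalIntegral.abs_integral_le_integral_abs (f := fun s : ℝ =>
    fderiv ℝ f (x + s • a) a) (μ := volume) zero_le_one).trans
    (intervalIntegral.integral_mono_on (g := fun s : ℝ => c + G (x + s • a)) zero_le_one
      (hc.abs.intervalIntegrable 0 1) ((continuous_const.add hg).intervalIntegrable 0 1)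
      fun s _ => h _)
  rw [e, intervalIntegral.integral_add (continuous_const.intervalIntegrable 0 1)
    (hg.intervalIntegrable 0 1)] at b
  simp only [intervalIntegral.integral_const, sub_zero, one_smul] at b
  linarith

theorem int_ball {g : E n → ℝ} (hg : Continuous g) (y : E n) (r : ℝ) :
    IntegrableOn g (ball y r) :=
  (hg.continuousOn.integrableOn_compact (isCompact_closedBall y r)).mono_set ball_subset_closedBall

theorem shift_le {G : E n → ℝ} (hG : Continuous G) (h0 : ∀ x, 0 ≤ G x) {y : E n} {r ρ : ℝ}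
    (h : ‖y‖ + r ≤ ρ) : ∫ x in ball (0 : E n) r, G (x + y) ≤ ∫ x in ball (0 : E n) ρ, G x := by
  have e : ∫ x in ball (0 : E n) r, G (x + y) = ∫ x in ball y r, G x := by
    rw [← integral_indicator measurableSet_ball, ← integral_indicator measurableSet_ball,
      ← integral_add_right_eq_self (fun x => (ball y r).indicator G x) y]
    congr 1
    funext x
    simp [Set.indicator, dist_eq_norm]
  rw [e]
  refine setIntegral_mono_set (int_ball hG _ _) (Eventually.of_forall h0)
    (LE.le.eventuallyLE (ball_subset_ball' ?_))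
  rw [dist_zero_right]
  linarith

/-- `|f (x + a) - f x| ≤ c + ∫ s in 0..1, G (x + s • a)`, Fubini, translation invariance. -/
theorem dif {f G : E n → ℝ} (hf : ContDiff ℝ 1 f) (hG : Continuous G) (h0 : ∀ x, 0 ≤ G x)
    {a : E n} {c ρ : ℝ} (h : ∀ x, |fderiv ℝ f x a| ≤ c + G x) :
    ∫ x in ball (0 : E n) (ρ - ‖a‖), max (|f (x + a) - f x| - c) 0 ≤
      ∫ x in ball (0 : E n) ρ, G x := by
  have hi : Integrable (Function.uncurry fun (x : E n) (s : ℝ) => G (x + s • a))
      ((volume.restrict (ball (0 : E n) (ρ - ‖a‖))).prod (volume.restrict (Set.Ioc (0 : ℝ) 1))) := by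
    rw [Measure.prod_restrict]
    have hc : Continuous (Function.uncurry fun (x : E n) (s : ℝ) => G (x + s • a)) :=
      hG.comp (by fun_prop)
    exact (hc.continuousOn.integrableOn_compact ((isCompact_closedBall (0 : E n) (ρ - ‖a‖)).prod
      (isCompact_Icc (a := (0 : ℝ)) (b := 1)))).mono_set
        (Set.prod_mono ball_subset_closedBall Set.Ioc_subset_Icc_self)
  have hfc := hf.continuous
  refine (integral_mono (int_ball (by fun_prop) _ _) hi.integral_prod_left
    fun x => dif_pt hf hG h0 h x).trans ?_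
  simp only [Function.uncurry]
  rw [integral_integral_swap hi]
  refine (setIntegral_mono_on hi.integral_prod_right
    (integrableOn_const (C := ∫ x in ball (0 : E n) ρ, G x) (by simp)) measurableSet_Ioc
    fun s hs => shift_le (y := s • a) hG h0 ?_).trans (by simp)
  rw [norm_smul, Real.norm_of_nonneg hs.1.le]
  nlinarith [norm_nonneg a, hs.2]

theorem sd_int {F : E n → ℝ} (hF : Continuous F) (r : ℝ) :
    IntegrableOn F (ball (0 : E n) r) volume :=
  (hF.continuousOn.integrableOn_compact (isCompact_closedBall (0 : E n) r)).mono_set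
    ball_subset_closedBall

theorem sd_lin (L : E n →L[ℝ] ℝ) (b : E n) :
    L b = ∑ j, b j * L (EuclideanSpace.single j 1) := by
  conv_lhs => rw [← (EuclideanSpace.basisFun (Fin n) ℝ).sum_repr b]
  simp [map_sum]

theorem sd_pd {W : E n → ℝ} (hW : ContDiff ℝ 2 W) (j : Fin n) : ContDiff ℝ 1 (pd W j) := by
  have h1 : ContDiff ℝ 1 (fderiv ℝ W) := hW.fderiv_right (by norm_num)
  exact h1.clm_apply contDiff_const

theorem sd_pd2 {W : E n → ℝ} (hW : ContDiff ℝ 2 W) (j m : Fin n) :
    Continuous (pd (pd W j) m) := by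
  have h1 : Continuous (fderiv ℝ (pd W j)) := (sd_pd hW j).continuous_fderiv (by norm_num)
  exact h1.clm_apply continuous_const

theorem sd_smooth {W : E n → ℝ} (hW : ContDiff ℝ 2 W) {ρ C η : ℝ}
    (h : ∀ j m, ∫ x in ball (0 : E n) ρ, max (|pd (pd W j) m x| - C) 0 ≤ η) (hC : 0 ≤ C)
    (a b : E n) :
    ∫ x in ball (0 : E n) (ρ - ‖a‖ - ‖b‖),
      max (|W (x + a + b) - W (x + a) - W (x + b) + W x| - n ^ 2 * C * ‖a‖ * ‖b‖) 0 ≤
        ‖a‖ * ‖b‖ * (n ^ 2 * η) := by
  set c : ℝ := n ^ 2 * C * ‖a‖ * ‖b‖ with hc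
  have hWd : Differentiable ℝ W := hW.differentiable (by norm_num)
  set f1 : E n → ℝ := fun x => ∑ j, b j * pd W j x with hf1
  have hf1c : ContDiff ℝ 1 f1 := ContDiff.sum fun j _ => contDiff_const.mul (sd_pd hW j)
  have hf1e : ∀ x, fderiv ℝ W x b = f1 x := fun x => sd_lin _ b
  have hgc : ∀ j m, Continuous fun x => max (|pd (pd W j) m x| - C) 0 := fun j m =>
    ((sd_pd2 hW j m).abs.sub continuous_const).max continuous_const
  set G1 : E n → ℝ := fun x => ‖a‖ * ‖b‖ * ∑ j, ∑ m, max (|pd (pd W j) m x| - C) 0 with hG1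
  have hG1c : Continuous G1 :=
    continuous_const.mul (continuous_finset_sum _ fun j _ => continuous_finset_sum _ fun m _ => hgc j m)
  have hG10 : ∀ x, 0 ≤ G1 x := fun x =>
    mul_nonneg (by positivity)
      (Finset.sum_nonneg fun j _ => Finset.sum_nonneg fun m _ => le_max_right _ _)
  have hd1 : ∀ x, |fderiv ℝ f1 x a| ≤ c + G1 x := by
    intro x
    have e1 : HasFDerivAt f1 (∑ j, b j • fderiv ℝ (pd W j) x) x := by
      refine HasFDerivAt.fun_sum fun j _ => ?_
      exact (((sd_pd hW j).differentiable (by norm_num)) x).hasFDerivAt.const_mul (b j)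
    have e2 : fderiv ℝ f1 x a = ∑ j, ∑ m, b j * (a m * pd (pd W j) m x) := by
      rw [e1.fderiv]
      simp only [ContinuousLinearMap.sum_apply, ContinuousLinearMap.smul_apply, smul_eq_mul]
      refine Finset.sum_congr rfl fun j _ => ?_
      rw [sd_lin _ a, Finset.mul_sum]
      rfl
    rw [e2]
    have e3 : ∀ j m, |b j * (a m * pd (pd W j) m x)| ≤
        ‖a‖ * ‖b‖ * C + ‖a‖ * ‖b‖ * max (|pd (pd W j) m x| - C) 0 := by
      intro j m
      have ha : |a m| ≤ ‖a‖ := by simpa using PiLp.norm_apply_le a m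
      have hb : |b j| ≤ ‖b‖ := by simpa using PiLp.norm_apply_le b j
      have hm : |pd (pd W j) m x| ≤ C + max (|pd (pd W j) m x| - C) 0 := by
        have := le_max_left (|pd (pd W j) m x| - C) 0
        linarith
      rw [abs_mul, abs_mul, ← mul_add]
      calc |b j| * (|a m| * |pd (pd W j) m x|)
          ≤ ‖b‖ * (‖a‖ * (C + max (|pd (pd W j) m x| - C) 0)) := by gcongr
        _ = _ := by ring
    calc |∑ j, ∑ m, b j * (a m * pd (pd W j) m x)|
        ≤ ∑ j, ∑ m, |b j * (a m * pd (pd W j) m x)| :=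
          (Finset.abs_sum_le_sum_abs _ _).trans
            (Finset.sum_le_sum fun j _ => Finset.abs_sum_le_sum_abs _ _)
      _ ≤ ∑ j : Fin n, ∑ m : Fin n,
            (‖a‖ * ‖b‖ * C + ‖a‖ * ‖b‖ * max (|pd (pd W j) m x| - C) 0) :=
          Finset.sum_le_sum fun j _ => Finset.sum_le_sum fun m _ => e3 j m
      _ = c + G1 x := by
          simp only [hc, hG1, Finset.sum_add_distrib, Finset.sum_const, Finset.card_univ,
            Fintype.card_fin, nsmul_eq_mul, Finset.mul_sum]
          ring
  have s1 := dif (ρ := ρ) hf1c hG1c hG10 hd1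
  have s2 : ∫ x in ball (0 : E n) ρ, G1 x ≤ ‖a‖ * ‖b‖ * (n ^ 2 * η) := by
    simp only [hG1]
    rw [integral_const_mul]
    refine mul_le_mul_of_nonneg_left ?_ (by positivity)
    rw [integral_finset_sum _ fun j _ =>
      integrable_finset_sum _ fun m _ => sd_int (hgc j m) ρ]
    calc ∑ j, ∫ x in ball (0 : E n) ρ, ∑ m, max (|pd (pd W j) m x| - C) 0
        = ∑ j, ∑ m, ∫ x in ball (0 : E n) ρ, max (|pd (pd W j) m x| - C) 0 :=
          Finset.sum_congr rfl fun j _ => integral_finset_sum _ fun m _ => sd_int (hgc j m) ρ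
      _ ≤ ∑ j : Fin n, ∑ m : Fin n, η :=
          Finset.sum_le_sum fun j _ => Finset.sum_le_sum fun m _ => h j m
      _ = n ^ 2 * η := by
          simp only [Finset.sum_const, Finset.card_univ, Fintype.card_fin, nsmul_eq_mul]
          ring
  set f2 : E n → ℝ := fun x => W (x + a) - W x with hf2
  have hW1 : ContDiff ℝ 1 W := hW.of_le (by norm_num)
  have hf2c : ContDiff ℝ 1 f2 := (hW1.comp (contDiff_id.add contDiff_const)).sub hW1
  set G2 : E n → ℝ := fun x => max (|f1 (x + a) - f1 x| - c) 0 with hG2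
  have hG2c : Continuous G2 :=
    (((hf1c.continuous.comp (continuous_id.add continuous_const)).sub hf1c.continuous).abs.sub
      continuous_const).max continuous_const
  have hd2 : ∀ x, |fderiv ℝ f2 x b| ≤ c + G2 x := by
    intro x
    have e1 : HasFDerivAt f2 (fderiv ℝ W (x + a) - fderiv ℝ W x) x := by
      refine HasFDerivAt.sub ?_ (hWd x).hasFDerivAt
      exact (hasFDerivAt_comp_add_right a).2 (hWd (x + a)).hasFDerivAt
    rw [e1.fderiv, ContinuousLinearMap.sub_apply, hf1e, hf1e]
    have := le_max_left (|f1 (x + a) - f1 x| - c) 0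
    simp only [hG2]
    linarith
  have s3 := dif (ρ := ρ - ‖a‖) hf2c hG2c (fun x => le_max_right _ _) hd2
  refine le_trans (le_of_eq ?_) (s3.trans (s1.trans s2))
  refine integral_congr_ae (Eventually.of_forall fun x => ?_)
  simp only [hf2]
  rw [show x + b + a = x + a + b by abel]
  congr 3
  ring

/-- `dif` twice: for `fderiv W · b` in direction `a`, then for `W (· + a) - W` in direction `b`;
let `η` tend to zero; a continuous nonnegative function with zero integral on a ball vanishes. -/
theorem second_diff {u : E n → ℝ} (hu : Continuous u) {ρ C : ℝ} (hC : 0 ≤ C)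
    (h : ∀ η, 0 < η → ∃ W : E n → ℝ, ContDiff ℝ 2 W ∧ (∀ x, |W x - u x| ≤ η) ∧
      ∀ j m, ∫ x in ball (0 : E n) ρ, max (|pd (pd W j) m x| - C) 0 ≤ η)
    {x a b : E n} (hx : ‖x‖ + ‖a‖ + ‖b‖ < ρ) :
    |u (x + a + b) - u (x + a) - u (x + b) + u x| ≤ n ^ 2 * C * ‖a‖ * ‖b‖ := by
  set c : ℝ := n ^ 2 * C * ‖a‖ * ‖b‖ with hc
  set r : ℝ := ρ - ‖a‖ - ‖b‖ with hr
  have cont : ∀ {F : E n → ℝ}, Continuous F → Continuous fun y =>
      max (|F (y + a + b) - F (y + a) - F (y + b) + F y| - c) 0 := by
    intro F hF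
    fun_prop
  set Φ : E n → ℝ := fun y => max (|u (y + a + b) - u (y + a) - u (y + b) + u y| - c) 0 with hΦ
  have hΦc : Continuous Φ := cont hu
  set v : ℝ := volume.real (ball (0 : E n) r) with hv
  have hv0 : 0 ≤ v := measureReal_nonneg
  have key : ∀ η, 0 < η → ∫ y in ball (0 : E n) r, Φ y ≤ (‖a‖ * ‖b‖ * n ^ 2 + 4 * v) * η := by
    intro η hη
    obtain ⟨W, hW, hWu, hI⟩ := h η hη
    have s1 := sd_smooth hW hI hC a b
    have s2 : ∫ y in ball (0 : E n) r, Φ y ≤ ∫ y in ball (0 : E n) r,
        (max (|W (y + a + b) - W (y + a) - W (y + b) + W y| - c) 0 + 4 * η) := by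
      refine integral_mono (sd_int hΦc r)
        (sd_int ((cont hW.continuous).add continuous_const) r) fun y => ?_
      have a1 := abs_le.1 (hWu (y + a + b))
      have a2 := abs_le.1 (hWu (y + a))
      have a3 := abs_le.1 (hWu (y + b))
      have a4 := abs_le.1 (hWu y)
      have b1 := le_max_left (|W (y + a + b) - W (y + a) - W (y + b) + W y| - c) 0
      have b2 := le_max_right (|W (y + a + b) - W (y + a) - W (y + b) + W y| - c) 0
      have b3 := le_abs_self (W (y + a + b) - W (y + a) - W (y + b) + W y)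
      have b4 := neg_abs_le (W (y + a + b) - W (y + a) - W (y + b) + W y)
      simp only [hΦ]
      refine max_le ?_ (by linarith)
      have : |u (y + a + b) - u (y + a) - u (y + b) + u y| ≤
          |W (y + a + b) - W (y + a) - W (y + b) + W y| + 4 * η := by
        rw [abs_le]; constructor <;> linarith [a1.1, a1.2, a2.1, a2.2, a3.1, a3.2, a4.1, a4.2]
      linarith
    rw [integral_add (sd_int (cont hW.continuous) r) (sd_int continuous_const r),
      setIntegral_const, smul_eq_mul] at s2
    calc _ ≤ _ := s2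
      _ ≤ ‖a‖ * ‖b‖ * (n ^ 2 * η) + v * (4 * η) := add_le_add s1 le_rfl
      _ = _ := by ring
  have h0 : ∫ y in ball (0 : E n) r, Φ y ≤ 0 := by
    set K : ℝ := ‖a‖ * ‖b‖ * n ^ 2 + 4 * v with hK
    have hK0 : 0 ≤ K := by positivity
    refine le_of_forall_pos_le_add fun ε hε => ?_
    have := key (ε / (K + 1)) (by positivity)
    refine this.trans ?_
    rw [zero_add, mul_div_assoc', div_le_iff₀ (by positivity)]
    nlinarith
  have hnn : ∀ y, 0 ≤ Φ y := fun y => le_max_right _ _
  have h1 : ∫ y in ball (0 : E n) r, Φ y = 0 := le_antisymm h0 (integral_nonneg hnn)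
  have h2 : Φ =ᵐ[volume.restrict (ball (0 : E n) r)] 0 :=
    (integral_eq_zero_iff_of_nonneg hnn (sd_int hΦc r)).1 h1
  have h3 := Measure.eqOn_open_of_ae_eq h2 isOpen_ball hΦc.continuousOn continuousOn_const
  have h4 : Φ x = 0 := h3 (by rw [mem_ball_zero_iff]; linarith)
  have h5 := le_max_left (|u (x + a + b) - u (x + a) - u (x + b) + u x| - c) 0
  simp only [hΦ] at h4
  linarith

end Pool.Agent.Lib.MP_4bee3f_an.G
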