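import Pool.Agent.Lib.MP_4bee3f_an.G.Ibp
import Pool.Agent.Lib.MP_4bee3f_an.G.Cpt

/-! The `L²` estimate for differences of the derivative. -/

namespace Pool.Agent.Lib.MP_4bee3f_an.G

open Filter Topology MeasureTheory Metric Pool.Agent.Lib.MP_4bee3f_an.K

/-- The localised problem, with globally Lipschitz data. -/
structure Core (L : NNReal) (r : ℝ) (A : E 2 → Fin 2 → Mat 2) (F : E 2 → Fin 2 → ℝ)
    (J : E 2 → ℝ) (u : Fin 2 → E 2 → ℝ) : Prop where
  pos : 0 < r
  ell : Ell (A 0)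
  lA : ∀ j i l, LipschitzWith L fun x => A x j i l
  lF : ∀ i, LipschitzWith L fun x => F x i
  lJ : LipschitzWith L J
  lu : ∀ l, LipschitzWith L (u l)
  adm : ∀ᵐ x, x ∈ ball (0 : E 2) r → Adm (A x) (F x) (J x) L (Dm u x)

/-- The square of the difference of the Jacobian matrices at two points. -/
noncomputable def dq (u : Fin 2 → E 2 → ℝ) (x y : E 2) : ℝ :=
  ∑ l, ∑ j, (Dm u x l j - Dm u y l j) ^ 2

variable {L : NNReal} {r : ℝ} {A : E 2 → Fin 2 → Mat 2} {F : E 2 → Fin 2 → ℝ} {J : E 2 → ℝ}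
  {u : Fin 2 → E 2 → ℝ}

theorem cut_pd_le {n : ℕ} {f : E n → ℝ} {C : NNReal} (hf : LipschitzWith C f) (j : Fin n)
    (x : E n) : |pd f j x| ≤ C := by
  have h1 := (fderiv ℝ f x).le_opNorm (EuclideanSpace.single j 1)
  have h2 : ‖(EuclideanSpace.single j 1 : E n)‖ = 1 := by simp
  rw [h2, mul_one, Real.norm_eq_abs] at h1
  exact h1.trans (norm_fderiv_le_of_lipschitz ℝ hf)

theorem cut_sub_le {n : ℕ} {f : E n → ℝ} {C : NNReal} (hf : LipschitzWith C f) (x a : E n) :
    |f (x + a) - f x| ≤ C * ‖a‖ := by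
  have h1 := hf.dist_le_mul (x + a) x
  rwa [Real.dist_eq, dist_eq_norm, add_sub_cancel_left] at h1

theorem cut_pd {n : ℕ} {η f : E n → ℝ} {x a : E n} (h1 : DifferentiableAt ℝ η x)
    (h2 : DifferentiableAt ℝ f x) (h3 : DifferentiableAt ℝ f (x + a)) (j : Fin n) :
    pd (fun y => η y * (f (y + a) - f y)) j x =
      pd η j x * (f (x + a) - f x) + η x * (pd f j (x + a) - pd f j x) := by
  have h4 : HasFDerivAt (fun y => f (y + a)) (fderiv ℝ f (x + a)) x := by
    have h5 := h3.hasFDerivAt.comp x ((hasFDerivAt_id x).add_const a)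
    rw [ContinuousLinearMap.comp_id] at h5
    exact h5
  have h6 : HasFDerivAt (fun y => η y * (f (y + a) - f y)) _ x :=
    h1.hasFDerivAt.mul (h4.sub h2.hasFDerivAt)
  unfold pd
  rw [h6.fderiv]
  simp only [ContinuousLinearMap.add_apply, ContinuousLinearMap.smul_apply,
    ContinuousLinearMap.sub_apply, smul_eq_mul, Pi.sub_apply]
  ring

theorem cut_sum_le {g : Fin 2 → Fin 2 → ℝ} {b : ℝ} (h : ∀ j l, |g j l| ≤ b) :
    |∑ j, ∑ l, g j l| ≤ 4 * b := by
  simp only [Fin.sum_univ_two]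
  have h1 := abs_le.1 (h 0 0)
  have h2 := abs_le.1 (h 0 1)
  have h3 := abs_le.1 (h 1 0)
  have h4 := abs_le.1 (h 1 1)
  rw [abs_le]
  constructor <;> linarith [h1.1, h1.2, h2.1, h2.2, h3.1, h3.2, h4.1, h4.2]

/-- For a cutoff `η` and `v l = η * (u l (· + h) - u l)`: almost everywhere the principal part at
`x` applied to `Dm v x` is of order `‖h‖`, and `Dm v x` is the difference where `η = 1` near `x`. -/
theorem Core.cut (h : Core L r A F J u) {η : E 2 → ℝ} {L' : NNReal} (h1 : LipschitzWith L' η)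
    (h2 : ∀ x, |η x| ≤ 1) (h3 : ∀ x, r / 4 ≤ ‖x‖ → η x = 0) :
    ∃ C : ℝ, ∀ a : E 2, ‖a‖ ≤ r / 2 → ∀ᵐ x,
      (∀ i, |app (A x) (Dm (fun l y => η y * (u l (y + a) - u l y)) x) i| ≤ C * ‖a‖) ∧
      (r / 4 < ‖x‖ → Dm (fun l y => η y * (u l (y + a) - u l y)) x = 0) ∧
      ((∀ᶠ y in 𝓝 x, η y = 1) →
        Dm (fun l y => η y * (u l (y + a) - u l y)) x = Dm u (x + a) - Dm u x) := by
  obtain ⟨B, B0, hB⟩ : ∃ B : ℝ, 0 ≤ B ∧ ∀ x : E 2, ‖x‖ ≤ r → ∀ j i l, |A x j i l| ≤ B := by
    refine ⟨∑ p : Fin 2 × Fin 2 × Fin 2, |A 0 p.1 p.2.1 p.2.2| + L * r,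
      add_nonneg (Finset.sum_nonneg fun _ _ => abs_nonneg _) (mul_nonneg L.2 h.pos.le),
      fun x hx j i l => ?_⟩
    have e1 := cut_sub_le (h.lA j i l) 0 x
    rw [zero_add] at e1
    have e2 : |A 0 j i l| ≤ ∑ p : Fin 2 × Fin 2 × Fin 2, |A 0 p.1 p.2.1 p.2.2| :=
      Finset.single_le_sum (f := fun p : Fin 2 × Fin 2 × Fin 2 => |A 0 p.1 p.2.1 p.2.2|)
        (fun _ _ => abs_nonneg _) (Finset.mem_univ (j, i, l))
    have e3 : (L : ℝ) * ‖x‖ ≤ L * r := mul_le_mul_of_nonneg_left hx L.2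
    have e4 := abs_sub_abs_le_abs_sub (A x j i l) (A 0 j i l)
    linarith
  have L0 : (0 : ℝ) ≤ L := L.2
  have L1 : (0 : ℝ) ≤ L' := L'.2
  refine ⟨4 * (B * (L' * L)) + (L + 4 * (L * L)), fun a ha => ?_⟩
  have du : ∀ᵐ x, ∀ l, DifferentiableAt ℝ (u l) x :=
    ae_all_iff.2 fun l => (h.lu l).ae_differentiableAt
  have tr := (measurePreserving_add_right (volume : Measure (E 2)) a).quasiMeasurePreserving
  filter_upwards [h1.ae_differentiableAt, du, tr.ae du, h.adm, tr.ae h.adm] with x e1 e2 e3 e4 e5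
  have hD : ∀ l j, Dm (fun l y => η y * (u l (y + a) - u l y)) x l j =
      pd η j x * (u l (x + a) - u l x) + η x * (Dm u (x + a) l j - Dm u x l j) :=
    fun l j => cut_pd e1 (e2 l) (e3 l) j
  have hout : r / 4 < ‖x‖ → Dm (fun l y => η y * (u l (y + a) - u l y)) x = 0 := fun hx => by
    have e6 : η =ᶠ[𝓝 x] fun _ => 0 :=
      ((isOpen_lt continuous_const continuous_norm).eventually_mem hx).mono fun y hy =>
        h3 y (le_of_lt hy)
    ext l j
    rw [hD, h3 x hx.le, pd, e6.fderiv_eq]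
    simp
  refine ⟨fun i => ?_, hout, fun hx => ?_⟩
  · rcases lt_or_ge (r / 4) ‖x‖ with hx | hx
    · rw [hout hx]
      simp only [app, Matrix.zero_apply, mul_zero, Finset.sum_const_zero, abs_zero]
      positivity
    · have hp := h.pos
      have f1 := e4 (mem_ball_zero_iff.2 (by linarith))
      have f2 := e5 (mem_ball_zero_iff.2 ((norm_add_le _ _).trans_lt (by linarith)))
      have f3 : app (A x) (Dm (fun l y => η y * (u l (y + a) - u l y)) x) i =
          ∑ j, ∑ l, A x j i l * (pd η j x * (u l (x + a) - u l x)) + η x * (F (x + a) i - F x i -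
            ∑ j, ∑ l, (A (x + a) j i l - A x j i l) * Dm u (x + a) l j) := by
        rw [← f1.1 i, ← f2.1 i]
        simp only [app, hD, Fin.sum_univ_two]
        ring
      have f4 : |∑ j, ∑ l, A x j i l * (pd η j x * (u l (x + a) - u l x))| ≤
          4 * (B * (L' * (L * ‖a‖))) := cut_sum_le fun j l => by
        rw [abs_mul, abs_mul]
        exact mul_le_mul (hB x (by linarith) j i l)
          (mul_le_mul (cut_pd_le h1 j x) (cut_sub_le (h.lu l) x a) (abs_nonneg _) L1)
          (by positivity) B0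
      have f5 : |∑ j, ∑ l, (A (x + a) j i l - A x j i l) * Dm u (x + a) l j| ≤
          4 * (L * ‖a‖ * L) := cut_sum_le fun j l => by
        rw [abs_mul]
        exact mul_le_mul (cut_sub_le (h.lA j i l) x a) (f2.2.2 l j) (abs_nonneg _) (by positivity)
      have f6 : |F (x + a) i - F x i| ≤ L * ‖a‖ := cut_sub_le (h.lF i) x a
      have f7 := (abs_sub _ _).trans (add_le_add f6 f5)
      have f8 := mul_le_mul (h2 x) f7 (abs_nonneg _) zero_le_one
      rw [← abs_mul] at f8
      rw [f3]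
      refine ((abs_add_le _ _).trans (add_le_add f4 f8)).trans_eq ?_
      ring
  · have e6 : η =ᶠ[𝓝 x] fun _ => 1 := hx
    ext l j
    rw [hD, hx.self_of_nhds, pd, e6.fderiv_eq]
    simp

theorem Core.shrink (h : Core L r A F J u) {r' : ℝ} (h0 : 0 < r') (h1 : r' ≤ r) :
    Core L r' A F J u :=
  ⟨h0, h.ell, h.lA, h.lF, h.lJ, h.lu, h.adm.mono fun _ hx hx' => hx (ball_subset_ball h1 hx')⟩

theorem lip_cut {η f : E 2 → ℝ} {L L' : NNReal} (h1 : LipschitzWith L' η) (h2 : ∀ x, |η x| ≤ 1)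
    (hf : LipschitzWith L f) (a : E 2) :
    LipschitzWith (2 * L + L' * (L * ‖a‖₊)) fun y => η y * (f (y + a) - f y) := by
  refine LipschitzWith.of_dist_le_mul fun x y => ?_
  have e1 := hf.dist_le_mul (x + a) (y + a)
  have e2 := hf.dist_le_mul x y
  have e3 := h1.dist_le_mul x y
  have e4 := hf.dist_le_mul (y + a) y
  rw [dist_add_right] at e1
  rw [dist_self_add_left] at e4
  rw [Real.dist_eq] at e1 e2 e3 e4 ⊢
  have e : η x * (f (x + a) - f x) - η y * (f (y + a) - f y) =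
      η x * ((f (x + a) - f (y + a)) - (f x - f y)) + (η x - η y) * (f (y + a) - f y) := by ring
  have b1 : |η x * ((f (x + a) - f (y + a)) - (f x - f y))| ≤ 1 * (L * dist x y + L * dist x y) := by
    rw [abs_mul]
    exact mul_le_mul (h2 x) ((abs_sub _ _).trans (add_le_add e1 e2)) (abs_nonneg _) zero_le_one
  have b2 : |(η x - η y) * (f (y + a) - f y)| ≤ (L' * dist x y) * (L * ‖a‖) := by
    rw [abs_mul]
    exact mul_le_mul e3 e4 (abs_nonneg _) (by positivity)
  rw [e]
  refine (abs_add_le _ _).trans ((add_le_add b1 b2).trans (le_of_eq ?_))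
  push_cast
  ring

theorem dq_nonneg (u : Fin 2 → E 2 → ℝ) (x y : E 2) : 0 ≤ dq u x y := by
  unfold dq
  positivity

/-- `garding` on a smaller ball (`shrink`), `cut` with a `ContDiffBump`, `integral_det`. -/
theorem Core.l2 (h : Core L r A F J u) : ∃ ρ C : ℝ, 0 < ρ ∧ 0 ≤ C ∧ ∀ a : E 2, ‖a‖ ≤ ρ →
    ∫ x in ball (0 : E 2) ρ, dq u (x + a) x ≤ C * ‖a‖ ^ 2 := by
  obtain ⟨σ, c, C0, hc, hC0, hg⟩ := garding h.ell fun j i l => (h.lA j i l).continuous.continuousAt
  obtain ⟨δ, hδ, hg⟩ := Metric.eventually_nhds_iff.1 hg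
  obtain ⟨s, hs, hsr, hsδ⟩ : ∃ s : ℝ, 0 < s ∧ s ≤ r ∧ s ≤ δ :=
    ⟨min r δ, lt_min h.pos hδ, min_le_left _ _, min_le_right _ _⟩
  let η : ContDiffBump (0 : E 2) := ⟨s / 8, s / 4, by positivity, by linarith⟩
  obtain ⟨L', hL'⟩ : ∃ L', LipschitzWith L' η :=
    ContDiff.lipschitzWith_of_hasCompactSupport (𝕂 := ℝ) (n := 1) η.hasCompactSupport η.contDiff
      (by simp)
  have hη1 : ∀ x, |η x| ≤ 1 := fun x => by
    rw [abs_of_nonneg η.nonneg]
    exact η.le_one
  obtain ⟨C1, hC1⟩ := (h.shrink hs hsr).cut hL' hη1 fun x hx =>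
    η.zero_of_le_dist (by rwa [dist_zero_right])
  refine ⟨s / 8, (volume : Measure (E 2)).real (closedBall 0 (s / 4)) * (C0 * (2 * C1 ^ 2)) / c,
    by positivity, by positivity, fun a ha => ?_⟩
  obtain ⟨hi, h0⟩ := integral_det (v := fun l y => η y * (u l (y + a) - u l y))
    (fun l => lip_cut hL' hη1 (h.lu l) a) fun l => η.hasCompactSupport.mul_right
  have hi2 : Integrable ((closedBall (0 : E 2) (s / 4)).indicator
      fun _ => C0 * (2 * C1 ^ 2) * ‖a‖ ^ 2) :=
    (integrableOn_const (measure_closedBall_lt_top).ne).integrable_indicator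
      measurableSet_closedBall
  have key : ∫ x, (ball (0 : E 2) (s / 8)).indicator (fun x => c * dq u (x + a) x) x ≤
      ∫ x, (σ * (Dm (fun l y => η y * (u l (y + a) - u l y)) x).det +
        (closedBall (0 : E 2) (s / 4)).indicator (fun _ => C0 * (2 * C1 ^ 2) * ‖a‖ ^ 2) x) := by
    refine integral_mono_of_nonneg (Eventually.of_forall fun x => ?_)
      ((hi.const_mul σ).add hi2) ?_
    · exact Set.indicator_nonneg (fun y _ => mul_nonneg hc.le (dq_nonneg _ _ _)) x
    · filter_upwards [hC1 a (by linarith)] with x ⟨k1, k2, k3⟩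
      by_cases hx : x ∈ closedBall (0 : E 2) (s / 4)
      · rw [Set.indicator_of_mem hx]
        have hx' : dist x 0 < δ := lt_of_le_of_lt (mem_closedBall.1 hx) (by linarith)
        have g1 := hg hx' (Dm (fun l y => η y * (u l (y + a) - u l y)) x)
        have g2 : ∑ i, app (A x) (Dm (fun l y => η y * (u l (y + a) - u l y)) x) i ^ 2 ≤
            2 * C1 ^ 2 * ‖a‖ ^ 2 := by
          rw [Fin.sum_univ_two]
          have q0 := sq_le_sq' (abs_le.1 (k1 0)).1 (abs_le.1 (k1 0)).2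
          have q1 := sq_le_sq' (abs_le.1 (k1 1)).1 (abs_le.1 (k1 1)).2
          rw [mul_pow] at q0 q1
          linarith
        have g3 := mul_le_mul_of_nonneg_left g2 hC0
        refine le_trans ?_ (g1.trans (by linarith))
        by_cases hb : x ∈ ball (0 : E 2) (s / 8)
        · rw [Set.indicator_of_mem hb, k3 (η.eventuallyEq_one_of_mem_ball hb)]
          exact le_rfl
        · rw [Set.indicator_of_notMem hb]
          positivity
      · have hb : x ∉ ball (0 : E 2) (s / 8) := fun hb =>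
          hx (ball_subset_closedBall (ball_subset_ball (by linarith) hb))
        rw [Set.indicator_of_notMem hx, Set.indicator_of_notMem hb,
          k2 (by simpa [mem_closedBall_zero_iff] using hx)]
        simp
  rw [integral_indicator measurableSet_ball, integral_const_mul,
    integral_add (hi.const_mul σ) hi2, integral_const_mul, h0,
    integral_indicator measurableSet_closedBall, setIntegral_const, smul_eq_mul] at key
  rw [div_mul_eq_mul_div, le_div_iff₀ hc]
  linarith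

end Pool.Agent.Lib.MP_4bee3f_an.G
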