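import Pool.Agent.Lib.MP_4bee3f_an.G.Cls

/-! Integration by parts for Lipschitz functions; the determinant is a null Lagrangian. -/

namespace Pool.Agent.Lib.MP_4bee3f_an.G

open Filter Topology MeasureTheory Pool.Agent.Lib.MP_4bee3f_an.K

variable {n : ℕ} {f g : E n → ℝ} {L L' : NNReal}

theorem ib_ae_line (hf : LipschitzWith L f) (j : Fin n) :
    ∀ᵐ x : E n, lineDeriv ℝ f x (EuclideanSpace.single j 1) = pd f j x := by
  filter_upwards [hf.ae_differentiableAt (μ := volume)] with x hx
  exact hx.lineDeriv_eq_fderiv

theorem ib_pd_zero (j : Fin n) {x : E n} (hx : x ∉ tsupport g) : pd g j x = 0 := by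
  unfold pd
  have : fderiv ℝ g x = 0 := by
    by_contra h
    exact hx (support_fderiv_subset ℝ (f := g) h)
  simp [this]

theorem ib_mul_int (hf : LipschitzWith L f) (j : Fin n) {h : E n → ℝ} (hh : Integrable h) :
    Integrable fun x => pd f j x * h x :=
  hh.bdd_mul (c := L) (measurable_pd f j).aestronglyMeasurable
    (Eventually.of_forall fun x => abs_pd_le hf j x)

theorem ib_cont_int (hg : LipschitzWith L' g) (hc : HasCompactSupport g) (j : Fin n)
    {h : E n → ℝ} (hh : Continuous h) : Integrable fun x => h x * pd g j x := by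
  have hK : IsCompact (tsupport g) := hc
  have h1 : IntegrableOn h (tsupport g) := hh.continuousOn.integrableOn_compact hK
  have h2 : Integrable (fun x => pd g j x * (tsupport g).indicator h x) :=
    ib_mul_int hg j ((integrable_indicator_iff hK.measurableSet).2 h1)
  refine h2.congr (Eventually.of_forall fun x => ?_)
  by_cases hx : x ∈ tsupport g
  · simp only [Set.indicator_of_mem hx, mul_comm]
  · simp only [ib_pd_zero j hx, zero_mul, mul_zero]

/-- `LipschitzWith.integral_lineDeriv_mul_eq` and Rademacher. -/
theorem ibp (hf : LipschitzWith L f) (hg : LipschitzWith L' g) (hc : HasCompactSupport g)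
    (j : Fin n) : ∫ x, pd f j x * g x = -∫ x, f x * pd g j x := by
  have h := hf.integral_lineDeriv_mul_eq (μ := volume) hg hc (EuclideanSpace.single j 1)
  have e1 : ∫ x, pd f j x * g x = ∫ x, lineDeriv ℝ f x (EuclideanSpace.single j 1) * g x := by
    refine integral_congr_ae ?_
    filter_upwards [ib_ae_line hf j] with x hx
    rw [hx]
  rw [e1, h, ← integral_neg]
  refine integral_congr_ae ?_
  filter_upwards [ib_ae_line hg j] with x hx
  rw [lineDeriv_neg, hx]
  ring

theorem integrable_pd (hg : LipschitzWith L' g) (hc : HasCompactSupport g) (j : Fin n) :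
    Integrable (pd g j) := by
  simpa using ib_cont_int hg hc j (h := fun _ => (1 : ℝ)) continuous_const

theorem ib_shift (hf : LipschitzWith L f) (hg : LipschitzWith L' g) (hc : HasCompactSupport g)
    (j : Fin n) (a : E n) :
    ∫ x, (f (x + a) - f x) * pd g j x = -∫ x, (g (x + -a) - g x) * pd f j x := by
  have hg' : LipschitzWith L' fun x => g (x + -a) := by
    intro x y
    have := hg (x + -a) (y + -a)
    rwa [edist_add_right] at this
  have hc' : HasCompactSupport fun x => g (x + -a) := hc.comp_homeomorph (Homeomorph.addRight (-a))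
  have e1 := ibp hf hg hc j
  have e2 := ibp hf hg' hc' j
  have e3 : ∫ x, f x * pd (fun x => g (x + -a)) j x = ∫ x, f (x + a) * pd g j x := by
    rw [← integral_add_right_eq_self (fun x => f x * pd (fun x => g (x + -a)) j x) a]
    refine integral_congr_ae (Eventually.of_forall fun x => ?_)
    have : pd (fun x => g (x + -a)) j (x + a) = pd g j x := by
      unfold pd
      rw [fderiv_comp_add_right, add_neg_cancel_right]
    simp only [this]
  have i1 : Integrable fun x => f (x + a) * pd g j x :=
    ib_cont_int hg hc j (hf.continuous.comp (continuous_add_const a))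
  have i2 : Integrable fun x => f x * pd g j x := ib_cont_int hg hc j hf.continuous
  have i3 : Integrable fun x => pd f j x * g (x + -a) :=
    ib_mul_int hf j (hg'.continuous.integrable_of_hasCompactSupport hc')
  have i4 : Integrable fun x => pd f j x * g x :=
    ib_mul_int hf j (hg.continuous.integrable_of_hasCompactSupport hc)
  have d1 : ∫ x, (f (x + a) - f x) * pd g j x =
      (∫ x, f (x + a) * pd g j x) - ∫ x, f x * pd g j x := by
    rw [← integral_sub i1 i2]
    exact integral_congr_ae (Eventually.of_forall fun x => sub_mul _ _ _)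
  have d2 : ∫ x, (g (x + -a) - g x) * pd f j x =
      (∫ x, pd f j x * g (x + -a)) - ∫ x, pd f j x * g x := by
    rw [← integral_sub i3 i4]
    exact integral_congr_ae (Eventually.of_forall fun x => by ring)
  rw [d1, d2, e1, e2, e3]
  ring

/-- Use `ibp` with the difference quotient of `g` in direction `m`, move the difference quotient
to `f` by translation, pass to the limit (dominated convergence). -/
theorem nullLag (hf : LipschitzWith L f) (hg : LipschitzWith L' g) (hc : HasCompactSupport g)
    (j m : Fin n) : ∫ x, pd f j x * pd g m x = ∫ x, pd f m x * pd g j x := by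
  set e : E n := EuclideanSpace.single m 1 with he
  have hK : IsCompact (Metric.cthickening ‖e‖ (tsupport g)) := IsCompact.cthickening hc
  set T := Metric.cthickening ‖e‖ (tsupport g) with hT
  have hsub : tsupport g ⊆ T := Metric.self_subset_cthickening _
  have iT : Integrable (T.indicator (pd f j)) := by
    have h1 : Integrable (T.indicator fun _ => (1 : ℝ)) :=
      (integrable_indicator_iff hK.measurableSet).2
        (continuous_const.continuousOn.integrableOn_compact hK)
    refine (ib_mul_int hf j h1).congr (Eventually.of_forall fun x => ?_)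
    by_cases hx : x ∈ T
    · simp only [Set.indicator_of_mem hx, mul_one]
    · simp only [Set.indicator_of_notMem hx, mul_zero]
  have A := hf.integral_inv_smul_sub_mul_tendsto_integral_lineDeriv_mul (μ := volume)
    (integrable_pd hg hc j) e
  have B := (hg.integral_inv_smul_sub_mul_tendsto_integral_lineDeriv_mul (μ := volume) iT (-e)).neg
  have C : ∀ᶠ t : ℝ in 𝓝[>] 0, ∫ x, (t⁻¹ • (f (x + t • e) - f x)) * pd g j x =
      -∫ x, (t⁻¹ • (g (x + t • -e) - g x)) * T.indicator (pd f j) x := by
    filter_upwards [Ioc_mem_nhdsGT (zero_lt_one' ℝ)] with t ht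
    have h1 := ib_shift hf hg hc j (t • e)
    have h2 : ∀ x, (g (x + t • -e) - g x) * T.indicator (pd f j) x =
        (g (x + -(t • e)) - g x) * pd f j x := by
      intro x
      rw [smul_neg]
      by_cases hx : x ∈ T
      · rw [Set.indicator_of_mem hx]
      · have z1 : g x = 0 := image_eq_zero_of_notMem_tsupport fun h => hx (hsub h)
        have z2 : g (x + -(t • e)) = 0 := by
          refine image_eq_zero_of_notMem_tsupport fun h => hx ?_
          refine Metric.mem_cthickening_of_dist_le _ _ _ _ h ?_
          rw [dist_self_add_right, norm_neg, norm_smul, Real.norm_eq_abs, abs_of_pos ht.1]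
          exact mul_le_of_le_one_left (norm_nonneg _) ht.2
        rw [z1, z2, sub_self, zero_mul, zero_mul]
    simp only [smul_eq_mul, mul_assoc, h2]
    rw [integral_const_mul, integral_const_mul, h1, mul_neg]
  have D1 := tendsto_nhds_unique (A.congr' C) B
  have e1 : ∫ x, pd f m x * pd g j x = ∫ x, lineDeriv ℝ f x e * pd g j x := by
    refine integral_congr_ae ?_
    filter_upwards [ib_ae_line hf m] with x hx
    rw [he, hx]
  rw [e1, D1, ← integral_neg]
  refine integral_congr_ae ?_
  filter_upwards [ib_ae_line hg m] with x hx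
  rw [lineDeriv_neg, he, hx]
  by_cases hx : x ∈ T
  · rw [Set.indicator_of_mem hx]
    ring
  · rw [ib_pd_zero m fun h => hx (hsub h)]
    ring

theorem integral_det {v : Fin 2 → E 2 → ℝ} (hv : ∀ l, LipschitzWith L (v l))
    (hc : ∀ l, HasCompactSupport (v l)) :
    Integrable (fun x => (Dm v x).det) ∧ ∫ x, (Dm v x).det = 0 := by
  have e : ∀ x, (Dm v x).det = pd (v 0) 0 x * pd (v 1) 1 x - pd (v 0) 1 x * pd (v 1) 0 x := by
    intro x
    rw [Matrix.det_fin_two]
    rfl
  have i1 : Integrable fun x => pd (v 0) 0 x * pd (v 1) 1 x :=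
    ib_mul_int (hv 0) 0 (integrable_pd (hv 1) (hc 1) 1)
  have i2 : Integrable fun x => pd (v 0) 1 x * pd (v 1) 0 x :=
    ib_mul_int (hv 0) 1 (integrable_pd (hv 1) (hc 1) 0)
  simp only [e]
  refine ⟨i1.sub i2, ?_⟩
  rw [integral_sub i1 i2, nullLag (hv 0) (hv 1) (hc 1) 0 1, sub_self]

end Pool.Agent.Lib.MP_4bee3f_an.G
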