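import Pool.Agent.Lib.MP_4bee3f_an.G.Ibp

/-! Mollifiers. -/

namespace Pool.Agent.Lib.MP_4bee3f_an.G

open Filter Topology MeasureTheory Pool.Agent.Lib.MP_4bee3f_an.K

variable {n : ℕ}

/-- A probability kernel supported in the ball of radius `ε`. -/
structure Ker (κ : E n → ℝ) (ε D : ℝ) : Prop where
  eps : 0 < ε
  sm : ContDiff ℝ 2 κ
  pos : ∀ y, 0 ≤ κ y
  supp : ∀ y, ε ≤ ‖y‖ → κ y = 0
  int : ∫ y, κ y = 1
  grad : ∀ m, ∫ y, |pd κ m y| ≤ D / ε

/-- Convolution. -/
noncomputable def cv (κ f : E n → ℝ) (x : E n) : ℝ := ∫ y, κ y * f (x - y)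

variable {κ f : E n → ℝ} {ε D : ℝ} {L : NNReal}

/-- Scale one normed bump function. -/
theorem exists_ker (n : ℕ) : ∃ D : ℝ, 0 ≤ D ∧ ∀ ε, 0 < ε → ∃ κ : E n → ℝ, Ker κ ε D := by
  let φ : ContDiffBump (0 : E n) := ⟨1 / 2, 1, by norm_num, by norm_num⟩
  obtain ⟨ψ, hψ⟩ : ∃ ψ : E n → ℝ, ψ = φ.normed volume := ⟨_, rfl⟩
  have h1 : ContDiff ℝ 2 ψ := hψ ▸ φ.contDiff_normed
  have h2 : ∀ g : E n → ℝ, ∀ ε : ℝ, 0 < ε → ∫ y, (ε ^ n)⁻¹ * g (ε⁻¹ • y) = ∫ y, g y :=
    fun g ε hε => by
    rw [integral_const_mul, Measure.integral_comp_inv_smul_of_nonneg _ _ hε.le,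
      finrank_euclideanSpace_fin, smul_eq_mul, inv_mul_cancel_left₀ (pow_ne_zero _ hε.ne')]
  have h3 : ∀ m, 0 ≤ ∫ y, |pd ψ m y| := fun m => integral_nonneg fun _ => abs_nonneg _
  refine ⟨∑ m, ∫ y, |pd ψ m y|, Finset.sum_nonneg fun m _ => h3 m, fun ε hε =>
    ⟨fun y => (ε ^ n)⁻¹ * ψ (ε⁻¹ • y), hε, contDiff_const.mul (h1.comp (contDiff_const_smul _)),
      fun y => mul_nonneg (by positivity) (hψ ▸ φ.nonneg_normed _), fun y hy => ?_, ?_,
      fun m => ?_⟩⟩
  · have : ε⁻¹ • y ∉ Function.support ψ := by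
      rw [hψ, φ.support_normed_eq, mem_ball_zero_iff, norm_smul, Real.norm_eq_abs,
        abs_of_pos (inv_pos.2 hε), not_lt]
      exact (le_inv_mul_iff₀ hε).2 (by simpa [φ] using hy)
    rw [Function.notMem_support.1 this, mul_zero]
  · rw [h2 ψ ε hε, hψ, φ.integral_normed]
  · have e : ∀ y, |pd (fun y => (ε ^ n)⁻¹ * ψ (ε⁻¹ • y)) m y| =
        (ε ^ n)⁻¹ * (ε⁻¹ * |pd ψ m (ε⁻¹ • y)|) := fun y => by
      have d := (((h1.differentiable two_ne_zero (ε⁻¹ • y)).hasFDerivAt.comp y
        ((hasFDerivAt_id y).const_smul ε⁻¹))).const_mul (ε ^ n)⁻¹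
      rw [pd, pd, show fderiv ℝ (fun y => (ε ^ n)⁻¹ * ψ (ε⁻¹ • y)) y = _ from d.fderiv]
      simp [abs_mul, abs_of_pos hε]
    simp only [e]
    rw [h2 (fun y => ε⁻¹ * |pd ψ m y|) ε hε, integral_const_mul, div_eq_inv_mul]
    exact mul_le_mul_of_nonneg_left (Finset.single_le_sum (fun m _ => h3 m) (Finset.mem_univ m))
      (inv_pos.2 hε).le

theorem Ker.hcs (h : Ker κ ε D) : HasCompactSupport κ := by
  refine HasCompactSupport.intro (isCompact_closedBall 0 ε) fun y hy => h.supp y ?_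
  rw [mem_closedBall_zero_iff, not_le] at hy
  exact hy.le

theorem Ker.pd_zero (h : Ker κ ε D) (m : Fin n) {y : E n} (hy : ε < ‖y‖) : pd κ m y = 0 := by
  have : κ =ᶠ[𝓝 y] fun _ => 0 :=
    ((isOpen_lt continuous_const continuous_norm).eventually_mem hy).mono fun z hz =>
      h.supp z (le_of_lt hz)
  rw [pd, this.fderiv_eq]
  simp

theorem Ker.cont_pd (h : Ker κ ε D) (m : Fin n) : Continuous (pd κ m) := by
  exact (h.sm.continuous_fderiv two_ne_zero).clm_apply continuous_const

theorem Ker.integrable_pd (h : Ker κ ε D) (m : Fin n) : Integrable (pd κ m) := by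
  refine (h.cont_pd m).integrable_of_hasCompactSupport
    (HasCompactSupport.intro (isCompact_closedBall 0 ε) fun y hy => h.pd_zero m ?_)
  rwa [mem_closedBall_zero_iff, not_le] at hy

theorem Ker.int_pd (h : Ker κ ε D) (m : Fin n) : ∫ y, pd κ m y = 0 := by
  have := integral_mul_fderiv_eq_neg_fderiv_mul_of_integrable (μ := volume)
    (f := fun _ : E n => (1 : ℝ)) (g := κ) (v := EuclideanSpace.single m 1) (by simp)
    (by simp only [one_mul]; exact h.integrable_pd m)
    (by simpa using h.sm.continuous.integrable_of_hasCompactSupport h.hcs)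
    (fun _ _ => differentiableAt_const _) fun _ _ => h.sm.differentiable two_ne_zero _
  simpa [pd] using this

theorem mol_cv_eq (κ f : E n → ℝ) :
    cv κ f = MeasureTheory.convolution κ f (ContinuousLinearMap.mul ℝ ℝ) volume := rfl

theorem Ker.cv_sm (h : Ker κ ε D) (hf : LipschitzWith L f) : ContDiff ℝ 2 (cv κ f) := by
  rw [mol_cv_eq]
  exact h.hcs.contDiff_convolution_left (n := 2) _ h.sm hf.continuous.locallyIntegrable

theorem Ker.cv_close (h : Ker κ ε D) (hf : LipschitzWith L f) (x : E n) :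
    |cv κ f x - f x| ≤ L * ε := by
  have hκ : Continuous κ := h.sm.continuous
  have hi : Integrable κ := hκ.integrable_of_hasCompactSupport h.hcs
  have hc : Continuous fun y => f (x - y) := hf.continuous.comp (continuous_const.sub continuous_id)
  have h1 : Integrable fun y => κ y * f (x - y) :=
    (hκ.mul hc).integrable_of_hasCompactSupport h.hcs.mul_right
  have h2 : cv κ f x - f x = ∫ y, (κ y * f (x - y) - κ y * f x) := by
    rw [integral_sub h1 (hi.mul_const _), integral_mul_const, h.int, one_mul]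
    rfl
  have h3 : ∫ y, κ y * (L * ε) = L * ε := by
    rw [integral_mul_const, h.int, one_mul]
  rw [h2, ← h3, ← Real.norm_eq_abs]
  refine norm_integral_le_of_norm_le (hi.mul_const _) (Eventually.of_forall fun y => ?_)
  rw [← mul_sub, Real.norm_eq_abs, abs_mul, abs_of_nonneg (h.pos y)]
  by_cases hy : ε ≤ ‖y‖
  · simp [h.supp y hy]
  · refine mul_le_mul_of_nonneg_left ?_ (h.pos y)
    have h4 := hf.dist_le_mul (x - y) x
    rw [Real.dist_eq, dist_eq_norm, sub_sub_cancel_left, norm_neg] at h4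
    exact h4.trans (mul_le_mul_of_nonneg_left (not_le.1 hy).le L.2)

/-- `HasCompactSupport.hasFDerivAt_convolution_left`. -/
theorem Ker.pd_cv' (h : Ker κ ε D) (hf : LocallyIntegrable f) (m : Fin n) (x : E n) :
    pd (cv κ f) m x = cv (pd κ m) f x := by
  have h1 : ContDiff ℝ 1 κ := h.sm.of_le (by norm_num)
  have h2 := h.hcs.hasFDerivAt_convolution_right (ContinuousLinearMap.mul ℝ ℝ).flip hf h1 x
  rw [convolution_flip, ← mol_cv_eq] at h2
  rw [pd, h2.fderiv, convolution_precompR_apply _ hf (h.hcs.fderiv ℝ)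
    (h1.continuous_fderiv one_ne_zero), convolution_flip, mol_cv_eq]
  rfl

theorem mol_pd_comp_sub (f : E n → ℝ) (j : Fin n) (x y : E n) :
    pd (fun z => f (x - z)) j y = -pd f j (x - y) := by
  have h0 : ∀ a b : E n, HasFDerivAt (fun z : E n => a - z) (-ContinuousLinearMap.id ℝ (E n)) b :=
    fun a b => (hasFDerivAt_id b).const_sub a
  by_cases hd : DifferentiableAt ℝ f (x - y)
  · have h1 := hd.hasFDerivAt.comp y (h0 x y)
    have h2 : fderiv ℝ (fun z => f (x - z)) y = _ := h1.fderiv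
    simp [pd, h2]
  · have h1 : ¬ DifferentiableAt ℝ (fun z => f (x - z)) y := by
      intro h2
      apply hd
      have h3 : DifferentiableAt ℝ (fun z => f (x - z)) (x - (x - y)) := by
        rwa [sub_sub_cancel]
      have h4 := h3.comp (x - y) (h0 x (x - y)).differentiableAt
      have h5 : ((fun z => f (x - z)) ∘ fun z => x - z) = f := by
        funext z
        simp
      rwa [h5] at h4
    simp [pd, fderiv_zero_of_not_differentiableAt hd, fderiv_zero_of_not_differentiableAt h1]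

theorem mol_locInt_pd (hf : LipschitzWith L f) (j : Fin n) : LocallyIntegrable (pd f j) := by
  have hm : Measurable (pd f j) := measurable_fderiv_apply_const ℝ f _
  have hb : MemLp (pd f j) ⊤ volume := by
    refine memLp_top_of_bound hm.aestronglyMeasurable L (Eventually.of_forall fun x => ?_)
    refine ((fderiv ℝ f x).le_opNorm _).trans ?_
    simpa using norm_fderiv_le_of_lipschitz ℝ hf
  exact hb.locallyIntegrable le_top

theorem Ker.pd_cv (h : Ker κ ε D) (hf : LipschitzWith L f) (j : Fin n) (x : E n) :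
    pd (cv κ f) j x = cv κ (pd f j) x := by
  have h1 : ContDiff ℝ 1 κ := h.sm.of_le (by norm_num)
  obtain ⟨L', hL'⟩ := h1.lipschitzWith_of_hasCompactSupport h.hcs one_ne_zero
  have h2 : LipschitzWith L fun z => f (x - z) := by
    refine LipschitzWith.of_dist_le_mul fun a b => ?_
    have h0 := hf.dist_le_mul (x - a) (x - b)
    rwa [dist_sub_left] at h0
  have h3 := ibp h2 hL' h.hcs j
  rw [h.pd_cv' hf.continuous.locallyIntegrable]
  simp only [mol_pd_comp_sub, neg_mul, integral_neg, neg_inj] at h3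
  simp only [cv, mul_comm (κ _), mul_comm (pd κ j _)]
  exact h3.symm

theorem Ker.pd_pd_cv (h : Ker κ ε D) (hf : LipschitzWith L f) (j m : Fin n) (x : E n) :
    pd (pd (cv κ f) j) m x = cv (pd κ m) (pd f j) x := by
  have h1 : pd (cv κ f) j = cv κ (pd f j) := funext fun z => h.pd_cv hf j z
  rw [h1, h.pd_cv' (mol_locInt_pd hf j)]

end Pool.Agent.Lib.MP_4bee3f_an.G
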