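import Pool.Agent.Lib.MP_4bee3f_an.G.Defs

/-! A complex characteristic of the system together with the linearised Jacobian. -/

namespace Pool.Agent.Lib.MP_4bee3f_an.G

open Matrix

variable {n : ℕ}

/-- Hautus test: if the matrix with rows `r M^i` is singular, an eigenvector is killed by `r`
(Cayley-Hamilton `Matrix.pow_eq_aeval_mod_charpoly`, invariant subspace, eigenvalue). -/
theorem hautus (M : Matrix (Fin n) (Fin n) ℂ) (r : Fin n → ℂ)
    (h : (Matrix.of fun i : Fin n => r ᵥ* M ^ (i : ℕ)).det = 0) :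
    ∃ (v : Fin n → ℂ) (μ : ℂ), v ≠ 0 ∧ M *ᵥ v = μ • v ∧ r ⬝ᵥ v = 0 := by
  obtain ⟨w, hw0, hw⟩ := exists_mulVec_eq_zero_iff.mpr h
  have hn : 0 < n := by
    obtain ⟨i, -⟩ := Function.ne_iff.mp hw0
    exact i.pos
  have hlt : ∀ i < n, (r ᵥ* M ^ i) ⬝ᵥ w = 0 := fun i hi => congrFun hw ⟨i, hi⟩
  have hdeg : M.charpoly.natDegree = n := by rw [charpoly_natDegree_eq_dim, Fintype.card_fin]
  have hall : ∀ k, (r ᵥ* M ^ k) ⬝ᵥ w = 0 := by
    intro k
    have h1 : M.charpoly ≠ 1 := by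
      intro e
      rw [e, Polynomial.natDegree_one] at hdeg
      omega
    have h2 := Polynomial.natDegree_modByMonic_lt (Polynomial.X ^ k) M.charpoly_monic h1
    rw [hdeg] at h2
    rw [pow_eq_aeval_mod_charpoly, Polynomial.aeval_eq_sum_range' h2, vecMul_sum, sum_dotProduct]
    refine Finset.sum_eq_zero fun i hi => ?_
    rw [vecMul_smul, smul_dotProduct, hlt i (Finset.mem_range.mp hi), smul_zero]
  let W : Submodule ℂ (Fin n → ℂ) :=
    { carrier := {x | ∀ k : ℕ, (r ᵥ* M ^ k) ⬝ᵥ x = 0}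
      add_mem' := fun ha hb k => by rw [dotProduct_add, ha k, hb k, add_zero]
      zero_mem' := fun k => dotProduct_zero _
      smul_mem' := fun c x hx k => by rw [dotProduct_smul, hx k, smul_zero] }
  have hinv : ∀ x ∈ W, M.mulVecLin x ∈ W := by
    intro x hx k
    rw [mulVecLin_apply, dotProduct_mulVec, vecMul_vecMul, ← pow_succ]
    exact hx (k + 1)
  have : Nontrivial W := ⟨⟨⟨w, hall⟩, 0, fun e => hw0 (congrArg Subtype.val e)⟩⟩
  obtain ⟨μ, hμ⟩ := Module.End.exists_eigenvalue (M.mulVecLin.restrict hinv)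
  obtain ⟨v, hv⟩ := hμ.exists_hasEigenvector
  refine ⟨v.1, μ, fun e => hv.2 (Subtype.ext e), congrArg Subtype.val hv.apply_eq_smul, ?_⟩
  have := v.2 0
  rwa [pow_zero, vecMul_one] at this

theorem obs_smul (c : ℂ) (r : Fin n → ℂ) (M : Matrix (Fin n) (Fin n) ℂ) :
    (Matrix.of fun i : Fin n => (c • r) ᵥ* (c • M) ^ (i : ℕ)).det
      = (∏ i : Fin n, c ^ ((i : ℕ) + 1)) * (Matrix.of fun i : Fin n => r ᵥ* M ^ (i : ℕ)).det := by
  rw [← det_mul_column]
  congr 1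
  ext i j
  simp only [of_apply, smul_pow, vecMul_smul, smul_vecMul, Pi.smul_apply, smul_eq_mul]
  ring

theorem obs_poly (X Y : Matrix (Fin n) (Fin n) ℂ) (p q : Fin n → ℂ) :
    ∃ F : Polynomial ℂ, ∀ t : ℂ, F.eval t =
      (Matrix.of fun i : Fin n => (p + t • q) ᵥ* (X + t • Y) ^ (i : ℕ)).det := by
  obtain ⟨r, hr⟩ : ∃ r : Fin n → Polynomial ℂ,
      r = fun l => Polynomial.C (p l) + Polynomial.X * Polynomial.C (q l) := ⟨_, rfl⟩
  obtain ⟨N, hN⟩ : ∃ N : Matrix (Fin n) (Fin n) (Polynomial ℂ),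
      N = Matrix.of fun i l => Polynomial.C (X i l) + Polynomial.X * Polynomial.C (Y i l) :=
    ⟨_, rfl⟩
  refine ⟨(Matrix.of fun i : Fin n => r ᵥ* N ^ (i : ℕ)).det, fun t => ?_⟩
  have e1 : (Polynomial.evalRingHom t) ∘ r = p + t • q := by
    funext l
    simp [hr, mul_comm t]
  have e2 : N.map (Polynomial.evalRingHom t) = X + t • Y := by
    ext i l
    simp [hN, mul_comm t]
  rw [← Polynomial.coe_evalRingHom, RingHom.map_det]
  congr 1
  ext i j
  rw [RingHom.mapMatrix_apply, map_apply, of_apply, of_apply, RingHom.map_vecMul, Matrix.map_pow,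
    e1, e2]

/-- The determinant is homogeneous of positive degree in `(s, t)`: if the polynomial `D (1, t)` has
no root it is a constant `c`, `D (s, 1) = s ^ d * c` for `s ≠ 0`, and `D (0, 1) = 0` by continuity. -/
theorem pencil (hn : 0 < n) (X Y : Matrix (Fin n) (Fin n) ℂ) (p q : Fin n → ℂ) :
    ∃ s t : ℂ, (s = 1 ∨ t = 1) ∧
      (Matrix.of fun i : Fin n => (s • p + t • q) ᵥ* (s • X + t • Y) ^ (i : ℕ)).det = 0 := by
  by_contra hc
  push Not at hc
  obtain ⟨F, hF⟩ := obs_poly X Y p q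
  obtain ⟨F', hF'⟩ := obs_poly Y X q p
  have hd : F.degree = 0 := by
    by_contra hd
    obtain ⟨t, ht⟩ := IsAlgClosed.exists_root F hd
    refine hc 1 t (Or.inl rfl) ?_
    rw [one_smul, one_smul, ← hF]
    exact ht
  have hC := Polynomial.eq_C_of_degree_eq_zero hd
  have hE : F' = (∏ i : Fin n, Polynomial.X ^ ((i : ℕ) + 1)) * F.coeff 0 • 1 := by
    apply Polynomial.eq_of_infinite_eval_eq
    refine ((Set.finite_singleton (0 : ℂ)).infinite_compl).mono fun s hs => ?_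
    have hs' : s ≠ 0 := hs
    have e1 : q + s • p = s • (p + s⁻¹ • q) := by
      rw [smul_add, smul_inv_smul₀ hs', add_comm]
    have e2 : Y + s • X = s • (X + s⁻¹ • Y) := by
      rw [smul_add, smul_inv_smul₀ hs', add_comm]
    change F'.eval s = _
    rw [hF', e1, e2, obs_smul, ← hF, hC]
    simp [Polynomial.eval_prod, mul_comm]
  refine hc 0 1 (Or.inr rfl) ?_
  have h0 := hF' 0
  rw [hE, Polynomial.eval_mul, Polynomial.eval_prod,
    Finset.prod_eq_zero (Finset.mem_univ (⟨0, hn⟩ : Fin n)) (by simp), zero_mul] at h0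
  simpa only [zero_smul, add_zero, zero_add, one_smul] using h0.symm

/-- A complex rank one matrix `v ⊗ ξ` killed by the system and by `Q`. -/
def Chr (A : Fin n → Mat n) (Q : Mat n) (ξ v : Fin n → ℂ) : Prop :=
  (∃ j, ξ j = 1) ∧ (∃ l, v l = 1) ∧ (∀ i, ∑ j, ∑ l, (A j i l : ℂ) * (ξ j * v l) = 0) ∧
    ∑ j, ∑ l, (Q j l : ℂ) * (ξ j * v l) = 0

theorem chr_scale {A : Fin n → Mat n} {Q : Mat n} {ξ v : Fin n → ℂ} (hξ : ∃ j, ξ j = 1)
    (hv : v ≠ 0) (h1 : ∀ i, ∑ j, ∑ l, (A j i l : ℂ) * (ξ j * v l) = 0)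
    (h2 : ∑ j, ∑ l, (Q j l : ℂ) * (ξ j * v l) = 0) : ∃ ξ v, Chr A Q ξ v := by
  obtain ⟨l0, hl⟩ := Function.ne_iff.mp hv
  have hl' : v l0 ≠ 0 := hl
  have key : ∀ F : Fin n → Fin n → ℂ, ∑ j, ∑ l, F j l * (ξ j * v l) = 0 →
      ∑ j, ∑ l, F j l * (ξ j * ((v l0)⁻¹ * v l)) = 0 := by
    intro F hF
    have : ∑ j, ∑ l, F j l * (ξ j * ((v l0)⁻¹ * v l))
        = (v l0)⁻¹ * ∑ j, ∑ l, F j l * (ξ j * v l) := by
      simp only [Finset.mul_sum]
      refine Finset.sum_congr rfl fun j _ => Finset.sum_congr rfl fun l _ => by ring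
    rw [this, hF, mul_zero]
  exact ⟨ξ, fun l => (v l0)⁻¹ * v l, hξ, ⟨l0, inv_mul_cancel₀ hl'⟩,
    fun i => key (fun j l => (A j i l : ℂ)) (h1 i), key (fun j l => (Q j l : ℂ)) h2⟩

/-- The complexified matrix. -/
noncomputable def cx (M : Mat n) : Matrix (Fin n) (Fin n) ℂ := M.map fun x => (x : ℂ)

theorem cx_unit {A : Fin n → Mat n} (hA : Ell A) (j : Fin n) : IsUnit (cx (A j)).det := by
  have h := hA (Pi.single j 1) (by
    intro h0
    have := congrFun h0 j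
    simp at this)
  have e : ∑ i, (Pi.single j (1 : ℝ) : Fin n → ℝ) i • A i = A j := by
    rw [Finset.sum_eq_single j]
    · simp
    · intro b _ hb
      simp [Pi.single_eq_of_ne hb]
    · simp
  rw [e] at h
  have e2 : (cx (A j)).det = ((A j).det : ℂ) := (RingHom.map_det Complex.ofRealHom (A j)).symm
  rw [e2]
  exact isUnit_iff_ne_zero.mpr (by exact_mod_cast h)

theorem sum_cx (A : Fin n → Mat n) (ξ v : Fin n → ℂ) (i : Fin n) :
    ∑ j, ∑ l, (A j i l : ℂ) * (ξ j * v l) = ∑ j, ξ j * (cx (A j) *ᵥ v) i := by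
  refine Finset.sum_congr rfl fun j _ => ?_
  simp only [mulVec, dotProduct, cx, map_apply, Finset.mul_sum]
  exact Finset.sum_congr rfl fun l _ => by ring

theorem sum_row (Q : Mat n) (ξ v : Fin n → ℂ) :
    ∑ j, ∑ l, (Q j l : ℂ) * (ξ j * v l) = ∑ j, ξ j * (cx Q j ⬝ᵥ v) := by
  refine Finset.sum_congr rfl fun j _ => ?_
  simp only [dotProduct, cx, map_apply, Finset.mul_sum]
  exact Finset.sum_congr rfl fun l _ => by ring

theorem cx_cancel {A : Fin n → Mat n} (hA : Ell A) (a b : Fin n) (v : Fin n → ℂ) :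
    cx (A a) *ᵥ ((-((cx (A a))⁻¹ * cx (A b))) *ᵥ v) = -(cx (A b) *ᵥ v) := by
  rw [mulVec_mulVec, Matrix.mul_neg, ← Matrix.mul_assoc, mul_nonsing_inv _ (cx_unit hA a),
    Matrix.one_mul, neg_mulVec]

/-- `X = -(A 0)⁻¹ A 1`, `Y = -(A 0)⁻¹ A 2`, `p = Q 0 X + Q 1`, `q = Q 0 Y + Q 2` (rows of `Q`),
`ξ = (μ, s, t, 0, ...)`; rescale `v`. -/
theorem chr_big (hn : 3 ≤ n) {A : Fin n → Mat n} (hA : Ell A) (Q : Mat n) :
    ∃ ξ v, Chr A Q ξ v := by
  obtain ⟨a, b, c, hab, hac, hbc⟩ : ∃ a b c : Fin n, a ≠ b ∧ a ≠ c ∧ b ≠ c :=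
    ⟨⟨0, by omega⟩, ⟨1, by omega⟩, ⟨2, by omega⟩, by simp, by simp, by simp⟩
  obtain ⟨X, hX⟩ : ∃ X, X = -((cx (A a))⁻¹ * cx (A b)) := ⟨_, rfl⟩
  obtain ⟨Y, hY⟩ : ∃ Y, Y = -((cx (A a))⁻¹ * cx (A c)) := ⟨_, rfl⟩
  obtain ⟨s, t, hst, hdet⟩ := pencil (by omega) X Y (cx Q a ᵥ* X + cx Q b) (cx Q a ᵥ* Y + cx Q c)
  obtain ⟨v, μ, hv, hM, hr⟩ := hautus _ _ hdet
  have hsum : ∀ F : Fin n → ℂ,
      ∑ j, (Pi.single a μ + Pi.single b s + Pi.single c t : Fin n → ℂ) j * F j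
        = μ * F a + s * F b + t * F c := by
    intro F
    simp only [Pi.add_apply, add_mul, Finset.sum_add_distrib, Pi.single_apply, ite_mul, zero_mul,
      Finset.sum_ite_eq', Finset.mem_univ, if_true]
  have hM' : μ • v = s • (X *ᵥ v) + t • (Y *ᵥ v) := by
    rw [← hM, add_mulVec, smul_mulVec, smul_mulVec]
  refine chr_scale (ξ := Pi.single a μ + Pi.single b s + Pi.single c t) ?_ hv (fun i => ?_) ?_
  · rcases hst with h | h
    · exact ⟨b, by simp [Pi.single_eq_of_ne hab.symm, Pi.single_eq_of_ne hbc, h]⟩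
    · exact ⟨c, by simp [Pi.single_eq_of_ne hac.symm, Pi.single_eq_of_ne hbc.symm, h]⟩
  · rw [sum_cx, hsum fun j => (cx (A j) *ᵥ v) i]
    have h := congrArg (fun w => (cx (A a) *ᵥ w) i) hM'
    simp only [mulVec_add, mulVec_smul, hX, hY, cx_cancel hA, Pi.add_apply, Pi.smul_apply,
      Pi.neg_apply, smul_eq_mul] at h
    linear_combination h
  · rw [sum_row, hsum fun j => cx Q j ⬝ᵥ v]
    have h := congrArg (fun w => cx Q a ⬝ᵥ w) hM'
    simp only [dotProduct_add, dotProduct_smul, smul_eq_mul, dotProduct_mulVec] at h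
    simp only [add_dotProduct, smul_dotProduct, smul_eq_mul] at hr
    linear_combination h + hr

/-- An eigenvector of `-(A 0)⁻¹ A 1`; real and imaginary part of `v ⊗ ξ` lie in the kernel. -/
theorem chr_two {A : Fin 2 → Mat 2} (hA : Ell A) {Q : Mat 2}
    (h : ∀ M, (∀ i, app A M i = 0) → (Q * M).trace = 0) : ∃ ξ v, Chr A Q ξ v := by
  obtain ⟨v, μ, hv, hM, -⟩ := hautus (-((cx (A 0))⁻¹ * cx (A 1))) 0 (by
    simp only [zero_vecMul]
    exact det_eq_zero_of_row_eq_zero 0 fun _ => rfl)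
  have h1 : ∀ i, ∑ j, ∑ l, (A j i l : ℂ) * ((![μ, 1] : Fin 2 → ℂ) j * v l) = 0 := by
    intro i
    rw [sum_cx, Fin.sum_univ_two]
    have h := congrArg (fun w => (cx (A 0) *ᵥ w) i) hM
    simp only [mulVec_smul, cx_cancel hA, Pi.smul_apply, Pi.neg_apply, smul_eq_mul] at h
    simp only [cons_val_zero, cons_val_one, cons_val_fin_one]
    linear_combination -h
  refine chr_scale (ξ := ![μ, 1]) ⟨1, rfl⟩ hv h1 ?_
  have hre := h (Matrix.of fun l j => ((![μ, 1] : Fin 2 → ℂ) j * v l).re) fun i => by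
    have := congrArg Complex.re (h1 i)
    simpa only [app, of_apply, Complex.re_sum, Complex.re_ofReal_mul, Complex.zero_re] using this
  have him := h (Matrix.of fun l j => ((![μ, 1] : Fin 2 → ℂ) j * v l).im) fun i => by
    have := congrArg Complex.im (h1 i)
    simpa only [app, of_apply, Complex.im_sum, Complex.im_ofReal_mul, Complex.zero_im] using this
  apply Complex.ext
  · simpa only [trace, diag_apply, mul_apply, of_apply, Complex.re_sum, Complex.re_ofReal_mul,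
      Complex.zero_re] using hre
  · simpa only [trace, diag_apply, mul_apply, of_apply, Complex.im_sum, Complex.im_ofReal_mul,
      Complex.zero_im] using him

end Pool.Agent.Lib.MP_4bee3f_an.G
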