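import Pool.Agent.Lib.MP_4bee3f_an.G.NegA
import Pool.Agent.Lib.MP_4bee3f_an.NotLip

/-! The singular function along a complex linear form, and a determinant formula. -/

namespace Pool.Agent.Lib.MP_4bee3f_an.G

open Complex Pool.Agent.Lib.MP_4bee3f_an.K
open scoped ComplexConjugate

variable {n : ℕ}

/-- Write the perturbation as an `n × 2` times a `2 × n` matrix (`Matrix.det_one_add_mul_comm`). -/
theorem det_rank2 {P : Mat n} (hP : P.det ≠ 0) (v w : Fin n → ℂ) :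
    (P + Matrix.of fun l j => (v l * w j).re).det = P.det *
      (‖1 + (∑ j, ∑ l, (P⁻¹ j l : ℂ) * (w j * v l)) / 2‖ ^ 2 -
        ‖(∑ j, ∑ l, (P⁻¹ j l : ℂ) * (w j * conj (v l))) / 2‖ ^ 2) := by
  set U : Matrix (Fin n) (Fin 2) ℝ := Matrix.of fun l s => ![(v l).re, -(v l).im] s with hU
  set W : Matrix (Fin 2) (Fin n) ℝ := Matrix.of fun s j => ![(w j).re, (w j).im] s with hW
  have e : (Matrix.of fun l j => (v l * w j).re) = U * W := by
    ext l j
    simp [hU, hW, Matrix.mul_apply, Fin.sum_univ_two]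
    ring
  rw [e, Matrix.det_add_mul U W (isUnit_iff_ne_zero.2 hP)]
  congr 1
  set Q := P⁻¹
  have ent : ∀ s t, (W * Q * U) s t = ∑ j, ∑ l, Q j l * (W s j * U l t) := fun s t => by
    simp only [Matrix.mul_apply, Finset.sum_mul]
    rw [Finset.sum_comm]
    exact Finset.sum_congr rfl fun j _ => Finset.sum_congr rfl fun l _ => by ring
  set a := ∑ j, ∑ l, Q j l * ((w j).re * (v l).re) with ha
  set b := ∑ j, ∑ l, Q j l * ((w j).re * (v l).im) with hb
  set c := ∑ j, ∑ l, Q j l * ((w j).im * (v l).re) with hc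
  set d := ∑ j, ∑ l, Q j l * ((w j).im * (v l).im) with hd
  have e00 : (W * Q * U) 0 0 = a := by rw [ent]; simp [hU, hW, ha]
  have e01 : (W * Q * U) 0 1 = -b := by rw [ent]; simp [hU, hW, hb]
  have e10 : (W * Q * U) 1 0 = c := by rw [ent]; simp [hU, hW, hc]
  have e11 : (W * Q * U) 1 1 = -d := by rw [ent]; simp [hU, hW, hd]
  have s1 : ∑ j, ∑ l, (Q j l : ℂ) * (w j * v l) = ⟨a - d, b + c⟩ := by
    apply Complex.ext
    · simp only [re_sum, mul_re, mul_im, ofReal_re, ofReal_im, ha, hd, ← Finset.sum_sub_distrib]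
      exact Finset.sum_congr rfl fun j _ => Finset.sum_congr rfl fun l _ => by ring
    · simp only [im_sum, mul_re, mul_im, ofReal_re, ofReal_im, hb, hc, ← Finset.sum_add_distrib]
      exact Finset.sum_congr rfl fun j _ => Finset.sum_congr rfl fun l _ => by ring
  have s2 : ∑ j, ∑ l, (Q j l : ℂ) * (w j * conj (v l)) = ⟨a + d, c - b⟩ := by
    apply Complex.ext
    · simp only [re_sum, mul_re, mul_im, ofReal_re, ofReal_im, ha, hd, ← Finset.sum_add_distrib,
        conj_re, conj_im]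
      exact Finset.sum_congr rfl fun j _ => Finset.sum_congr rfl fun l _ => by ring
    · simp only [im_sum, mul_re, mul_im, ofReal_re, ofReal_im, hb, hc, ← Finset.sum_sub_distrib,
        conj_re, conj_im]
      exact Finset.sum_congr rfl fun j _ => Finset.sum_congr rfl fun l _ => by ring
  rw [s1, s2, Matrix.det_fin_two]
  simp only [Matrix.add_apply, e00, e01, e10, e11, Matrix.one_apply_eq, Complex.sq_norm,
    normSq_apply]
  simp
  ring

/-- The complex linear form with coefficients `ξ`. -/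
noncomputable def lf (ξ : Fin n → ℂ) : E n →L[ℝ] ℂ :=
  ∑ j, ξ j • ofRealCLM.comp (EuclideanSpace.proj j)

/-- The singular function and its two derivatives. -/
noncomputable def sg (ξ : Fin n → ℂ) (k : ℕ) (x : E n) : ℂ := m ((k + 1 : ℕ) + 1) 0 1 0 (lf ξ x)
noncomputable def sP (ξ : Fin n → ℂ) (k : ℕ) (x : E n) : ℂ := mP ((k + 1 : ℕ) + 1) 0 1 0 (lf ξ x)
noncomputable def sQ (ξ : Fin n → ℂ) (k : ℕ) (x : E n) : ℂ := mQ ((k + 1 : ℕ) + 1) 0 1 0 (lf ξ x)

/-- The solution. -/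
noncomputable def su (P : Mat n) (ξ v : Fin n → ℂ) (k : ℕ) (l : Fin n) (x : E n) : ℝ :=
  (v l * sg ξ k x).re + ∑ j, P l j * x j

variable (P : Mat n) (ξ v : Fin n → ℂ) (k : ℕ)

theorem lf_single (j : Fin n) : lf ξ (EuclideanSpace.single j 1) = ξ j := by
  simp only [lf, sum_apply, smul_apply,
    ContinuousLinearMap.comp_apply, ofRealCLM_apply, EuclideanSpace.coe_proj, PiLp.single_apply,
    smul_eq_mul]
  rw [Finset.sum_eq_single j] <;> simp +contextual

theorem cd_sQ : ContDiffOn ℝ (k + 1 : ℕ) (sQ ξ k) {x | ‖lf ξ x‖ < 1} ∧ sQ ξ k 0 = 0 := by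
  have o : Ok (k + 1) ((k + 1 : ℕ) + 1) (-1) 1 := by unfold Ok; omega
  have e : sQ ξ k = fun x => m ((k + 1 : ℕ) + 1) (-1) 0 1 (lf ξ x) := by
    ext x
    simp [sQ, mQ]
  rw [e]
  exact ⟨cd_pi _ 0 o, by simp only [map_zero, m_zero o]⟩

/-- As `cd_P` in `Ex.lean`. -/
theorem cd_sP : ContDiffOn ℝ (k + 1 : ℕ) (fun x => ‖sP ξ k x‖ ^ 2) {x | ‖lf ξ x‖ < 1} ∧
    sP ξ k 0 = 0 := by
  have o : ∀ t, Ok (k + 1) (k + 1 : ℕ) (k + 1 : ℕ) t := fun t => by unfold Ok; omega
  have e : ∀ x, sP ξ k x = (lf ξ x) ^ ((k + 1 : ℕ) : ℤ) *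
      ((k + 2) * (ll (lf ξ x) : ℂ) + (L (lf ξ x) : ℂ)⁻¹) := fun x => by
    simp only [sP, mP, m, add_sub_cancel_right, zpow_zero]
    push_cast
    ring
  refine ⟨(cd_re (((contDiffOn_const (c := ((k : ℂ) + 2) ^ 2)).mul (cd_pi (lf ξ) 2 (o 0))).add
    (((contDiffOn_const (c := 2 * ((k : ℂ) + 2))).mul (cd_pi (lf ξ) 1 (o 1))).add
      (cd_pi (lf ξ) 0 (o 2))))).congr fun x _ => ?_, ?_⟩
  · have e2 : ‖sP ξ k x‖ ^ 2 = (sP ξ k x * conj (sP ξ k x)).re := by
      rw [mul_conj, ofReal_re, normSq_eq_norm_sq]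
    rw [e2]
    congr 1
    rw [e]
    simp only [map_mul, map_add, map_zpow₀, map_natCast, map_ofNat, conj_ofReal, map_inv₀, m]
    ring
  · rw [e, map_zero, zero_zpow _ (by omega), zero_mul]

theorem cd_su (l : Fin n) : ContDiffOn ℝ (k + 1 : ℕ) (su P ξ v k l) {x | ‖lf ξ x‖ < 1} := by
  have o : Ok (k + 1) ((k + 1 : ℕ) + 1) 0 0 := by unfold Ok; omega
  exact (cd_re (contDiffOn_const.mul (cd_pi (lf ξ) 1 o))).add
    (ContDiffOn.sum fun j _ => contDiffOn_const.mul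
      (EuclideanSpace.proj j : E n →L[ℝ] ℝ).contDiff.contDiffOn)

theorem Dm_su {x : E n} (hx : ‖lf ξ x‖ < 1) : Dm (su P ξ v k) x =
    P + Matrix.of fun l j => (v l * (sP ξ k x * ξ j + sQ ξ k x * conj (ξ j))).re := by
  have o : Ok (k + 1) ((k + 1 : ℕ) + 1) 0 0 := by unfold Ok; omega
  ext l j
  have h := (reCLM.hasFDerivAt.comp x ((hasD_pi (lf ξ) 1 o hx).const_mul (v l))).add
    (HasFDerivAt.fun_sum (u := Finset.univ) fun i _ =>
      (EuclideanSpace.proj i : E n →L[ℝ] ℝ).hasFDerivAt.const_mul (P l i))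
  have h2 : fderiv ℝ (su P ξ v k l) x = _ := h.fderiv
  rw [Dm, Matrix.of_apply, pd, h2]
  simp only [add_apply, smul_apply,
    ContinuousLinearMap.comp_apply, sum_apply, EuclideanSpace.coe_proj,
    PiLp.single_apply, smul_eq_mul, lf_single, D_apply, reCLM_apply, Matrix.add_apply,
    Matrix.of_apply, sP, sQ]
  rw [Finset.sum_eq_single j] <;> simp +contextual [add_comm]

/-- `notP` and `neither`. -/
theorem not_sm {j l : Fin n} (hj : ξ j = 1) (hl : v l = 1) (lip : Bool) {V : Set (E n)}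
    (hV : IsOpen V) (h0 : 0 ∈ V) : ¬ Sm lip (k + 1) (su P ξ v k l) V := by
  have h := notP (lf ξ) (EuclideanSpace.single j 1) (by rw [lf_single, hj]) (k + 1) 1
    (fun x => ∑ i, P l i * x i) one_ne_zero (ContDiffAt.sum fun i _ => contDiffAt_const.mul
      (EuclideanSpace.proj i : E n →L[ℝ] ℝ).contDiff.contDiffAt)
  have e : su P ξ v k l = fun x =>
      1 * (m ((k + 1 : ℕ) + 1) 0 1 0 (lf ξ x)).re + ∑ i, P l i * x i := by
    ext x
    simp only [su, sg, hl, one_mul]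
  have h2 := neither hV h0 (e ▸ h)
  unfold Sm
  split_ifs
  · exact h2.1
  · intro h3
    refine h2.2 ?_
    have e3 : ((k + 1 : ℕ) : WithTop ℕ∞) + 1 = k + 2 := by push_cast; ring
    rwa [e3] at h3

end Pool.Agent.Lib.MP_4bee3f_an.G
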