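import Pool.Agent.Lib.MP_4bee3f_an.G.Cls
import Pool.Agent.Lib.MP_4bee3f_an.NotLip

/-! The two scales of smoothness. -/

namespace Pool.Agent.Lib.MP_4bee3f_an.G

open Filter Topology Pool.Agent.Lib.MP_4bee3f_an.K

variable {n k : ℕ} {U V : Set (E n)} {f g : E n → ℝ} {lip : Bool}

theorem Sm.mono (h : Sm lip k f U) (hV : V ⊆ U) : Sm lip k f V := by
  cases lip
  · exact ContDiffOn.mono (show ContDiffOn ℝ (k + 1) f U from h) hV
  · obtain ⟨h1, h2⟩ : CLip k f U := h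
    exact (⟨h1.mono hV, fun x hx => h2 x (hV hx)⟩ : CLip k f V)

theorem Sm.congr (hU : IsOpen U) (h : Sm lip k f U) (e : ∀ x ∈ U, g x = f x) : Sm lip k g U := by
  cases lip
  · exact ContDiffOn.congr (show ContDiffOn ℝ (k + 1) f U from h) e
  · obtain ⟨h1, h2⟩ : CLip k f U := h
    refine (⟨h1.congr e, fun x hx => ?_⟩ : CLip k g U)
    obtain ⟨C, W, hW, h3⟩ := h2 x hx
    have e1 : g =ᶠ[𝓝 x] f := eventually_of_mem (hU.mem_nhds hx) e
    refine ⟨C, W ∩ {y | iteratedFDeriv ℝ k g y = iteratedFDeriv ℝ k f y},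
      inter_mem hW (e1.iteratedFDeriv ℝ k), fun y hy z hz => ?_⟩
    rw [hy.2, hz.2]
    exact h3 hy.1 hz.1

theorem lip_zero_iff {C : NNReal} {W : Set (E n)} :
    LipschitzOnWith C (iteratedFDeriv ℝ 0 f) W ↔ LipschitzOnWith C f W := by
  simp only [lipschitzOnWith_iff_dist_le_mul, iteratedFDeriv_zero_eq_comp, Function.comp_apply,
    LinearIsometryEquiv.dist_map]

theorem sm_true_zero : Sm true 0 f U ↔
    ∀ x ∈ U, ∃ C : NNReal, ∃ W ∈ 𝓝 x, LipschitzOnWith C f W := by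
  constructor
  · intro h x hx
    obtain ⟨C, W, hW, h3⟩ := (show CLip 0 f U from h).2 x hx
    exact ⟨C, W, hW, lip_zero_iff.1 h3⟩
  · intro h
    refine (⟨?_, fun x hx => ?_⟩ : CLip 0 f U)
    · refine contDiffOn_zero.2 fun x hx => ?_
      obtain ⟨C, W, hW, h3⟩ := h x hx
      exact (h3.continuousOn.continuousAt hW).continuousWithinAt
    · obtain ⟨C, W, hW, h3⟩ := h x hx
      exact ⟨C, W, hW, lip_zero_iff.2 h3⟩

theorem cd_fderiv_iff {m : ℕ} :
    ContDiffOn ℝ m (fderiv ℝ f) U ↔ ∀ j, ContDiffOn ℝ m (pd f j) U := by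
  constructor
  · intro h j
    exact h.clm_apply contDiffOn_const
  · intro h
    have e : fderiv ℝ f = fun x => ∑ j, pd f j x • (EuclideanSpace.proj j : E n →L[ℝ] ℝ) :=
      funext (fderiv_eq_sum' f)
    rw [e]
    exact ContDiffOn.sum fun j _ => (h j).smul contDiffOn_const

theorem cd_succ_iff (hU : IsOpen U) {m : ℕ} : ContDiffOn ℝ (m + 1) f U ↔
    DifferentiableOn ℝ f U ∧ ∀ j, ContDiffOn ℝ m (pd f j) U := by
  rw [contDiffOn_succ_iff_fderiv_of_isOpen hU, cd_fderiv_iff]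
  simp

theorem sm_false_zero (hU : IsOpen U) : Sm false 0 f U ↔
    DifferentiableOn ℝ f U ∧ ∀ j, ContinuousOn (pd f j) U := by
  have h := cd_succ_iff (f := f) hU (m := 0)
  simp only [Nat.cast_zero, contDiffOn_zero] at h
  refine Iff.trans ?_ h
  simp [Sm]

/-- evaluation of a functional at a basis vector -/
noncomputable def evj (j : Fin n) : (E n →L[ℝ] ℝ) →L[ℝ] ℝ :=
  ContinuousLinearMap.apply ℝ ℝ (EuclideanSpace.single j (1 : ℝ))

theorem norm_le_sum_evj (L : E n →L[ℝ] ℝ) : ‖L‖ ≤ ∑ j, ‖evj j L‖ := by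
  refine L.opNorm_le_bound (by positivity) fun a => ?_
  have e := fderiv_eq_sum (fun x => L x) 0 a
  simp only [pd, L.fderiv] at e
  rw [e, Finset.sum_mul]
  refine (norm_sum_le _ _).trans (Finset.sum_le_sum fun j _ => ?_)
  rw [norm_mul, mul_comm]
  exact mul_le_mul_of_nonneg_left (PiLp.norm_apply_le a j) (norm_nonneg _)

theorem norm_le_sum_evj' (M : ContinuousMultilinearMap ℝ (fun _ : Fin k => E n) (E n →L[ℝ] ℝ)) :
    ‖M‖ ≤ ∑ j, ‖(evj j).compContinuousMultilinearMap M‖ := by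
  refine M.opNorm_le_bound (by positivity) fun w => (norm_le_sum_evj _).trans ?_
  rw [Finset.sum_mul]
  exact Finset.sum_le_sum fun j _ => ((evj j).compContinuousMultilinearMap M).le_opNorm w

theorem iter_pd_sub (hU : IsOpen U) (h : ContDiffOn ℝ k (fderiv ℝ f) U) (j : Fin n) {x y : E n}
    (hx : x ∈ U) (hy : y ∈ U) :
    iteratedFDeriv ℝ k (pd f j) x - iteratedFDeriv ℝ k (pd f j) y =
      (evj j).compContinuousMultilinearMap
        (iteratedFDeriv ℝ k (fderiv ℝ f) x - iteratedFDeriv ℝ k (fderiv ℝ f) y) := by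
  have e : ∀ x ∈ U, iteratedFDeriv ℝ k (pd f j) x =
      (evj j).compContinuousMultilinearMap (iteratedFDeriv ℝ k (fderiv ℝ f) x) := fun x hx =>
    (evj j).iteratedFDeriv_comp_left (h.contDiffAt (hU.mem_nhds hx)) le_rfl
  rw [e x hx, e y hy]
  ext w
  simp

theorem dist_iter_succ (x y : E n) :
    dist (iteratedFDeriv ℝ (k + 1) f x) (iteratedFDeriv ℝ (k + 1) f y) =
      ‖iteratedFDeriv ℝ k (fderiv ℝ f) x - iteratedFDeriv ℝ k (fderiv ℝ f) y‖ := by
  rw [iteratedFDeriv_succ_eq_comp_right, iteratedFDeriv_succ_eq_comp_right, Function.comp_apply,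
    Function.comp_apply, LinearIsometryEquiv.dist_map, dist_eq_norm]

theorem clip_succ_iff (hU : IsOpen U) : CLip (k + 1) f U ↔
    DifferentiableOn ℝ f U ∧ ∀ j, CLip k (pd f j) U := by
  constructor
  · rintro ⟨h1, h2⟩
    obtain ⟨h3, h4⟩ := (cd_succ_iff hU (m := k)).1 (by exact_mod_cast h1)
    refine ⟨h3, fun j => ⟨h4 j, fun x hx => ?_⟩⟩
    obtain ⟨C, W, hW, h5⟩ := h2 x hx
    refine ⟨‖evj j‖₊ * C, W ∩ U, inter_mem hW (hU.mem_nhds hx),
      LipschitzOnWith.of_dist_le_mul fun y hy z hz => ?_⟩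
    have h6 := h5.dist_le_mul y hy.1 z hz.1
    rw [dist_iter_succ] at h6
    rw [dist_eq_norm, iter_pd_sub hU (cd_fderiv_iff.2 h4) j hy.2 hz.2]
    refine ((evj j).norm_compContinuousMultilinearMap_le _).trans ?_
    push_cast
    rw [mul_assoc]
    exact mul_le_mul_of_nonneg_left h6 (norm_nonneg _)
  · rintro ⟨h1, h2⟩
    have h4 : ∀ j, ContDiffOn ℝ k (pd f j) U := fun j => (h2 j).1
    refine ⟨by exact_mod_cast (cd_succ_iff hU (m := k)).2 ⟨h1, h4⟩, fun x hx => ?_⟩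
    choose C W hW h5 using fun j => (h2 j).2 x hx
    refine ⟨∑ j, C j, (⋂ j, W j) ∩ U, inter_mem (iInter_mem.2 hW) (hU.mem_nhds hx),
      LipschitzOnWith.of_dist_le_mul fun y hy z hz => ?_⟩
    rw [dist_iter_succ]
    refine (norm_le_sum_evj' _).trans ?_
    push_cast
    rw [Finset.sum_mul]
    refine Finset.sum_le_sum fun j _ => ?_
    rw [← iter_pd_sub hU (cd_fderiv_iff.2 h4) j hy.2 hz.2, ← dist_eq_norm]
    exact (h5 j).dist_le_mul y (Set.mem_iInter.1 hy.1 j) z (Set.mem_iInter.1 hz.1 j)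

theorem Sm.succ_iff (hU : IsOpen U) : Sm lip (k + 1) f U ↔
    DifferentiableOn ℝ f U ∧ ∀ j, Sm lip k (pd f j) U := by
  cases lip
  · have h := cd_succ_iff (f := f) hU (m := k + 1)
    simp only [Sm, Bool.false_eq_true, if_false]
    exact_mod_cast h
  · exact clip_succ_iff hU

theorem Sm.of_cd (hU : IsOpen U) (h : ContDiffOn ℝ (k + 1 : ℕ) f U) : Sm lip k f U := by
  cases lip
  · exact (both hU h).1
  · exact (both hU h).2

theorem Sm.cd_succ (h : Sm lip (k + 1) f U) : ContDiffOn ℝ (k + 1 : ℕ) f U := by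
  cases lip
  · exact ContDiffOn.of_le (show ContDiffOn ℝ ((k + 1 : ℕ) + 1) f U from h) le_self_add
  · exact (show CLip (k + 1) f U from h).1

theorem Sm.c1 (h : Sm lip (k + 1) f U) : Sm false 0 f U := by
  refine (ContDiffOn.of_le h.cd_succ ?_ : ContDiffOn ℝ ((0 : ℕ) + 1) f U)
  push_cast
  rw [zero_add]
  exact le_add_self

theorem Sm.of_succ (hU : IsOpen U) (h : Sm lip (k + 1) f U) : Sm lip k f U := by
  exact Sm.of_cd hU h.cd_succ

theorem Sm.lip0 (hU : IsOpen U) (h : Sm lip k f U) : Sm true 0 f U := by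
  induction k with
  | zero =>
    cases lip
    · refine Sm.of_cd hU ?_
      have h1 : ContDiffOn ℝ ((0 : ℕ) + 1) f U := h
      exact_mod_cast h1
    · exact h
  | succ k ih => exact ih (h.of_succ hU)

theorem lip_comp {G : Type*} [NormedAddCommGroup G] [NormedSpace ℝ G] {F : E n → G} {φ : G → ℝ}
    {x : E n} {C : NNReal} {W : Set (E n)} (hW : W ∈ 𝓝 x) (hF : LipschitzOnWith C F W)
    (hφ : ContDiffAt ℝ 1 φ (F x)) :
    ∃ C : NNReal, ∃ W ∈ 𝓝 x, LipschitzOnWith C (fun y => φ (F y)) W := by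
  obtain ⟨C', t, ht, h1⟩ := hφ.exists_lipschitzOnWith
  refine ⟨C' * C, W ∩ F ⁻¹' t, inter_mem hW (hF.continuousOn.continuousAt hW ht), ?_⟩
  exact h1.comp (hF.mono Set.inter_subset_left) fun y hy => hy.2

theorem lip_comp₂ (hf : Sm true 0 f U) (hg : Sm true 0 g U) {φ : ℝ × ℝ → ℝ}
    (hφ : ContDiff ℝ 1 φ) : Sm true 0 (fun y => φ (f y, g y)) U := by
  refine sm_true_zero.2 fun x hx => ?_
  obtain ⟨C1, W1, hW1, h1⟩ := sm_true_zero.1 hf x hx
  obtain ⟨C2, W2, hW2, h2⟩ := sm_true_zero.1 hg x hx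
  exact lip_comp (F := fun y => (f y, g y)) (inter_mem hW1 hW2)
    ((h1.mono Set.inter_subset_left).prodMk (h2.mono Set.inter_subset_right)) hφ.contDiffAt

theorem cl_lip_zero (hU : IsOpen U) : Cl (fun f => Sm true 0 f U) U := by
  refine ⟨fun a => Sm.of_cd hU contDiffOn_const, fun hf hg => ?_, fun hf hg => ?_,
    fun hf e => hf.congr hU e, fun {f} hf h0 => ?_⟩
  · exact lip_comp₂ hf hg (φ := fun p => p.1 + p.2) (contDiff_fst.add contDiff_snd)
  · exact lip_comp₂ hf hg (φ := fun p => p.1 * p.2) (contDiff_fst.mul contDiff_snd)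
  · refine sm_true_zero.2 fun x hx => ?_
    obtain ⟨C1, W1, hW1, h1⟩ := sm_true_zero.1 hf x hx
    exact lip_comp (φ := fun t => t⁻¹) hW1 h1 (contDiffAt_inv ℝ (h0 x hx))

theorem pd_add_at {x : E n} (hf : DifferentiableAt ℝ f x) (hg : DifferentiableAt ℝ g x)
    (j : Fin n) : pd (fun y => f y + g y) j x = pd f j x + pd g j x := by
  unfold pd
  rw [(hf.hasFDerivAt.fun_add hg.hasFDerivAt).fderiv]
  simp

theorem pd_mul_at {x : E n} (hf : DifferentiableAt ℝ f x) (hg : DifferentiableAt ℝ g x)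
    (j : Fin n) : pd (fun y => f y * g y) j x = f x * pd g j x + g x * pd f j x := by
  unfold pd
  rw [(hf.hasFDerivAt.fun_mul hg.hasFDerivAt).fderiv]
  simp

theorem pd_inv_at {x : E n} (hf : DifferentiableAt ℝ f x) (h0 : f x ≠ 0) (j : Fin n) :
    pd (fun y => (f y)⁻¹) j x = (-1) * ((f x)⁻¹ * (f x)⁻¹) * pd f j x := by
  unfold pd
  have h1 : HasFDerivAt (fun y => (f y)⁻¹) ((-(f x ^ 2)⁻¹) • fderiv ℝ f x) x :=
    (hasDerivAt_inv h0).comp_hasFDerivAt x hf.hasFDerivAt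
  rw [h1.fderiv]
  simp only [smul_apply, smul_eq_mul]
  rw [sq, mul_inv]
  ring

theorem cl_step (hU : IsOpen U) (ih : Cl (fun f => Sm lip k f U) U) :
    Cl (fun f => Sm lip (k + 1) f U) U := by
  refine ⟨fun a => Sm.of_cd hU contDiffOn_const, fun {f g} hf hg => ?_, fun {f g} hf hg => ?_,
    fun hf e => hf.congr hU e, fun {f} hf h0 => ?_⟩
  · obtain ⟨d1, p1⟩ := (Sm.succ_iff hU).1 hf
    obtain ⟨d2, p2⟩ := (Sm.succ_iff hU).1 hg
    refine (Sm.succ_iff hU).2 ⟨d1.add d2, fun j => ?_⟩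
    exact ih.congr (ih.add (p1 j) (p2 j)) fun x hx =>
      pd_add_at (d1.differentiableAt (hU.mem_nhds hx)) (d2.differentiableAt (hU.mem_nhds hx)) j
  · obtain ⟨d1, p1⟩ := (Sm.succ_iff hU).1 hf
    obtain ⟨d2, p2⟩ := (Sm.succ_iff hU).1 hg
    refine (Sm.succ_iff hU).2 ⟨d1.mul d2, fun j => ?_⟩
    exact ih.congr (ih.add (ih.mul (hf.of_succ hU) (p2 j)) (ih.mul (hg.of_succ hU) (p1 j)))
      fun x hx =>
      pd_mul_at (d1.differentiableAt (hU.mem_nhds hx)) (d2.differentiableAt (hU.mem_nhds hx)) j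
  · obtain ⟨d1, p1⟩ := (Sm.succ_iff hU).1 hf
    have hi := ih.inv (hf.of_succ hU) h0
    refine (Sm.succ_iff hU).2 ⟨d1.inv h0, fun j => ?_⟩
    exact ih.congr (ih.mul (ih.mul (ih.const (-1)) (ih.mul hi hi)) (p1 j)) fun x hx =>
      pd_inv_at (d1.differentiableAt (hU.mem_nhds hx)) (h0 x hx) j

/-- For `lip = true` by induction on `k` with `succ_iff` (product rule, `pd_congr`). -/
theorem cl_sm (hU : IsOpen U) (lip : Bool) (k : ℕ) : Cl (fun f => Sm lip k f U) U := by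
  cases lip
  · exact ⟨fun _ => (contDiffOn_const : ContDiffOn ℝ (k + 1) _ U),
      fun hf hg => ContDiffOn.add (n := k + 1) hf hg,
      fun hf hg => ContDiffOn.mul (n := k + 1) hf hg, fun hf e => hf.congr hU e,
      fun hf h0 => ContDiffOn.inv (n := k + 1) hf h0⟩
  · induction k with
    | zero => exact cl_lip_zero hU
    | succ k ih => exact cl_step hU ih

end Pool.Agent.Lib.MP_4bee3f_an.G
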