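import Pool.Agent.Lib.MP_4bee3f_an.G.NegB
import Pool.Agent.Lib.MP_4bee3f_an.G.Cpt
import Pool.Agent.Lib.MP_4bee3f_an.G.Sca

/-! No gain in the presence of a complex characteristic. -/

namespace Pool.Agent.Lib.MP_4bee3f_an.G

open Complex Filter Topology Metric Pool.Agent.Lib.MP_4bee3f_an.K
open scoped ComplexConjugate

variable {n : ℕ}

theorem sum_re (F : Fin n → Fin n → ℝ) (Q : Mat n) {ξ v : Fin n → ℂ}
    (h : ∑ j, ∑ l, (F j l : ℂ) * (ξ j * v l) = 0) (p q : ℂ) :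
    ∑ j, ∑ l, F j l * (Q l j + (v l * (p * ξ j + q * conj (ξ j))).re) =
      ∑ j, ∑ l, F j l * Q l j + (q * ∑ j, ∑ l, (F j l : ℂ) * (conj (ξ j) * v l)).re := by
  have e : q * ∑ j, ∑ l, (F j l : ℂ) * (conj (ξ j) * v l) =
      ∑ j, ∑ l, (F j l : ℂ) * (v l * (p * ξ j + q * conj (ξ j))) := by
    have e0 : p * ∑ j, ∑ l, (F j l : ℂ) * (ξ j * v l) = 0 := by rw [h, mul_zero]
    rw [← zero_add (q * _), ← e0]
    simp only [Finset.mul_sum, ← Finset.sum_add_distrib]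
    exact Finset.sum_congr rfl fun j _ => Finset.sum_congr rfl fun l _ => by ring
  rw [e]
  simp only [Complex.re_sum, Complex.re_ofReal_mul, ← Finset.sum_add_distrib, mul_add (F _ _)]

theorem sum_one (F : Fin n → Fin n → ℝ) {ξ v : Fin n → ℂ}
    (h : ∑ j, ∑ l, (F j l : ℂ) * (ξ j * v l) = 0) (p q : ℂ) :
    ∑ j, ∑ l, (F j l : ℂ) * ((p * ξ j + q * conj (ξ j)) * v l) =
      q * ∑ j, ∑ l, (F j l : ℂ) * (conj (ξ j) * v l) := by
  have e0 : p * ∑ j, ∑ l, (F j l : ℂ) * (ξ j * v l) = 0 := by rw [h, mul_zero]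
  rw [← zero_add (q * _), ← e0]
  simp only [Finset.mul_sum, ← Finset.sum_add_distrib]
  exact Finset.sum_congr rfl fun j _ => Finset.sum_congr rfl fun l _ => by ring

theorem sum_two (F : Fin n → Fin n → ℝ) {ξ v : Fin n → ℂ}
    (h : ∑ j, ∑ l, (F j l : ℂ) * (ξ j * v l) = 0) (p q : ℂ) :
    ∑ j, ∑ l, (F j l : ℂ) * ((p * ξ j + q * conj (ξ j)) * conj (v l)) =
      p * conj (∑ j, ∑ l, (F j l : ℂ) * (conj (ξ j) * v l)) := by
  have e0 : q * conj (∑ j, ∑ l, (F j l : ℂ) * (ξ j * v l)) = 0 := by rw [h, map_zero, mul_zero]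
  rw [← add_zero (p * _), ← e0]
  simp only [map_sum, map_mul, conj_ofReal, conj_conj, Finset.mul_sum, ← Finset.sum_add_distrib]
  exact Finset.sum_congr rfl fun j _ => Finset.sum_congr rfl fun l _ => by ring

theorem inv_trace {P0 : Mat n} (hP : P0.det ≠ 0) : ∑ j, ∑ l, P0⁻¹ j l * P0 l j = n := by
  have h := congrArg Matrix.trace (Matrix.nonsing_inv_mul P0 (isUnit_iff_ne_zero.2 hP))
  rw [Matrix.trace_one, Fintype.card_fin] at h
  exact h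

/-- `u = su P0 ξ v k`. With `ρ i = ∑ j l, A0 j i l * (conj (ξ j) * v l)` and
`τ = ∑ j l, P0⁻¹ j l * (conj (ξ j) * v l)`: `app A0 (Dm u x) i = app A0 P0 i + (sQ x * ρ i).re`,
`t x = ∑ j l, P0⁻¹ j l * Dm u x l j = n + (sQ x * τ).re`,
`A x j i l = A0 j i l - (sQ x * ρ i).re * (t x)⁻¹ * P0⁻¹ j l`, `B = 0`, `c = app A0 P0`,
`J x = det P0 * (‖1 + sQ x * τ / 2‖ ^ 2 - ‖τ / 2‖ ^ 2 * ‖sP x‖ ^ 2)` (`det_rank2`), `Ω` a small
ball (`near`, `Ell.near`); `Sm.of_cd`, `not_sm`. -/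
theorem not_gain (hn : 0 < n) (lip : Bool) (k : ℕ) {A0 : Fin n → Mat n} (hA : Ell A0) {P0 : Mat n}
    (hP : P0.det ≠ 0) {ξ v : Fin n → ℂ} (h : Chr A0 P0⁻¹ ξ v) : ¬ Gain lip true k A0 P0 := by
  obtain ⟨⟨j0, hj0⟩, ⟨l0, hl0⟩, h1, h2⟩ := h
  intro hG
  obtain ⟨ρ, hρ⟩ : ∃ ρ : Fin n → ℂ, ∀ i, ρ i = ∑ j, ∑ l, (A0 j i l : ℂ) * (conj (ξ j) * v l) :=
    ⟨_, fun _ => rfl⟩
  obtain ⟨τ, hτ⟩ : ∃ τ : ℂ, τ = ∑ j, ∑ l, (P0⁻¹ j l : ℂ) * (conj (ξ j) * v l) := ⟨_, rfl⟩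
  obtain ⟨W, hW⟩ : ∃ W : Set (E n), W = {x | ‖lf ξ x‖ < 1} := ⟨_, rfl⟩
  have nW : W ∈ 𝓝 (0 : E n) := by rw [hW]; exact near (lf ξ)
  have cQ : ContDiffOn ℝ (k + 1 : ℕ) (sQ ξ k) W := hW ▸ (cd_sQ ξ k).1
  have cP : ContDiffOn ℝ (k + 1 : ℕ) (fun x => ‖sP ξ k x‖ ^ 2) W := hW ▸ (cd_sP ξ k).1
  have cu : ∀ l, ContDiffOn ℝ (k + 1 : ℕ) (su P0 ξ v k l) W := fun l => hW ▸ cd_su P0 ξ v k l
  have Q0 : sQ ξ k 0 = 0 := (cd_sQ ξ k).2
  have P00 : sP ξ k 0 = 0 := (cd_sP ξ k).2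
  have cR : ∀ z : ℂ, ContDiffOn ℝ (k + 1 : ℕ) (fun x => (sQ ξ k x * z).re) W := fun z =>
    reCLM.contDiff.comp_contDiffOn (cQ.mul contDiffOn_const)
  obtain ⟨t, ht⟩ : ∃ t : E n → ℝ, t = fun x => (n : ℝ) + (sQ ξ k x * τ).re := ⟨_, rfl⟩
  have ct : ContDiffOn ℝ (k + 1 : ℕ) t W := ht ▸ contDiffOn_const.add (cR τ)
  have t0 : t 0 ≠ 0 := by
    simp only [ht, Q0, zero_mul, zero_re, add_zero]
    exact_mod_cast hn.ne'
  obtain ⟨J, hJ⟩ : ∃ J : E n → ℝ, J = fun x => P0.det *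
      (‖1 + sQ ξ k x * τ / 2‖ ^ 2 - ‖τ / 2‖ ^ 2 * ‖sP ξ k x‖ ^ 2) := ⟨_, rfl⟩
  have cJ : ContDiffOn ℝ (k + 1 : ℕ) J W := hJ ▸ contDiffOn_const.mul
    (((contDiffOn_const.add ((cQ.mul contDiffOn_const).div_const 2)).norm_sq ℝ).sub
      (contDiffOn_const.mul cP))
  have J0 : J 0 ≠ 0 := by simpa [hJ, Q0, P00] using hP
  obtain ⟨A, hAd⟩ : ∃ A : E n → Fin n → Mat n, A = fun x j => Matrix.of fun i l =>
      A0 j i l - (sQ ξ k x * ρ i).re * (t x)⁻¹ * P0⁻¹ j l := ⟨_, rfl⟩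
  have A00 : A 0 = A0 := by
    funext j
    ext i l
    simp [hAd, Q0]
  have tc : ContinuousAt t 0 := (ct.contDiffAt nW).continuousAt
  have nE : ∀ᶠ x in 𝓝 (0 : E n), Ell (A x) := by
    refine Ell.near (A00 ▸ hA) fun j i l => ?_
    simp only [hAd, Matrix.of_apply]
    exact continuousAt_const.sub ((((cR (ρ i)).contDiffAt nW).continuousAt.mul
      (tc.inv₀ t0)).mul continuousAt_const)
  have nt : ∀ᶠ x in 𝓝 (0 : E n), t x ≠ 0 := tc.eventually_ne t0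
  have nJ : ∀ᶠ x in 𝓝 (0 : E n), J x ≠ 0 := (cJ.contDiffAt nW).continuousAt.eventually_ne J0
  obtain ⟨r, hr, hb⟩ := Metric.mem_nhds_iff.1 (Filter.inter_mem nW (nE.and (nt.and nJ)))
  have bW : ball (0 : E n) r ⊆ W := fun x hx => (hb hx).1
  have hD : ∀ x ∈ W, Dm (su P0 ξ v k) x = P0 + Matrix.of fun l j =>
      (v l * (sP ξ k x * ξ j + sQ ξ k x * conj (ξ j))).re := fun x hx =>
    Dm_su P0 ξ v k (by rw [hW] at hx; exact hx)
  have mb : MeasurableSet (ball (0 : E n) r) := isOpen_ball.measurableSet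
  have hS : Sol lip k (ball 0 r) A (fun _ => 0) (fun _ => app A0 P0) (su P0 ξ v k) J := by
    refine ⟨fun x hx => (hb hx).2.1, fun l => ?_, ?_, ?_, fun x hx => (hb hx).2.2.2,
      fun j i l => Sm.of_cd isOpen_ball ?_, fun i l => Sm.of_cd isOpen_ball contDiffOn_const,
      fun i => Sm.of_cd isOpen_ball contDiffOn_const, Sm.of_cd isOpen_ball (cJ.mono bW)⟩
    · exact (((cu l).mono bW).of_le (by exact_mod_cast Nat.le_add_left 1 k)).locallyLipschitzOn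
        (convex_ball 0 r)
    · refine (MeasureTheory.ae_restrict_iff' mb).2 (Eventually.of_forall fun x hx i => ?_)
      have e1 := sum_re (fun j l => A0 j i l) P0 (h1 i) (sP ξ k x) (sQ ξ k x)
      have e2 := sum_re (fun j l => P0⁻¹ j l) P0 h2 (sP ξ k x) (sQ ξ k x)
      rw [inv_trace hP, ← hτ] at e2
      rw [← hρ] at e1
      have tx : t x ≠ 0 := (hb hx).2.2.1
      have e3 : t x = (n : ℝ) + (sQ ξ k x * τ).re := by rw [ht]
      rw [← e3] at e2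
      rw [hD x (bW hx)]
      simp only [app, hAd, Matrix.of_apply, Matrix.add_apply, Matrix.zero_apply, zero_mul,
        Finset.sum_const_zero, add_zero, sub_mul, Finset.sum_sub_distrib,
        mul_assoc ((sQ ξ k x * ρ i).re * (t x)⁻¹), ← Finset.mul_sum]
      rw [e1, e2, mul_assoc, inv_mul_cancel₀ tx]
      ring
    · refine (MeasureTheory.ae_restrict_iff' mb).2 (Eventually.of_forall fun x hx => ?_)
      rw [hD x (bW hx), det_rank2 hP v fun j => sP ξ k x * ξ j + sQ ξ k x * conj (ξ j),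
        sum_one (fun j l => P0⁻¹ j l) h2, sum_two (fun j l => P0⁻¹ j l) h2, ← hτ, hJ]
      simp only [norm_div, norm_mul, RCLike.norm_conj]
      ring
    · simp only [hAd, Matrix.of_apply]
      exact contDiffOn_const.sub ((((cR (ρ i)).mono bW).mul
        ((ct.mono bW).inv fun x hx => (hb hx).2.2.1)).mul contDiffOn_const)
  obtain ⟨V, hV, h0, hs⟩ := hG (ball 0 r) A (fun _ => 0) (fun _ => app A0 P0) (su P0 ξ v k) J
    isOpen_ball (isConnected_ball hr) (mem_ball_self hr) hS A00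
    (fun l => ((cu l).contDiffAt nW).differentiableAt (by simp))
    (by
      rw [hD 0 (mem_of_mem_nhds nW), Q0, P00]
      ext l j
      simp)
    (fun _ => ⟨fun x _ => ⟨rfl, rfl⟩, fun l => by exact_mod_cast (cu l).mono bW⟩)
  exact not_sm P0 ξ v k hj0 hl0 lip hV h0 (hs l0)

end Pool.Agent.Lib.MP_4bee3f_an.G
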