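import Pool.Agent.Lib.MP_4bee3f_an.G.Sec
import Pool.Agent.Lib.MP_4bee3f_an.G.Dif
import Pool.Agent.Lib.MP_4bee3f_an.G.C11
import Pool.Agent.Lib.MP_4bee3f_an.G.Boot

/-! The gain of one derivative in the plane. -/

namespace Pool.Agent.Lib.MP_4bee3f_an.G

open Filter Topology MeasureTheory Metric Matrix Pool.Agent.Lib.MP_4bee3f_an.K

theorem ext_fin {n : ℕ} {ι : Type} [Fintype ι] {U : Set (E n)} (h0 : 0 ∈ U) {f : ι → E n → ℝ}
    (h : ∀ i, Sm true 0 (f i) U) : ∃ L : NNReal, ∃ g : ι → E n → ℝ,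
      (∀ i, LipschitzWith L (g i)) ∧ ∀ᶠ x in 𝓝 (0 : E n), ∀ i, g i x = f i x := by
  choose C W hW hl using fun i => sm_true_zero.1 (h i) 0 h0
  choose g hg he using fun i => (hl i).extend_real
  refine ⟨Finset.univ.sup C, g, fun i => (hg i).weaken (Finset.le_sup (Finset.mem_univ i)),
    eventually_all.2 fun i => ?_⟩
  filter_upwards [hW i] with x hx using (he i hx).symm

theorem Sm.cont {n k : ℕ} {lip : Bool} {f : E n → ℝ} {U : Set (E n)} (h : Sm lip k f U) :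
    ContinuousOn f U := by
  cases lip
  · exact ContDiffOn.continuousOn (𝕜 := ℝ) h
  · exact h.1.continuousOn

variable {L : NNReal} {r : ℝ} {A : E 2 → Fin 2 → Mat 2} {F : E 2 → Fin 2 → ℝ} {J : E 2 → ℝ}
  {u : Fin 2 → E 2 → ℝ}

theorem Core.good (h : Core L r A F J u) {M : Mat 2} (hM : ∀ i, app (A 0) M i = 0)
    (ht : ((Dm u 0).adjugate * M).trace ≠ 0) (X : Mat 2) (hX : Adm (A 0) (F 0) (J 0) L X) :
    (Lm (A 0) X).det ≠ 0 := by
  intro hd
  have h3 : ∀ N, (∀ i, app (A 0) N i = 0) → (X.adjugate * N).trace = 0 := fun N hN => by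
    by_contra hc
    exact Lm_det h.ell hN hc hd
  have h4 : ∀ l, HasFDerivAt (u l)
      (∑ j, X l j • (EuclideanSpace.proj j : E 2 →L[ℝ] ℝ)) 0 := fun l => by
    refine hasFDerivAt_of_ae ⟨L, Set.univ, univ_mem, (h.lu l).lipschitzOnWith⟩ fun η hη => ?_
    obtain ⟨ρ, hρ, hb⟩ := Metric.eventually_nhds_iff_ball.1
      (adm_close h.ell (fun j i l => (h.lA j i l).continuous.continuousAt)
        (fun i => (h.lF i).continuous.continuousAt) h.lJ.continuous.continuousAt hX.1 hX.2.1 h3 L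
        (half_pos hη))
    refine ⟨min ρ r, lt_min hρ h.pos, h.adm.mono fun x hx hx' => ?_⟩
    have h5 := hb x (ball_subset_ball (min_le_left _ _) hx') _
      (hx (ball_subset_ball (min_le_right _ _) hx')) l
    refine ContinuousLinearMap.opNorm_le_bound _ hη.le fun a => ?_
    have h6 : ∀ j, |a j * (pd (u l) j x - X l j)| ≤ ‖a‖ * (η / 2) := fun j => by
      rw [abs_mul]
      exact mul_le_mul (PiLp.norm_apply_le a j) (h5 j) (abs_nonneg _) (norm_nonneg _)
    have e : (fderiv ℝ (u l) x - ∑ j, X l j • (EuclideanSpace.proj j : E 2 →L[ℝ] ℝ)) a =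
        a 0 * (pd (u l) 0 x - X l 0) + a 1 * (pd (u l) 1 x - X l 1) := by
      rw [_root_.sub_apply, fderiv_eq_sum]
      simp [Fin.sum_univ_two]
      ring
    rw [e, Real.norm_eq_abs]
    linarith [abs_add_le (a 0 * (pd (u l) 0 x - X l 0)) (a 1 * (pd (u l) 1 x - X l 1)), h6 0, h6 1]
  have h5 : Dm u 0 = X := by
    ext l j
    rw [Dm, of_apply, pd, (h4 l).fderiv]
    fin_cases j <;> simp [Fin.sum_univ_two]
  exact ht (h5 ▸ h3 M hM)

theorem Core.c11 (h : Core L r A F J u)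
    (hg : ∀ X, Adm (A 0) (F 0) (J 0) L X → (Lm (A 0) X).det ≠ 0) :
    ∃ ρ, 0 < ρ ∧ ∀ l, Sm true 1 (u l) (ball 0 ρ) := by
  obtain ⟨ρ, C, hρ, hC, hs⟩ := h.sec hg
  exact ⟨ρ / 4, by positivity, fun l => G.c11 (C := ((2 : ℕ) : ℝ) ^ 2 * C) (h.lu l) (by positivity)
    fun x a b hx => second_diff (h.lu l).continuous hC (hs l) hx⟩

theorem Core.near_det (h : Core L r A F J u)
    (hg : ∀ X, Adm (A 0) (F 0) (J 0) L X → (Lm (A 0) X).det ≠ 0) :
    ∀ᶠ x in 𝓝 (0 : E 2), ∀ X, Adm (A x) (F x) (J x) L X → (Lm (A x) X).det ≠ 0 := by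
  obtain ⟨C, -, hb⟩ := adm_bound (fun j i l => (h.lA j i l).continuous.continuousAt)
    (fun i => (h.lF i).continuous.continuousAt) h.lJ.continuous.continuousAt hg
  filter_upwards [hb] with x hx X hX hd
  obtain ⟨T, h0, hT⟩ := Matrix.exists_mulVec_eq_zero_iff.2 hd
  have := hx X hX T
  rw [hT, norm_zero, mul_zero] at this
  exact h0 (norm_le_zero_iff.1 this)

theorem gain_two (lip : Bool) (k : ℕ) {A0 : Fin 2 → Mat 2} {P0 M : Mat 2}
    (hM : ∀ i, app A0 M i = 0) (ht : (P0.adjugate * M).trace ≠ 0) : Gain lip false k A0 P0 := by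
  intro Ω A B c u J hΩ _ h0 S hA0 _ hP _
  subst hA0 hP
  have cl := cl_sm hΩ true 0
  have lu : ∀ l, Sm true 0 (u l) Ω := fun l => sm_true_zero.2 fun x hx => by
    obtain ⟨C, W, hW, hl⟩ := S.lipu l hx
    rw [hΩ.nhdsWithin_eq hx] at hW
    exact ⟨C, W, hW, hl⟩
  have lF : ∀ i, Sm true 0 (fun x => c x i - ∑ l, B x i l * u l x) Ω := fun i =>
    cl.sub ((S.smc i).lip0 hΩ) (cl.sum _ fun l _ => cl.mul ((S.smB i l).lip0 hΩ) (lu l))
  obtain ⟨L1, g1, l1, e1⟩ := ext_fin (ι := I3) (f := fun q x => A x q.1 q.2.1 q.2.2) h0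
    fun q => (S.smA _ _ _).lip0 hΩ
  obtain ⟨L2, g2, l2, e2⟩ := ext_fin h0 lF
  obtain ⟨L3, g3, l3, e3⟩ := ext_fin (ι := Unit) (f := fun _ => J) h0 fun _ => S.smJ.lip0 hΩ
  obtain ⟨L4, w, l4, e4⟩ := ext_fin h0 lu
  obtain ⟨r, hr, hb⟩ := Metric.eventually_nhds_iff_ball.1
    ((((e1.and e2).and e3).and e4).and (hΩ.mem_nhds h0))
  set L := L1 + L2 + L3 + L4 with hL
  set A' : E 2 → Fin 2 → Mat 2 := fun x j => of fun i l => g1 (j, i, l) x with hA'
  have eA : ∀ x ∈ ball (0 : E 2) r, A' x = A x := fun x hx => by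
    ext j i l
    exact (hb x hx).1.1.1.1 (j, i, l)
  have eD : ∀ x ∈ ball (0 : E 2) r, Dm w x = Dm u x := fun x hx => by
    ext l j
    exact pd_congr isOpen_ball (fun y hy => (hb y hy).1.2 l) j hx
  have lw : ∀ l, LipschitzWith L (w l) := fun l => (l4 l).weaken le_add_self
  have adm : ∀ x ∈ ball (0 : E 2) r,
      (∀ i, app (A x) (Dm u x) i + ∑ l, B x i l * u l x = c x i) → (Dm u x).det = J x →
      Adm (A' x) (fun i => g2 i x) (g3 () x) L (Dm w x) := fun x hx a1 a2 => by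
    refine ⟨fun i => ?_, ?_, fun l j => abs_pd_le (lw l) j x⟩
    · rw [eA x hx, eD x hx]
      exact (eq_sub_of_add_eq (a1 i)).trans ((hb x hx).1.1.1.2 i).symm
    · rw [eD x hx, a2]
      exact ((hb x hx).1.1.2 ()).symm
  have q1 := (ae_restrict_iff' hΩ.measurableSet).1 S.eqn
  have q2 := (ae_restrict_iff' hΩ.measurableSet).1 S.jac
  have b0 : (0 : E 2) ∈ ball (0 : E 2) r := mem_ball_self hr
  have co : Core L r A' (fun x i => g2 i x) (g3 ()) w :=
    ⟨hr, eA 0 b0 ▸ S.ell 0 h0,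
      fun j i l => (l1 (j, i, l)).weaken (by rw [hL, add_assoc, add_assoc]; exact le_self_add),
      fun i => (l2 i).weaken (le_add_self.trans (le_self_add.trans le_self_add)),
      (l3 ()).weaken (le_add_self.trans le_self_add), lw,
      (q1.and q2).mono fun x hx hx' => adm x hx' (hx.1 (hb x hx').2) (hx.2 (hb x hx').2)⟩
  have hg := co.good (M := M) (by rw [eA 0 b0]; exact hM) (by rw [eD 0 b0]; exact ht)
  obtain ⟨ρ, hρ, h11⟩ := co.c11 hg
  obtain ⟨s, hs, hV⟩ := Metric.eventually_nhds_iff_ball.1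
    (((co.near_det hg).and (ball_mem_nhds (0 : E 2) hρ)).and (ball_mem_nhds (0 : E 2) hr))
  have sub : ball (0 : E 2) s ⊆ Ω := fun x hx => (hb x (hV x hx).2).2
  have u11 : ∀ l, Sm true 1 (u l) (ball 0 s) := fun l =>
    ((h11 l).mono fun x hx => (hV x hx).1.2).congr isOpen_ball
      fun x hx => ((hb x (hV x hx).2).1.2 l).symm
  have cc := cl_cont (ball (0 : E 2) s)
  have cX : ∀ l j, ContinuousOn (pd (u l) j) (ball 0 s) := fun l j =>
    (((Sm.succ_iff isOpen_ball).1 (u11 l)).2 j).cont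
  have p1 : ∀ x ∈ ball (0 : E 2) s, ∀ i,
      app (A x) (Dm u x) i + ∑ l, B x i l * u l x = c x i := fun x hx i => by
    refine Measure.eqOn_open_of_ae_eq (μ := volume) (f := fun x => app (A x) (Dm u x) i +
      ∑ l, B x i l * u l x) (g := fun x => c x i) ?_ isOpen_ball ?_ ((S.smc i).cont.mono sub) hx
    · exact (ae_restrict_iff' measurableSet_ball).2 (q1.mono fun y hy hy' => hy (sub hy') i)
    · exact cc.add (cc.sum _ fun j _ => cc.sum _ fun l _ =>
        cc.mul ((S.smA j i l).cont.mono sub) (cX l j))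
        (cc.sum _ fun l _ => cc.mul ((S.smB i l).cont.mono sub) (u11 l).cont)
  have p2 : ∀ x ∈ ball (0 : E 2) s, (Dm u x).det = J x := fun x hx => by
    refine Measure.eqOn_open_of_ae_eq (μ := volume) (f := fun x => (Dm u x).det) ?_ isOpen_ball
      (cc.det cX) (S.smJ.cont.mono sub) hx
    exact (ae_restrict_iff' measurableSet_ball).2 (q2.mono fun y hy hy' => hy (sub hy'))
  refine ⟨ball 0 s, isOpen_ball, mem_ball_self hs, boot isOpen_ball lip k
    (fun j i l => (S.smA j i l).mono sub) (fun i l => (S.smB i l).mono sub)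
    (fun i => (S.smc i).mono sub) (S.smJ.mono sub) u11 p1 p2 fun x hx => ?_⟩
  have := (hV x hx).1.1 _ (adm x (hV x hx).2 (p1 x hx) (p2 x hx))
  rwa [eA x (hV x hx).2, eD x (hV x hx).2] at this

end Pool.Agent.Lib.MP_4bee3f_an.G
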