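import Pool.Agent.Lib.MP_4bee3f_an.G.Gar
import Pool.Agent.Lib.MP_4bee3f_an.G.Mol

/-! Second derivatives of the mollified solution. -/

namespace Pool.Agent.Lib.MP_4bee3f_an.G

open Filter Topology MeasureTheory Metric Matrix Pool.Agent.Lib.MP_4bee3f_an.K

variable {L : NNReal} {r : ℝ} {A : E 2 → Fin 2 → Mat 2} {F : E 2 → Fin 2 → ℝ} {J : E 2 → ℝ}
  {u : Fin 2 → E 2 → ℝ} {κ : E 2 → ℝ} {ε D : ℝ}

/-- The error term. -/
noncomputable def er (κ : E 2 → ℝ) (u : Fin 2 → E 2 → ℝ) (x : E 2) : ℝ :=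
  ∑ m, ∫ y, |pd κ m y| * dq u (x - y) x

theorem rows_meas (u : Fin 2 → E 2 → ℝ) (l j : Fin 2) (x : E 2) :
    Measurable fun y => Dm u (x - y) l j :=
  (measurable_pd (u l) j).comp (measurable_const.sub measurable_id)

theorem rows_int (hκ : Ker κ ε D) (hu : ∀ l, LipschitzWith L (u l)) (l j m : Fin 2) (x : E 2) :
    Integrable fun y => pd κ m y * Dm u (x - y) l j :=
  (hκ.integrable_pd m).mul_bdd (c := L) (rows_meas u l j x).aestronglyMeasurable
    (ae_of_all _ fun y => abs_pd_le (hu l) j (x - y))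

theorem rows_lin (hκ : Ker κ ε D) (hu : ∀ l, LipschitzWith L (u l)) (c : Fin 2 → Fin 2 → ℝ)
    (k : ℝ) (m : Fin 2) (x : E 2) :
    ∑ j, ∑ l, c j l * pd (pd (cv κ (u l)) j) m x =
      ∫ y, pd κ m y * (∑ j, ∑ l, c j l * Dm u (x - y) l j - k) := by
  have e : ∀ y, pd κ m y * (∑ j, ∑ l, c j l * Dm u (x - y) l j - k) =
      ∑ j, ∑ l, c j l * (pd κ m y * Dm u (x - y) l j) - pd κ m y * k := fun y => by
    simp only [Fin.sum_univ_two]
    ring
  have i1 : ∀ j l, Integrable fun y => c j l * (pd κ m y * Dm u (x - y) l j) := fun j l =>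
    (rows_int hκ hu l j m x).const_mul _
  simp only [e]
  rw [integral_sub (integrable_finsetSum _ fun j _ => integrable_finsetSum _ fun l _ => i1 j l)
    ((hκ.integrable_pd m).mul_const k), integral_mul_const, hκ.int_pd, zero_mul, sub_zero,
    integral_finsetSum _ fun j _ => integrable_finsetSum _ fun l _ => i1 j l]
  refine Finset.sum_congr rfl fun j _ => ?_
  rw [integral_finsetSum _ fun l _ => i1 j l]
  refine Finset.sum_congr rfl fun l _ => ?_
  rw [integral_const_mul, hκ.pd_pd_cv (hu l)]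
  rfl

theorem rows_dq_nonneg (u : Fin 2 → E 2 → ℝ) (x y : E 2) : 0 ≤ dq u x y :=
  Finset.sum_nonneg fun _ _ => Finset.sum_nonneg fun _ _ => sq_nonneg _

theorem rows_dq_int (hκ : Ker κ ε D) (hu : ∀ l, LipschitzWith L (u l)) (m : Fin 2) (x : E 2) :
    Integrable fun y => |pd κ m y| * dq u (x - y) x := by
  refine (hκ.integrable_pd m).abs.mul_bdd (c := ∑ _l : Fin 2, ∑ _j : Fin 2, ((L : ℝ) + L) ^ 2)
    ?_ (ae_of_all _ fun y => ?_)
  · refine Measurable.aestronglyMeasurable ?_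
    unfold dq
    exact Finset.measurable_sum _ fun l _ => Finset.measurable_sum _ fun j _ =>
      ((rows_meas u l j x).sub measurable_const).pow_const 2
  · rw [Real.norm_eq_abs, abs_of_nonneg (rows_dq_nonneg u _ _)]
    refine Finset.sum_le_sum fun l _ => Finset.sum_le_sum fun j _ => ?_
    rw [← sq_abs]
    refine pow_le_pow_left₀ (abs_nonneg _) ((abs_sub _ _).trans ?_) 2
    exact add_le_add (abs_pd_le (hu l) j _) (abs_pd_le (hu l) j _)

theorem rows_bd (hκ : Ker κ ε D) (hu : ∀ l, LipschitzWith L (u l)) (m : Fin 2) (x : E 2)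
    {g : E 2 → ℝ} {a : ℝ} (ha : 0 ≤ a)
    (hg : ∀ᵐ y, ‖y‖ ≤ ε → |g y| ≤ a * ε + dq u (x - y) x) :
    |∫ y, pd κ m y * g y| ≤ a * D + er κ u x := by
  have i1 := (hκ.integrable_pd m).abs.mul_const (a * ε)
  have i2 := rows_dq_int hκ hu m x
  have h1 : ‖∫ y, pd κ m y * g y‖ ≤
      ∫ y, (|pd κ m y| * (a * ε) + |pd κ m y| * dq u (x - y) x) := by
    refine norm_integral_le_of_norm_le (i1.add i2) (hg.mono fun y hy => ?_)
    by_cases hy' : ‖y‖ ≤ ε
    · rw [Real.norm_eq_abs, abs_mul, ← mul_add]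
      exact mul_le_mul_of_nonneg_left (hy hy') (abs_nonneg _)
    · simp [hκ.pd_zero m (not_le.mp hy')]
  rw [integral_add i1 i2, integral_mul_const, Real.norm_eq_abs] at h1
  have h2 : (∫ y, |pd κ m y|) * (a * ε) ≤ a * D := by
    have h3 := mul_le_mul_of_nonneg_right (hκ.grad m) (mul_nonneg ha hκ.eps.le)
    have h4 : D / ε * (a * ε) = a * D := by
      have := hκ.eps.ne'
      field_simp
    exact h4 ▸ h3
  have h5 : ∫ y, |pd κ m y| * dq u (x - y) x ≤ er κ u x :=
    Finset.single_le_sum (f := fun m => ∫ y, |pd κ m y| * dq u (x - y) x)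
      (fun m _ => integral_nonneg fun y => mul_nonneg (abs_nonneg _) (rows_dq_nonneg u _ _))
      (Finset.mem_univ m)
  linarith

theorem rows_adm (h : Core L r A F J u) {x : E 2} (hx : ‖x‖ + ε < r) :
    ∀ᵐ y, ‖y‖ ≤ ε → Adm (A (x - y)) (F (x - y)) (J (x - y)) L (Dm u (x - y)) := by
  refine ((Measure.measurePreserving_sub_left volume x).quasiMeasurePreserving.ae h.adm).mono
    fun y hy hy' => hy ?_
  rw [mem_ball_zero_iff]
  exact (norm_sub_le x y).trans_lt (by linarith)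

theorem rows_lip {f : E 2 → ℝ} (hf : LipschitzWith L f) (x : E 2) {y : E 2} (hy : ‖y‖ ≤ ε) :
    |f x - f (x - y)| ≤ L * ε := by
  have h1 := hf.dist_le_mul x (x - y)
  rw [Real.dist_eq, dist_eq_norm, sub_sub_cancel] at h1
  exact h1.trans (mul_le_mul_of_nonneg_left hy L.2)

theorem rows_symm {f : E 2 → ℝ} (hf : ContDiff ℝ 2 f) (j m : Fin 2) (x : E 2) :
    pd (pd f j) m x = pd (pd f m) j x := by
  have hd : DifferentiableAt ℝ (fderiv ℝ f) x :=
    ((hf.fderiv_right (m := 1) (by norm_num)).differentiable (by norm_num)) x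
  have e : ∀ j m : Fin 2, pd (pd f j) m x = fderiv ℝ (fderiv ℝ f) x
      (EuclideanSpace.single m 1) (EuclideanSpace.single j 1) := fun j m => by
    unfold pd
    rw [fderiv_clm_apply hd (differentiableAt_const _)]
    simp
  rw [e, e]
  exact (hf.contDiffAt.isSymmSndFDerivAt (by simp)).eq _ _

/-- Rows `(0, i, m)`: `app (A x) X(x-y) = app (A x - A (x-y)) X(x-y) + F (x-y)` for almost all `y`
in the support, and `Ker.int_pd`. Rows `(1, 0, m)`: `det_add2` with `H = X(x-y) - X(x)`. Rows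
`(1, 1, l)`: symmetry of second derivatives (`Ker.cv_sm`). -/
theorem Core.rows (h : Core L r A F J u) (hκ : Ker κ ε D) {x : E 2} (hx : ‖x‖ + ε < r)
    (ha : Adm (A x) (F x) (J x) L (Dm u x)) :
    ‖Lm (A x) (Dm u x) *ᵥ fun q : I3 => pd (pd (cv κ (u q.1)) q.2.1) q.2.2 x‖ ≤
      (4 * L ^ 2 + L) * D + er κ u x := by
  have hL : (0 : ℝ) ≤ L := L.2
  have hε := hκ.eps
  have ha0 : (0 : ℝ) ≤ 4 * L ^ 2 + L := by positivity
  have h0 : 0 ≤ (4 * L ^ 2 + L) * D + er κ u x :=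
    (abs_nonneg _).trans (rows_bd hκ h.lu 0 x (g := fun _ => 0) ha0 (ae_of_all _ fun y _ => by
      have := rows_dq_nonneg u (x - y) x
      rw [abs_zero]
      positivity))
  rw [pi_norm_le_iff_of_nonneg h0]
  rintro ⟨a, i, m⟩
  rw [Real.norm_eq_abs]
  have hcase : ∀ b : Fin 2, b = 0 ∨ b = 1 := by decide
  rcases hcase a with rfl | rfl
  · rw [Lm_a]
    have e := rows_lin hκ h.lu (fun j l => A x j i l) (F x i) m x
    refine (congrArg abs e).trans_le (rows_bd hκ h.lu m x ha0 ((rows_adm h hx).mono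
      fun y hy hy' => ?_))
    obtain ⟨h1, -, h3⟩ := hy hy'
    have h4 : ∀ j l, |(A x j i l - A (x - y) j i l) * Dm u (x - y) l j| ≤ L * ε * L :=
      fun j l => by
        rw [abs_mul]
        exact mul_le_mul (rows_lip (h.lA j i l) x hy') (h3 l j) (abs_nonneg _) (by positivity)
    have h5 := rows_lip (h.lF i) x hy'
    have h6 := h1 i
    have h7 := rows_dq_nonneg u (x - y) x
    have a1 := abs_le.mp (h4 0 0)
    have a2 := abs_le.mp (h4 0 1)
    have a3 := abs_le.mp (h4 1 0)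
    have a4 := abs_le.mp (h4 1 1)
    have a5 := abs_le.mp h5
    simp only [app, Fin.sum_univ_two] at h6 ⊢
    rw [abs_le]
    constructor <;> nlinarith [a1.1, a1.2, a2.1, a2.2, a3.1, a3.2, a4.1, a4.2, a5.1, a5.2]
  rcases hcase i with rfl | rfl
  · rw [Lm_b]
    have e := rows_lin hκ h.lu (fun j l => (Dm u x).adjugate j l) (2 * J x) m x
    refine (congrArg abs e).trans_le (rows_bd hκ h.lu m x ha0 ((rows_adm h hx).mono
      fun y hy hy' => ?_))
    obtain ⟨-, h2, -⟩ := hy hy'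
    have h3 := ha.2.1
    have a5 := abs_le.mp (rows_lip h.lJ x hy')
    have a6 : (0 : ℝ) ≤ L ^ 2 * ε := by positivity
    rw [Matrix.det_fin_two] at h2 h3
    simp only [dq, Fin.sum_univ_two, Matrix.adjugate_fin_two, Matrix.of_apply, Matrix.cons_val',
      Matrix.cons_val_zero, Matrix.cons_val_one, Matrix.cons_val_fin_one]
    generalize Dm u (x - y) = Y at h2 ⊢
    generalize Dm u x = X at h3 ⊢
    rw [abs_le]
    constructor <;>
      nlinarith [a5.1, a5.2, sq_nonneg (Y 0 0 - X 0 0 - (Y 1 1 - X 1 1)),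
        sq_nonneg (Y 0 0 - X 0 0 + (Y 1 1 - X 1 1)), sq_nonneg (Y 0 1 - X 0 1 - (Y 1 0 - X 1 0)),
        sq_nonneg (Y 0 1 - X 0 1 + (Y 1 0 - X 1 0))]
  · rw [Lm_c]
    simp only []
    rw [rows_symm (hκ.cv_sm (h.lu m)) 0 1 x, sub_self, abs_zero]
    exact h0

theorem sec_meas_pd (f : E 2 → ℝ) (j : Fin 2) : Measurable (pd f j) :=
  measurable_fderiv_apply_const ℝ f _

theorem sec_abs_pd {f : E 2 → ℝ} (hf : LipschitzWith L f) (j : Fin 2) (x : E 2) :
    |pd f j x| ≤ L := by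
  have h1 : ‖fderiv ℝ f x‖ ≤ L := norm_fderiv_le_of_lipschitz ℝ hf
  have h2 := (fderiv ℝ f x).le_opNorm (EuclideanSpace.single j (1 : ℝ))
  rw [EuclideanSpace.norm_single, norm_one, mul_one, Real.norm_eq_abs] at h2
  exact h2.trans h1

theorem sec_dq_nonneg (u : Fin 2 → E 2 → ℝ) (x y : E 2) : 0 ≤ dq u x y :=
  Finset.sum_nonneg fun _ _ => Finset.sum_nonneg fun _ _ => sq_nonneg _

theorem sec_dq_le (hu : ∀ l, LipschitzWith L (u l)) (x y : E 2) :
    dq u x y ≤ 16 * (L : ℝ) ^ 2 := by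
  have key : ∀ l j, (Dm u x l j - Dm u y l j) ^ 2 ≤ 4 * (L : ℝ) ^ 2 := by
    intro l j
    have a := abs_le.1 (sec_abs_pd (hu l) j x)
    have b := abs_le.1 (sec_abs_pd (hu l) j y)
    simp only [Dm, Matrix.of_apply]
    nlinarith [a.1, a.2, b.1, b.2]
  simp only [dq, Fin.sum_univ_two]
  linarith [key 0 0, key 0 1, key 1 0, key 1 1]

theorem sec_meas_dq (u : Fin 2 → E 2 → ℝ) :
    Measurable fun z : E 2 × E 2 => dq u (z.1 - z.2) z.1 := by
  unfold dq
  refine Finset.measurable_sum _ fun l _ => Finset.measurable_sum _ fun j _ => ?_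
  refine Measurable.pow_const (Measurable.sub ?_ ?_) 2
  · exact (sec_meas_pd (u l) j).comp (measurable_fst.sub measurable_snd)
  · exact (sec_meas_pd (u l) j).comp measurable_fst

theorem Core.er_prod (h : Core L r A F J u) (hκ : Ker κ ε D) (ρ : ℝ) (m : Fin 2) :
    Integrable (fun z : E 2 × E 2 => |pd κ m z.2| * dq u (z.1 - z.2) z.1)
      ((volume.restrict (ball (0 : E 2) ρ)).prod volume) := by
  have hc : Integrable (fun _ : E 2 => 16 * (L : ℝ) ^ 2) (volume.restrict (ball (0 : E 2) ρ)) :=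
    integrableOn_const measure_ball_lt_top.ne
  have hb := hc.mul_prod (hκ.integrable_pd m).abs
  refine hb.mono' ?_ (Eventually.of_forall fun z => ?_)
  · exact ((((sec_meas_pd κ m).comp measurable_snd).abs).mul (sec_meas_dq u)).aestronglyMeasurable
  · rw [Real.norm_eq_abs, abs_of_nonneg (mul_nonneg (abs_nonneg _) (sec_dq_nonneg _ _ _)),
      mul_comm]
    exact mul_le_mul_of_nonneg_right (sec_dq_le h.lu _ _) (abs_nonneg _)

/-- Fubini; the integrand is bounded and measurable. -/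
theorem Core.er_le (h : Core L r A F J u) (hκ : Ker κ ε D) {ρ C : ℝ} (hC : 0 ≤ C) (hε : ε ≤ ρ)
    (hl : ∀ a : E 2, ‖a‖ ≤ ρ → ∫ x in ball (0 : E 2) ρ, dq u (x + a) x ≤ C * ‖a‖ ^ 2) :
    IntegrableOn (er κ u) (ball 0 ρ) ∧ ∫ x in ball (0 : E 2) ρ, er κ u x ≤ 2 * C * D * ε := by
  have hi : ∀ m : Fin 2, Integrable (fun x : E 2 => ∫ y, |pd κ m y| * dq u (x - y) x)
      (volume.restrict (ball (0 : E 2) ρ)) := fun m => (h.er_prod hκ ρ m).integral_prod_left
  have hb : ∀ m : Fin 2, ∫ x in ball (0 : E 2) ρ, ∫ y, |pd κ m y| * dq u (x - y) x ≤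
      C * D * ε := by
    intro m
    rw [integral_integral_swap (f := fun x y : E 2 => |pd κ m y| * dq u (x - y) x)
      (h.er_prod hκ ρ m)]
    have h1 : ∫ y, ∫ x in ball (0 : E 2) ρ, |pd κ m y| * dq u (x - y) x ≤
        ∫ y, |pd κ m y| * (C * ε ^ 2) := by
      refine integral_mono_of_nonneg (Eventually.of_forall fun y => ?_)
        ((hκ.integrable_pd m).abs.mul_const _) (Eventually.of_forall fun y => ?_)
      · exact integral_nonneg fun x => mul_nonneg (abs_nonneg _) (sec_dq_nonneg _ _ _)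
      · show ∫ x in ball (0 : E 2) ρ, |pd κ m y| * dq u (x - y) x ≤ |pd κ m y| * (C * ε ^ 2)
        rw [integral_const_mul]
        by_cases hy : ‖y‖ ≤ ε
        · refine mul_le_mul_of_nonneg_left ?_ (abs_nonneg _)
          have h2 := hl (-y) (by rw [norm_neg]; exact hy.trans hε)
          simp only [← sub_eq_add_neg, norm_neg] at h2
          exact h2.trans (mul_le_mul_of_nonneg_left (by gcongr) hC)
        · rw [hκ.pd_zero m (not_le.1 hy)]
          simp
    refine h1.trans ?_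
    rw [integral_mul_const]
    have h3 := mul_le_mul_of_nonneg_right (hκ.grad m)
      (mul_nonneg hC (sq_nonneg ε))
    refine h3.trans (le_of_eq ?_)
    have := hκ.eps.ne'
    field_simp
  refine ⟨integrable_finsetSum _ fun m _ => hi m, ?_⟩
  unfold er
  rw [integral_finsetSum _ fun m _ => hi m, Fin.sum_univ_two]
  linarith [hb 0, hb 1]

theorem er_nonneg (x : E 2) : 0 ≤ er κ u x := by
  exact Finset.sum_nonneg fun _ _ =>
    integral_nonneg fun _ => mul_nonneg (abs_nonneg _) (sec_dq_nonneg _ _ _)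

/-- `adm_bound`, `l2`, `rows`, `er_le`, `exists_ker`. -/
theorem Core.sec (h : Core L r A F J u)
    (hg : ∀ X, Adm (A 0) (F 0) (J 0) L X → (Lm (A 0) X).det ≠ 0) :
    ∃ ρ C : ℝ, 0 < ρ ∧ 0 ≤ C ∧ ∀ l, ∀ η, 0 < η → ∃ W : E 2 → ℝ, ContDiff ℝ 2 W ∧
      (∀ x, |W x - u l x| ≤ η) ∧
      ∀ j m, ∫ x in ball (0 : E 2) ρ, max (|pd (pd W j) m x| - C) 0 ≤ η := by
  obtain ⟨C1, hC1, hb⟩ := adm_bound (A := A) (F := F) (J := J)
    (fun j i l => (h.lA j i l).continuous.continuousAt)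
    (fun i => (h.lF i).continuous.continuousAt) h.lJ.continuous.continuousAt hg
  obtain ⟨δ, hδ, hb⟩ := Metric.eventually_nhds_iff_ball.1 hb
  obtain ⟨ρ, C2, hρ, hC2, hl⟩ := h.l2
  obtain ⟨D, hD, hk⟩ := exists_ker 2
  have hr := h.pos
  have hL : (0 : ℝ) ≤ L := L.2
  refine ⟨min δ (min ρ (r / 2)), C1 * ((4 * L ^ 2 + L) * D), by positivity, by positivity,
    fun l η hη => ?_⟩
  have hM : 0 ≤ C1 * (2 * C2 * D) := by positivity
  obtain ⟨ε, hε0, hε1, hε2, hε3, hε4⟩ : ∃ ε : ℝ, 0 < ε ∧ ε ≤ ρ ∧ ε ≤ r / 2 ∧ L * ε ≤ η ∧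
      C1 * (2 * C2 * D) * ε ≤ η := by
    refine ⟨min (min ρ (r / 2)) (η / (L + C1 * (2 * C2 * D) + 1)), by positivity,
      (min_le_left _ _).trans (min_le_left _ _), (min_le_left _ _).trans (min_le_right _ _),
      ?_, ?_⟩
    · refine (mul_le_mul_of_nonneg_left (min_le_right _ _) hL).trans ?_
      rw [← mul_div_assoc, div_le_iff₀ (by positivity)]
      nlinarith
    · refine (mul_le_mul_of_nonneg_left (min_le_right _ _) hM).trans ?_
      rw [← mul_div_assoc, div_le_iff₀ (by positivity)]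
      nlinarith
  obtain ⟨κ, hκ⟩ := hk ε hε0
  obtain ⟨hi, he⟩ := h.er_le hκ hC2 hε1 hl
  refine ⟨cv κ (u l), hκ.cv_sm (h.lu l), fun x => (hκ.cv_close (h.lu l) x).trans hε3,
    fun j m => ?_⟩
  have hs : ball (0 : E 2) (min δ (min ρ (r / 2))) ⊆ ball 0 ρ :=
    ball_subset_ball ((min_le_right _ _).trans (min_le_left _ _))
  have h1 : ∫ x in ball (0 : E 2) (min δ (min ρ (r / 2))),
      max (|pd (pd (cv κ (u l)) j) m x| - C1 * ((4 * L ^ 2 + L) * D)) 0 ≤
      ∫ x in ball (0 : E 2) (min δ (min ρ (r / 2))), C1 * er κ u x := by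
    refine integral_mono_of_nonneg (Eventually.of_forall fun x => le_max_right _ _)
      ((hi.mono_set hs).const_mul C1) ?_
    refine (ae_restrict_iff' measurableSet_ball).2 (h.adm.mono fun x hx hx' => ?_)
    have hn : ‖x‖ < min δ (min ρ (r / 2)) := mem_ball_zero_iff.1 hx'
    have hn1 : ‖x‖ < δ := hn.trans_le (min_le_left _ _)
    have hn2 : ‖x‖ < r / 2 := hn.trans_le ((min_le_right _ _).trans (min_le_right _ _))
    have ha := hx (mem_ball_zero_iff.2 (by linarith))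
    have h2 := hb x (mem_ball_zero_iff.2 hn1) _ ha
      fun q : I3 => pd (pd (cv κ (u q.1)) q.2.1) q.2.2 x
    have h3 := mul_le_mul_of_nonneg_left (h.rows hκ (by linarith) ha) hC1
    have h4 := norm_le_pi_norm (fun q : I3 => pd (pd (cv κ (u q.1)) q.2.1) q.2.2 x) (l, j, m)
    rw [Real.norm_eq_abs] at h4
    refine max_le ?_ (mul_nonneg hC1 (er_nonneg x))
    have h5 := h4.trans (h2.trans h3)
    rw [mul_add] at h5
    exact sub_le_iff_le_add'.2 h5
  refine h1.trans ?_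
  rw [integral_const_mul]
  have h6 : ∫ x in ball (0 : E 2) (min δ (min ρ (r / 2))), er κ u x ≤
      ∫ x in ball (0 : E 2) ρ, er κ u x :=
    setIntegral_mono_set hi (Eventually.of_forall fun x => er_nonneg x) hs.eventuallyLE
  have h7 := mul_le_mul_of_nonneg_left (h6.trans he) hC1
  refine h7.trans (le_trans (le_of_eq ?_) hε4)
  ring

end Pool.Agent.Lib.MP_4bee3f_an.G
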